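import Pool.Agent.Helper64.Hit.Defs

/-!
# Schreier families and repeated averages
-/

set_option autoImplicit false

namespace Pool.Agent.Helper64.Hit

lemma Adm.sub {n : ℕ} {I J : Finset ℕ} {m : ℕ → ℕ} (h : Adm n I m) (hJ : J ⊆ I) : Adm n J m := by
  obtain ⟨A, h1, h2, h3⟩ := h
  exact ⟨A, fun i hi => h1 i (hJ hi), fun i hi => h2 i (hJ hi), fun i hi j hj =>
    h3 i (hJ hi) j (hJ hj)⟩

lemma Adm.mono {n : ℕ} {I : Finset ℕ} {m m' : ℕ → ℕ} (h : Adm n I m) (hm : ∀ i ∈ I, m i ≤ m' i) :
    Adm n I m' := by
  obtain ⟨A, h1, h2, h3⟩ := h
  exact ⟨A, h1, fun i hi k hk => (h2 i hi k hk).trans (hm i hi), fun i hi j hj hij =>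
    (h3 i hi j hj hij).mono (hm i hi) (hm j hj)⟩

lemma Adm.rank {n n' : ℕ} {I : Finset ℕ} {m : ℕ → ℕ} (h : Adm n I m) (hn : n ≤ n') : Adm n' I m := by
  obtain ⟨A, h1, h2, h3⟩ := h
  refine ⟨fun i => A i ++ List.replicate (n' - n) 0, fun i hi => ?_, fun i hi k hk => ?_,
    fun i hi j hj hij => ?_⟩
  · rw [List.length_append, h1 i hi, List.length_replicate]
    omega
  · rcases List.mem_append.1 hk with hk | hk
    · exact h2 i hi k hk
    · rw [(List.mem_replicate.1 hk).2]
      exact Nat.zero_le _
  · rw [nms_append, nms_append]
    exact (h3 i hi j hj hij).append _ _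

/-- composition: an admissible union of admissible sets -/
lemma Adm.comp {n k : ℕ} {I J : Finset ℕ} {m m' : ℕ → ℕ} (h : Adm n I m) (g : ℕ → ℕ)
    (hg : ∀ j ∈ J, g j ∈ I) (hm : ∀ j ∈ J, m (g j) ≤ m' j)
    (hf : ∀ i ∈ I, Adm k (J.filter fun j => g j = i) m') : Adm (n + k) J m' := by
  obtain ⟨A, h1, h2, h3⟩ := h
  choose! B hB using hf
  refine ⟨fun j => A (g j) ++ B (g j) j, fun j hj => ?_, fun j hj l hl => ?_,
    fun i hi j hj hij => ?_⟩
  · rw [List.length_append, h1 _ (hg j hj), (hB _ (hg j hj)).1 j (by simp [hj])]
  · rcases List.mem_append.1 hl with hl | hl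
    · exact (h2 _ (hg j hj) l hl).trans (hm j hj)
    · exact (hB _ (hg j hj)).2.1 j (by simp [hj]) l hl
  · rw [nms_append, nms_append]
    by_cases hgg : g i = g j
    · rw [hgg, Div_append_left]
      exact (hB _ (hg j hj)).2.2 i (by simp [hi, hgg]) j (by simp [hj]) hij
    · exact ((h3 _ (hg i hi) _ (hg j hj) hgg).mono (hm i hi) (hm j hj)).append _ _

/-- admissible sets have few small elements -/
lemma Adm.card {n : ℕ} {I : Finset ℕ} {m : ℕ → ℕ} (h : Adm n I m) (K : ℕ) (hK : ∀ i ∈ I, m i ≤ K) :
    I.card ≤ (K + 1) ^ n := by
  obtain ⟨A, h1, h2, h3⟩ := h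
  have hc : (Fintype.piFinset fun _ : Fin n => Finset.range (K + 1)).card = (K + 1) ^ n := by
    simp
  rw [← hc]
  refine Finset.card_le_card_of_injOn (fun i => fun t : Fin n => (A i).getD t 0) ?_ ?_
  · intro i hi
    simp only [Finset.mem_coe, Fintype.mem_piFinset, Finset.mem_range]
    intro t
    have hi' : i ∈ I := hi
    have ht : (t : ℕ) < (A i).length := by rw [h1 i hi']; exact t.2
    rw [List.getD_eq_getElem _ _ ht]
    exact Nat.lt_succ_of_le ((h2 i hi' _ (List.getElem_mem ht)).trans (hK i hi'))
  · intro i hi j hj hij
    have hi' : i ∈ I := hi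
    have hj' : j ∈ I := hj
    by_contra hne
    apply (h3 i hi' j hj' hne).ne
    congr 1
    apply List.ext_getElem
    · rw [h1 i hi', h1 j hj']
    · intro t ht ht'
      have htn : t < n := by rw [← h1 i hi']; exact ht
      have h5 : (A i).getD t 0 = (A j).getD t 0 := congrFun hij ⟨t, htn⟩
      rwa [List.getD_eq_getElem _ _ ht, List.getD_eq_getElem _ _ ht'] at h5

/-- at most `N + 1` positions, all at least `N` -/
lemma Adm.one {I : Finset ℕ} {m : ℕ → ℕ} (N : ℕ) (hc : I.card ≤ N + 1) (hm : ∀ i ∈ I, N ≤ m i) :
    Adm 1 I m := by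
  have hlt : ∀ i ∈ I, (I.filter (· < i)).card ≤ N := by
    intro i hi
    have : (I.filter (· < i)).card < I.card := by
      apply Finset.card_lt_card
      rw [Finset.filter_ssubset]
      exact ⟨i, hi, lt_irrefl _⟩
    omega
  have hne : ∀ i ∈ I, ∀ j, i < j → (I.filter (· < i)).card < (I.filter (· < j)).card := by
    intro i hi j hij
    apply Finset.card_lt_card
    rw [Finset.ssubset_iff_of_subset]
    · exact ⟨i, by simp [hi, hij], by simp⟩
    · intro x hx
      rw [Finset.mem_filter] at hx ⊢
      exact ⟨hx.1, hx.2.trans hij⟩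
  refine ⟨fun i => [(I.filter (· < i)).card], fun i _ => rfl, fun i hi k hk => ?_,
    fun i hi j hj hij => ?_⟩
  · rw [List.mem_singleton] at hk
    rw [hk]
    exact (hlt i hi).trans (hm i hi)
  · simp only [nms_cons, nms_nil, Div_nm_nm]
    have h1 : (I.filter (· < i)).card ≠ (I.filter (· < j)).card := by
      rcases lt_or_gt_of_ne hij with h | h
      · exact (hne i hi j h).ne
      · exact (hne j hj i h).ne'
    rw [if_neg h1]
    exact ⟨(hlt i hi).trans (hm j hj), (hlt j hj).trans (hm i hi)⟩

/-- repeated averages -/
theorem exists_avg (q p : ℕ → ℕ) (hqp : ∀ u, q u ≤ p u) (hgr : ∀ u, 4 * (p u + 1) ≤ q (u + 1))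
    (hq : 1 ≤ q 0) : ∀ n u₀ : ℕ, ∃ e, u₀ < e ∧ ∃ a : ℕ → ℝ, (∀ u, 0 ≤ a u) ∧
      (∀ u, u < u₀ ∨ e ≤ u → a u = 0) ∧ ∑ u ∈ Finset.Ico u₀ e, a u = 1 ∧
      Adm n (Finset.Ico u₀ e) q ∧
      ∀ n', n' + 1 = n → ∀ Z ⊆ Finset.Ico u₀ e, Adm n' Z p → ∑ u ∈ Z, a u ≤ 2 / (q u₀ : ℝ) := by
  have hqm : Monotone q := by
    apply monotone_nat_of_le_succ
    intro u
    have := hgr u
    have := hqp u
    omega
  have hq1 : ∀ u, 1 ≤ q u := fun u => hq.trans (hqm (Nat.zero_le u))
  intro n
  induction n with
  | zero =>
    intro u₀
    refine ⟨u₀ + 1, Nat.lt_succ_self _, fun u => if u = u₀ then 1 else 0, fun u => ?_,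
      fun u hu => ?_, ?_, ?_, ?_⟩
    · dsimp only; split_ifs <;> norm_num
    · dsimp only
      rw [if_neg]
      omega
    · simp
    · refine ⟨fun _ => [], fun _ _ => rfl, fun i _ k hk => by simp at hk, fun i hi j hj hij => ?_⟩
      rw [Finset.mem_Ico] at hi hj
      omega
    · intro n' hn'
      omega
  | succ n ih =>
    intro u₀
    choose E hE AA hpos hzero hsum hadm hsmall using ih
    set r := q u₀ with hr
    have hr1 : 1 ≤ r := hq1 u₀
    set U : ℕ → ℕ := fun m => E^[m] u₀ with hU
    have hU0 : U 0 = u₀ := rfl
    have hUs : ∀ m, U (m + 1) = E (U m) := fun m => Function.iterate_succ_apply' _ _ _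
    have hUlt : ∀ m, U m < U (m + 1) := fun m => by rw [hUs]; exact hE _
    have hUm : StrictMono U := strictMono_nat_of_lt_succ hUlt
    have hu0 : u₀ < U r := by rw [← hU0]; exact hUm (by omega)
    -- index of the block
    have hblock : ∀ x, u₀ ≤ x → x < U r → ∃ m, m < r ∧ U m ≤ x ∧ x < U (m + 1) := by
      intro x h1 h2
      have hP0 : U 0 ≤ x := h1
      refine ⟨Nat.findGreatest (fun m => U m ≤ x) r, ?_, ?_, ?_⟩
      · have h3 : Nat.findGreatest (fun m => U m ≤ x) r ≤ r := Nat.findGreatest_le _
        have h4 : U (Nat.findGreatest (fun m => U m ≤ x) r) ≤ x :=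
          Nat.findGreatest_spec (P := fun m => U m ≤ x) (Nat.zero_le r) hP0
        rcases lt_or_eq_of_le h3 with h5 | h5
        · exact h5
        · rw [h5] at h4; omega
      · exact Nat.findGreatest_spec (P := fun m => U m ≤ x) (Nat.zero_le r) hP0
      · have h3 : Nat.findGreatest (fun m => U m ≤ x) r ≤ r := Nat.findGreatest_le _
        have h4 : U (Nat.findGreatest (fun m => U m ≤ x) r) ≤ x :=
          Nat.findGreatest_spec (P := fun m => U m ≤ x) (Nat.zero_le r) hP0
        have h5 : Nat.findGreatest (fun m => U m ≤ x) r < r := by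
          rcases lt_or_eq_of_le h3 with h5 | h5
          · exact h5
          · rw [h5] at h4; omega
        by_contra h6
        exact Nat.findGreatest_is_greatest (P := fun m => U m ≤ x) (Nat.lt_succ_self _) h5
          (not_lt.1 h6)
    choose! g hgr' hg1 hg2 using hblock
    have hA0 : ∀ m x, x < U m ∨ U (m + 1) ≤ x → AA (U m) x = 0 := by
      intro m x h
      apply hzero
      rw [hUs] at h
      exact h
    have hsub : ∀ m, m < r → Finset.Ico (U m) (U (m + 1)) ⊆ Finset.Ico u₀ (U r) := by
      intro m hm
      apply Finset.Ico_subset_Ico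
      · rw [← hU0]; exact hUm.monotone (Nat.zero_le _)
      · exact hUm.monotone hm
    have hAs : ∀ m, m < r → ∑ x ∈ Finset.Ico u₀ (U r), AA (U m) x = 1 := by
      intro m hm
      rw [← hsum (U m), ← hUs]
      symm
      apply Finset.sum_subset (hsub m hm)
      intro x _ hx
      apply hA0
      rw [Finset.mem_Ico] at hx
      omega
    have hrpos : (0 : ℝ) < r := by exact_mod_cast hr1
    refine ⟨U r, hu0, fun x => (1 / (r : ℝ)) * ∑ m ∈ Finset.range r, AA (U m) x, fun x => ?_,
      fun x hx => ?_, ?_, ?_, ?_⟩
    · exact mul_nonneg (by positivity) (Finset.sum_nonneg fun m _ => hpos _ _)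
    · dsimp only
      rw [Finset.sum_eq_zero, mul_zero]
      intro m hm
      rw [Finset.mem_range] at hm
      apply hA0
      rcases hx with hx | hx
      · left
        have : U 0 ≤ U m := hUm.monotone (Nat.zero_le _)
        omega
      · right
        exact (hUm.monotone hm : U (m + 1) ≤ U r).trans hx
    · rw [← Finset.mul_sum, Finset.sum_comm, Finset.sum_congr rfl fun m hm =>
        hAs m (Finset.mem_range.1 hm)]
      simp only [Finset.sum_const, Finset.card_range, nsmul_eq_mul, mul_one]
      field_simp
    · rw [add_comm n 1]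
      refine Adm.comp (I := Finset.range r) (m := fun _ => r)
        (Adm.one r (by rw [Finset.card_range]; omega) fun _ _ => le_rfl) g ?_ ?_ ?_
      · intro x hx
        rw [Finset.mem_Ico] at hx
        exact Finset.mem_range.2 (hgr' x hx.1 hx.2)
      · intro x hx
        rw [Finset.mem_Ico] at hx
        exact hqm hx.1
      · intro i hi
        refine (hadm (U i)).sub ?_
        intro x hx
        rw [Finset.mem_filter, Finset.mem_Ico] at hx
        rw [Finset.mem_Ico, ← hUs, ← hx.2]
        exact ⟨hg1 x hx.1.1 hx.1.2, hg2 x hx.1.1 hx.1.2⟩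
    · intro n' hn' Z hZ hadZ
      obtain rfl : n' = n := by omega
      rcases Finset.eq_empty_or_nonempty Z with rfl | hZne
      · simp only [Finset.sum_empty]
        positivity
      rw [← Finset.mul_sum, Finset.sum_comm]
      set S : ℕ → ℝ := fun m => ∑ x ∈ Z, AA (U m) x with hS
      -- the least element
      set g0 := Z.min' hZne with hg0
      have hg0Z : g0 ∈ Z := Finset.min'_mem _ _
      have hg0le : ∀ x ∈ Z, g0 ≤ x := fun x hx => Finset.min'_le _ _ hx
      have hg0I := Finset.mem_Ico.1 (hZ hg0Z)
      set m0 := g g0 with hm0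
      have hm0r : m0 < r := hgr' g0 hg0I.1 hg0I.2
      have hm01 : U m0 ≤ g0 := hg1 g0 hg0I.1 hg0I.2
      have hm02 : g0 < U (m0 + 1) := hg2 g0 hg0I.1 hg0I.2
      have hSnn : ∀ m, 0 ≤ S m := fun m => Finset.sum_nonneg fun x _ => hpos _ _
      have hS0 : ∀ m, m < m0 → S m = 0 := by
        intro m hm
        apply Finset.sum_eq_zero
        intro x hx
        apply hA0
        right
        have h1 : U (m + 1) ≤ U m0 := hUm.monotone hm
        exact (h1.trans hm01).trans (hg0le x hx)
      have hS1 : ∀ m, m < r → S m ≤ 1 := by
        intro m hm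
        rw [← hAs m hm]
        exact Finset.sum_le_sum_of_subset_of_nonneg hZ fun x _ _ => hpos _ _
      have hgrow : ∀ j, 4 ^ (j + 1) * (p g0 + 1) ≤ q (U (m0 + 1 + j)) := by
        intro j
        induction j with
        | zero =>
          have h1 : g0 + 1 ≤ U (m0 + 1) := hm02
          have := (hgr g0).trans (hqm h1)
          simpa using this
        | succ j ihj =>
          have h1 : U (m0 + 1 + j) + 1 ≤ U (m0 + 1 + (j + 1)) := hUlt _
          have h2 := (hgr (U (m0 + 1 + j))).trans (hqm h1)
          have h3 := hqp (U (m0 + 1 + j))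
          calc 4 ^ (j + 1 + 1) * (p g0 + 1) = 4 * (4 ^ (j + 1) * (p g0 + 1)) := by ring
            _ ≤ 4 * (p (U (m0 + 1 + j)) + 1) := by omega
            _ ≤ _ := h2
      have hS2 : ∀ j, m0 + 1 + j < r → S (m0 + 1 + j) ≤ 2 / 4 ^ (j + 1) := by
        intro j hj
        set m := m0 + 1 + j with hm
        obtain ⟨A, hA1, hA2, hA3⟩ := hadZ
        cases n' with
        | zero =>
          -- only one element
          have : S m = 0 := by
            apply Finset.sum_eq_zero
            intro x hx
            have hx0 : x = g0 := by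
              by_contra hne
              have h1 := hA3 x hx g0 hg0Z hne
              have h2 := hA1 x hx
              rw [List.length_eq_zero_iff] at h2
              rw [h2] at h1
              simp at h1
            apply hA0
            left
            have h1 : U (m0 + 1) ≤ U m := hUm.monotone (by omega)
            omega
          rw [this]
          positivity
        | succ k =>
          have hfirst : ∀ x ∈ Z, (A x).headD 0 ≤ p g0 := by
            intro x hx
            have hxl := hA1 x hx
            have hgl := hA1 g0 hg0Z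
            obtain ⟨c, l, hcl⟩ : ∃ c l, A x = c :: l := by
              cases h : A x with
              | nil => rw [h] at hxl; simp at hxl
              | cons c l => exact ⟨c, l, rfl⟩
            obtain ⟨c', l', hcl'⟩ : ∃ c l, A g0 = c :: l := by
              cases h : A g0 with
              | nil => rw [h] at hgl; simp at hgl
              | cons c l => exact ⟨c, l, rfl⟩
            have hc' : c' ≤ p g0 := hA2 g0 hg0Z c' (by rw [hcl']; simp)
            rw [hcl]
            simp only [List.headD_cons]
            by_cases hxg : x = g0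
            · subst hxg
              rw [hcl] at hcl'
              simp only [List.cons.injEq] at hcl'
              rw [hcl'.1]; exact hc'
            · have h1 := hA3 x hx g0 hg0Z hxg
              rw [hcl, hcl'] at h1
              simp only [nms_cons, Div_nm_nm] at h1
              by_cases hcc : c = c'
              · rw [hcc]; exact hc'
              · rw [if_neg hcc] at h1
                exact h1.1
          -- split according to the first coordinate
          have h1 : S m = ∑ c ∈ Finset.range (p g0 + 1),
              ∑ x ∈ Z.filter fun x => (A x).headD 0 = c, AA (U m) x := by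
            rw [hS]
            symm
            apply Finset.sum_fiberwise_of_maps_to
            intro x hx
            exact Finset.mem_range.2 (Nat.lt_succ_of_le (hfirst x hx))
          have h2 : ∀ c ∈ Finset.range (p g0 + 1),
              ∑ x ∈ Z.filter (fun x => (A x).headD 0 = c), AA (U m) x ≤ 2 / (q (U m) : ℝ) := by
            intro c _
            have h3 : ∑ x ∈ Z.filter (fun x => (A x).headD 0 = c), AA (U m) x =
                ∑ x ∈ (Z.filter (fun x => (A x).headD 0 = c)).filter
                  (fun x => x ∈ Finset.Ico (U m) (E (U m))), AA (U m) x := by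
              symm
              apply Finset.sum_subset (Finset.filter_subset _ _)
              intro x hx hx'
              apply hA0
              rw [hUs]
              by_contra h4
              apply hx'
              rw [Finset.mem_filter, Finset.mem_Ico]
              push Not at h4
              exact ⟨hx, h4⟩
            rw [h3]
            refine hsmall (U m) k rfl _ ?_ ?_
            · intro x hx
              exact (Finset.mem_filter.1 hx).2
            · refine ⟨fun x => (A x).tail, fun x hx => ?_, fun x hx l hl => ?_,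
                fun x hx x' hx' hxx => ?_⟩
              · rw [Finset.mem_filter, Finset.mem_filter] at hx
                rw [List.length_tail, hA1 x hx.1.1]
                omega
              · rw [Finset.mem_filter, Finset.mem_filter] at hx
                exact hA2 x hx.1.1 l (List.mem_of_mem_tail hl)
              · rw [Finset.mem_filter, Finset.mem_filter] at hx hx'
                have h4 := hA3 x hx.1.1 x' hx'.1.1 hxx
                have h5 := hA1 x hx.1.1
                have h6 := hA1 x' hx'.1.1
                have h7 := hx.1.2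
                have h8 := hx'.1.2
                cases hax : A x with
                | nil => rw [hax] at h5; simp at h5
                | cons c1 l1 =>
                  cases hax' : A x' with
                  | nil => rw [hax'] at h6; simp at h6
                  | cons c2 l2 =>
                    rw [hax, List.headD_cons] at h7
                    rw [hax', List.headD_cons] at h8
                    rw [hax, hax', h7, h8] at h4
                    change Div (p x) (p x') (nms (A x).tail) (nms (A x').tail)
                    rw [hax, hax']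
                    simpa using h4
          have h3 : S m ≤ (p g0 + 1 : ℝ) * (2 / (q (U m) : ℝ)) := by
            rw [h1]
            refine (Finset.sum_le_sum h2).trans ?_
            simp
          refine h3.trans ?_
          have h4 : ((4 : ℝ) ^ (j + 1) * (p g0 + 1)) ≤ q (U m) := by
            exact_mod_cast hgrow j
          have h5 : (0 : ℝ) < q (U m) := by exact_mod_cast hq1 _
          rw [mul_div_assoc', div_le_div_iff₀ h5 (by positivity)]
          nlinarith
      -- total sum
      have htot : ∀ j, m0 + 1 + j ≤ r →
          ∑ m ∈ Finset.range (m0 + 1 + j), S m ≤ 1 + (2 / 3) * (1 - 1 / 4 ^ j) := by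
        intro j
        induction j with
        | zero =>
          intro _
          rw [add_zero, Finset.sum_range_succ, Finset.sum_eq_zero fun m hm =>
            hS0 m (Finset.mem_range.1 hm)]
          have := hS1 m0 hm0r
          simpa using this
        | succ j ihj =>
          intro hj
          rw [← add_assoc, Finset.sum_range_succ]
          have h1 := ihj (by omega)
          have h2 := hS2 j (by omega)
          have h3 : (2 : ℝ) / 4 ^ (j + 1) = (1 / 2) * (1 / 4 ^ j) := by
            rw [pow_succ]; field_simp; norm_num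
          have h4 : (1 : ℝ) / 4 ^ (j + 1) = (1 / 4) * (1 / 4 ^ j) := by
            rw [pow_succ]; field_simp
          rw [h3] at h2
          rw [h4]
          linarith
      have hfin : ∑ m ∈ Finset.range r, S m ≤ 2 := by
        obtain ⟨j, hj⟩ : ∃ j, r = m0 + 1 + j := ⟨r - (m0 + 1), by omega⟩
        have h1 := htot j (by omega)
        rw [← hj] at h1
        have h2 : (0 : ℝ) < 1 / 4 ^ j := by positivity
        linarith
      rw [div_eq_mul_one_div (2 : ℝ), mul_comm (2 : ℝ)]
      exact mul_le_mul_of_nonneg_left hfin (by positivity)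

end Pool.Agent.Helper64.Hit
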