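import Pool.Agent.Helper64.Hit.O
import Pool.Agent.Helper64.Hit.H4
-- the file uses: Adm.rank (H4), sum_all, sum_hi, rk_le (K), Phi_le_l1 (N); please add the imports

/-!
# Module P: rapidly increasing sequences
-/

set_option autoImplicit false

namespace Pool.Agent.Helper64.Hit

/-! ## Module P: rapidly increasing sequences -/

/-- rapidly increasing sequences -/
structure RIS (b : ℕ) (D τ : ℝ) (r : ℕ) (x : ℕ → (ℕ →₀ ℝ)) (q p lam : ℕ → ℕ) : Prop where
  sup : ∀ u, Sup (x u) (q u) (p u)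
  sep : ∀ u u', u < u' → p u < q u'
  bd : ∀ u m F, m ≤ r + rho (lam u) → Leg b m F → Phi F (x u) ≤ D
  tail : ∀ u, 3 / (om (lam (u + 1)) : ℝ) * (2 * l1 (x u)) ≤ τ
  lmono : StrictMono lam

lemma l1_nonneg (x : ℕ →₀ ℝ) : 0 ≤ l1 x := Finset.sum_nonneg fun k _ => abs_nonneg _

/-- the kinds at every level are high at the lower levels -/
lemma Kd.Hi.anti {κ : Kd} {T T' : ℕ} (h : κ.Hi T) (hT : T' ≤ T) : κ.Hi T' := by
  cases κ with
  | E j => exact hT.trans h
  | C i => exact hT.trans h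
  | L i => exact h
  | O i => exact hT.trans h

/-- high kinds belong to a level -/
lemma Kd.Hi.not_all {κ : Kd} : ∃ T, ¬ κ.Hi T := by
  cases κ with
  | E j => exact ⟨2 * j + 1, fun h => by simp only [Kd.Hi] at h; omega⟩
  | C i => exact ⟨2 * i + 2, fun h => by simp only [Kd.Hi] at h; omega⟩
  | L i => exact ⟨0, fun h => h⟩
  | O i => exact ⟨2 * i + 2, fun h => by simp only [Kd.Hi] at h; omega⟩

lemma rk_le' {κ : Kd} {T : ℕ} (h : ¬ κ.Hi T) (h0 : κ.Hi 0) : κ.rk ≤ rho T := by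
  rcases T with _ | T
  · exact absurd h0 h
  · exact (rk_le h).trans (rho_mono (Nat.le_succ T))

/-- values of atoms to the right of the support -/
lemma At.val_eq_zero {a : At} {x : ℕ →₀ ℝ} {l u : ℕ} (hx : Sup x l u) (h : u < a.pos) : a.val x = 0 := by
  cases a with
  | leaf k =>
    rw [val_leaf]
    by_contra hk
    have := (hx k hk).2
    exact absurd h (by simpa [At.pos] using this)
  | pc p =>
    rw [val_pc]
    have : res p.c p.d x = 0 := by
      ext k
      rw [res_apply]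
      split_ifs with hk
      · by_contra hk'
        have := (hx k hk').2
        simp only [At.pos] at h
        omega
      · rfl
    rw [this, pr_zero_right, mul_zero]

lemma Phi_eq_zero {F : List En} {x : ℕ →₀ ℝ} (h : ∀ e ∈ F, e.a.val x = 0) : Phi F x = 0 := by
  induction F with
  | nil => simp
  | cons e F ih =>
    rw [Phi_cons, h e (by simp), ih fun e' he' => h e' (by simp [he'])]
    simp

lemma der_leg' {b n : ℕ} {F : List En} (h : Leg b n F) (κ : Kd) : Leg b (n + κ.rk) (der κ F) :=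
  (der_leg h κ).mono (le_kctx b κ)

lemma wt_inv_nonneg (κ : Kd) : 0 ≤ 1 / κ.wt := one_div_nonneg.2 κ.wt_pos.le

theorem core {b r m T : ℕ} {D τ ε : ℝ} {x : ℕ → (ℕ →₀ ℝ)} {q p lam : ℕ → ℕ} (h : RIS b D τ r x q p lam)
    (hD : 0 ≤ D) (V : Finset ℕ) (a : ℕ → ℝ) (ha : ∀ u ∈ V, 0 ≤ a u) (hs : ∑ u ∈ V, a u ≤ 1)
    (hsm : ∀ Z ⊆ V, Adm m Z p → ∑ u ∈ Z, a u ≤ ε) {F : List En} (hF : Leg b m F) (hm : m ≤ r)
    (hk : ∀ e ∈ F, ∃ κ : Kd, e.kd = some κ ∧ κ.Hi T) :
    ∑ u ∈ V, a u * Phi F (x u) ≤ ε * D + 3 / (om T : ℝ) * D + τ := by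
  classical
  -- the zone of `u`
  let zn : ℕ → En → Prop := fun u e => ∃ κ : Kd, e.kd = some κ ∧ κ.Hi (lam u) ∧ ¬ κ.Hi (lam (u + 1))
  let Z : Finset ℕ := V.filter fun u => ∃ e ∈ F, zn u e ∧ e.pos ≤ p u
  have hZV : Z ⊆ V := Finset.filter_subset _ _
  have hZe : ∀ u ∈ Z, ∃ e ∈ F, zn u e ∧ e.pos ≤ p u := fun u hu => (Finset.mem_filter.1 hu).2
  have hAdm : Adm m Z p := by
    have hex : ∀ u, ∃ e : En, u ∈ Z → (e ∈ F ∧ zn u e ∧ e.pos ≤ p u) := by
      intro u
      by_cases hu : u ∈ Z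
      · obtain ⟨e, h1, h2, h3⟩ := hZe u hu
        exact ⟨e, fun _ => ⟨h1, h2, h3⟩⟩
      · exact ⟨⟨[], .leaf 0⟩, fun h => absurd h hu⟩
    choose e he using hex
    refine adm_of_entries hF.1 Z p e (fun u hu => (he u hu).1) (fun u hu => (he u hu).2.2) ?_
    intro u hu u' hu' hne
    refine adr_ne_of_kd hF.1 (he u hu).1 (he u' hu').1 ?_
    obtain ⟨κ, k1, k2, k3⟩ := (he u hu).2.1
    obtain ⟨κ', k1', k2', k3'⟩ := (he u' hu').2.1
    rw [k1, k1']
    intro hkk
    obtain rfl := Option.some.inj hkk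
    rcases lt_or_gt_of_ne hne with hlt | hlt
    · exact k3 (k2'.anti (h.lmono.monotone hlt))
    · exact k3' (k2.anti (h.lmono.monotone hlt))
  have hZs := hsm Z hZV hAdm
  have hτ : 0 ≤ τ := by
    refine le_trans ?_ (h.tail 0)
    have h1 := l1_nonneg (x 0)
    positivity
  have hom : (0 : ℝ) < om T := by
    have := om_pos T
    exact_mod_cast (by omega : 0 < om T)
  have hlv : lvs F = [] := by
    rw [List.eq_nil_iff_forall_not_mem]
    intro e he
    rw [mem_lvs] at he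
    obtain ⟨κ, hκ, -⟩ := hk e he.1
    rw [hκ] at he
    exact absurd he.2 (by simp)
  -- inside `Z`
  have hin : ∀ u ∈ Z, a u * Phi F (x u) ≤ a u * D := fun u hu =>
    mul_le_mul_of_nonneg_left (h.bd u m F (by omega) hF) (ha u (hZV hu))
  -- outside `Z`
  have hout : ∀ u ∈ V \ Z, a u * Phi F (x u) ≤ a u * (3 / (om T : ℝ) * D + τ) := by
    intro u hu
    obtain ⟨huV, huZ⟩ := Finset.mem_sdiff.1 hu
    refine mul_le_mul_of_nonneg_left ?_ (ha u huV)
    have hnz : ∀ e ∈ F, zn u e → p u < e.pos := by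
      intro e he hz
      by_contra hle
      exact huZ (Finset.mem_filter.2 ⟨huV, e, he, hz, by omega⟩)
    rw [Phi_split, hlv, Phi_nil, zero_add]
    -- split the kinds
    let S1 := (kinds F).filter fun κ => ¬ κ.Hi (lam u)
    let S2 := (kinds F).filter fun κ => κ.Hi (lam (u + 1))
    have hkT : ∀ κ ∈ kinds F, κ.Hi T := by
      intro κ hκ
      obtain ⟨e, he, hek⟩ := mem_kinds.1 hκ
      obtain ⟨κ', hκ', hT⟩ := hk e he
      rw [hek] at hκ'
      obtain rfl := Option.some.inj hκ'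
      exact hT
    have hle : ∀ κ ∈ kinds F, Phi (part κ F) (x u) ≤
        (if ¬ κ.Hi (lam u) then 1 / κ.wt * D else 0) +
          if κ.Hi (lam (u + 1)) then 1 / κ.wt * (2 * l1 (x u)) else 0 := by
      intro κ hκ
      have hw := wt_inv_nonneg κ
      have hl1 := l1_nonneg (x u)
      have hn1 : 0 ≤ 1 / κ.wt * D := mul_nonneg hw hD
      have hn2 : 0 ≤ 1 / κ.wt * (2 * l1 (x u)) := mul_nonneg hw (by positivity)
      by_cases h1 : κ.Hi (lam u)
      · by_cases h2 : κ.Hi (lam (u + 1))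
        · rw [if_neg (not_not.2 h1), if_pos h2, zero_add]
          refine (Phi_part_le hF κ (x u)).trans (mul_le_mul_of_nonneg_left ?_ hw)
          exact Phi_le_l1 (der_leg hF κ) (x u)
        · rw [if_neg (not_not.2 h1), if_neg h2, zero_add]
          refine (Phi_eq_zero ?_).le
          intro e he
          obtain ⟨heF, hek⟩ := mem_part.1 he
          exact At.val_eq_zero (h.sup u) (hnz e heF ⟨κ, hek, h1, h2⟩)
      · rw [if_pos h1]
        have h3 : Phi (part κ F) (x u) ≤ 1 / κ.wt * D := by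
          refine (Phi_part_le hF κ (x u)).trans (mul_le_mul_of_nonneg_left ?_ hw)
          refine h.bd u _ _ ?_ (der_leg' hF κ)
          have := rk_le' h1 ((hkT κ hκ).anti (Nat.zero_le _))
          omega
        split_ifs <;> linarith
    refine (Finset.sum_le_sum hle).trans ?_
    rw [Finset.sum_add_distrib, ← Finset.sum_filter, ← Finset.sum_filter, ← Finset.sum_mul,
      ← Finset.sum_mul]
    refine add_le_add ?_ ?_
    · refine mul_le_mul_of_nonneg_right ?_ hD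
      exact sum_hi _ T fun κ hκ => hkT κ (Finset.mem_filter.1 hκ).1
    · refine le_trans ?_ (h.tail u)
      refine mul_le_mul_of_nonneg_right ?_ (by have := l1_nonneg (x u); positivity)
      exact sum_hi _ _ fun κ hκ => (Finset.mem_filter.1 hκ).2
  have hc : 0 ≤ 3 / (om T : ℝ) * D + τ := by positivity
  have hsum : ∑ u ∈ V, a u * Phi F (x u) =
      ∑ u ∈ Z, a u * Phi F (x u) + ∑ u ∈ V \ Z, a u * Phi F (x u) := by
    rw [add_comm, Finset.sum_sdiff hZV]
  rw [hsum]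
  have e1 : ∑ u ∈ Z, a u * Phi F (x u) ≤ ε * D := by
    refine (Finset.sum_le_sum hin).trans ?_
    rw [← Finset.sum_mul]
    exact mul_le_mul_of_nonneg_right hZs hD
  have e2 : ∑ u ∈ V \ Z, a u * Phi F (x u) ≤ 3 / (om T : ℝ) * D + τ := by
    refine (Finset.sum_le_sum hout).trans ?_
    rw [← Finset.sum_mul]
    have : ∑ u ∈ V \ Z, a u ≤ 1 :=
      (Finset.sum_le_sum_of_subset_of_nonneg Finset.sdiff_subset fun u hu _ => ha u hu).trans hs
    calc _ ≤ 1 * (3 / (om T : ℝ) * D + τ) := mul_le_mul_of_nonneg_right this hc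
      _ = _ := one_mul _
  linarith

/-! ### numerical estimates -/

lemma num_v (j : ℕ) : 216 * Gam j * w j ^ 2 ≤ v j := by
  rw [v_def]
  have h1 := kap_pos j
  have h2 := R_pos j
  have h3 := Gam_pos (j + 1)
  have h4 := Gam_mono_succ j
  have h5 := w_pos j
  have h6 := two_pow_ge j
  calc 216 * Gam j * w j ^ 2 = 216 * (w j ^ 2 * 1) * (1 * Gam j) * 1 * 1 := by ring
    _ ≤ 2 ^ (20 + j) * (w j ^ 2 * w j) * (Gam (j + 1) * Gam (j + 1)) * kap j * R j := by
      gcongr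
      · omega
      · omega
      · omega
    _ = _ := by ring

lemma num_w {j : ℕ} (hj : 1 ≤ j) : 18 * Gam j ≤ w j := by
  obtain ⟨i, rfl⟩ : ∃ i, j = i + 1 := ⟨j - 1, by omega⟩
  rw [w_succ]
  have h2 := R_pos i
  have h3 := Gam_pos (i + 1)
  have h4 := Gam_pos (i + 2)
  have h5 := v_pos i
  have h6 := two_pow_ge i
  calc 18 * Gam (i + 1) = 18 * (1 * Gam (i + 1)) * (1 * 1) * 1 * 1 := by ring
    _ ≤ 2 ^ (20 + i) * (Gam (i + 1) * Gam (i + 1)) * (Gam (i + 2) * Gam (i + 2)) * R i * v i := by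
      gcongr
      · omega
      · omega
    _ = _ := by ring

/-- the estimate of the high kinds -/
lemma num_hi {j : ℕ} {D τ ε : ℝ} (hDj : D ≤ 18 * Gam j)
    (hε : ε * D * w j ^ 2 ≤ 1 / 4) (hτ : τ * w j ^ 2 ≤ 1 / 4) :
    (w j : ℝ) * (ε * D + 3 / (om (2 * j + 1) : ℝ) * D + τ) ≤ 3 / 4 * (1 / w j) := by
  have hw : (8 : ℝ) ≤ w j := by exact_mod_cast w_pos j
  have hw0 : (0 : ℝ) < w j := by linarith
  have hv : (0 : ℝ) < v j := by
    have := v_pos j
    exact_mod_cast (by omega : 0 < v j)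
  rw [om_odd]
  have h1 : (216 : ℝ) * Gam j * w j ^ 2 ≤ v j := by exact_mod_cast num_v j
  have h2 : 3 / (v j : ℝ) * D * w j ^ 2 ≤ 1 / 4 := by
    have h3 : D * w j ^ 2 ≤ 18 * Gam j * w j ^ 2 := mul_le_mul_of_nonneg_right hDj (by positivity)
    have h4 : 3 / (v j : ℝ) * D * w j ^ 2 = 3 * (D * w j ^ 2) / v j := by ring
    rw [h4, div_le_iff₀ hv]
    linarith
  have h5 : (w j : ℝ) * (ε * D + 3 / (v j : ℝ) * D + τ) =
      (ε * D * w j ^ 2 + 3 / (v j : ℝ) * D * w j ^ 2 + τ * w j ^ 2) * (1 / w j) := by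
    field_simp
  rw [h5]
  refine mul_le_mul_of_nonneg_right ?_ (by positivity)
  linarith

/-- the value of the average -/
lemma Phi_avg (F : List En) (j : ℕ) (V : Finset ℕ) (a : ℕ → ℝ) (ha : ∀ u ∈ V, 0 ≤ a u)
    (x : ℕ → (ℕ →₀ ℝ)) : Phi F ((w j : ℝ) • ∑ u ∈ V, a u • x u) ≤ w j * ∑ u ∈ V, a u * Phi F (x u) := by
  rw [Phi_smul, Nat.abs_cast]
  exact mul_le_mul_of_nonneg_left (Phi_sum_le F V a ha x) (Nat.cast_nonneg _)

theorem P2 {b j : ℕ} {D τ ε : ℝ} {x : ℕ → (ℕ →₀ ℝ)} {q p lam : ℕ → ℕ}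
    (h : RIS b D τ (2 * rn j) x q p lam) (hD : 0 ≤ D) (hDj : D ≤ 18 * Gam j) (V : Finset ℕ) (a : ℕ → ℝ)
    (ha : ∀ u ∈ V, 0 ≤ a u) (hs : ∑ u ∈ V, a u ≤ 1)
    (hsm : ∀ Z ⊆ V, Adm (rn j - 1) Z p → ∑ u ∈ Z, a u ≤ ε) (_hε0 : 0 ≤ ε)
    (hε : ε * D * w j ^ 2 ≤ 1 / 4) (hτ : τ * w j ^ 2 ≤ 1 / 4)
    {m : ℕ} {F : List En} (hF : Leg b m F) (hm : m + 1 ≤ rn j)
    (hk : ∀ e ∈ F, ∃ κ : Kd, e.kd = some κ ∧ κ.Hi (2 * j + 1)) :
    Phi F ((w j : ℝ) • ∑ u ∈ V, a u • x u) ≤ 1 / w j := by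
  have hw : (8 : ℝ) ≤ w j := by exact_mod_cast w_pos j
  have hw0 : (0 : ℝ) < w j := by linarith
  have h1 := core h hD V a ha hs (fun Z hZ hA => hsm Z hZ (hA.rank (by omega))) hF (by omega) hk
  have h2 := num_hi hDj hε hτ
  have h3 : 3 / 4 * (1 / (w j : ℝ)) ≤ 1 / w j := by
    have : 0 ≤ 1 / (w j : ℝ) := by positivity
    linarith
  calc _ ≤ w j * ∑ u ∈ V, a u * Phi F (x u) := Phi_avg F j V a ha x
    _ ≤ w j * (ε * D + 3 / (om (2 * j + 1) : ℝ) * D + τ) := mul_le_mul_of_nonneg_left h1 hw0.le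
    _ ≤ _ := h2.trans h3

open scoped Classical in
/-- the part with high kinds -/
noncomputable def hiF (T : ℕ) (F : List En) : List En :=
  F.filter fun e => decide (∃ κ : Kd, e.kd = some κ ∧ κ.Hi T)

lemma mem_hiF {T : ℕ} {F : List En} {e : En} :
    e ∈ hiF T F ↔ e ∈ F ∧ ∃ κ : Kd, e.kd = some κ ∧ κ.Hi T := by
  unfold hiF
  rw [List.mem_filter]
  simp

lemma part_hiF {T : ℕ} {F : List En} {κ : Kd} (hκ : κ.Hi T) : part κ (hiF T F) = part κ F := by
  unfold part hiF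
  rw [List.filter_filter]
  refine List.filter_congr fun e _ => ?_
  by_cases h : e.kd = some κ
  · have : ∃ κ : Kd, e.kd = some κ ∧ κ.Hi T := ⟨κ, h, hκ⟩
    simp [h, hκ]
  · simp [h]

lemma Phi_hiF (T : ℕ) (F : List En) (y : ℕ →₀ ℝ) :
    ∑ κ ∈ (kinds F).filter (fun κ => κ.Hi T), Phi (part κ F) y = Phi (hiF T F) y := by
  rw [Phi_split' (hiF T F) ((kinds F).filter fun κ => κ.Hi T)]
  · have : lvs (hiF T F) = [] := by
      rw [List.eq_nil_iff_forall_not_mem]
      intro e he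
      rw [mem_lvs, mem_hiF] at he
      obtain ⟨⟨-, κ, hκ, -⟩, h⟩ := he
      rw [h] at hκ
      simp at hκ
    rw [this, Phi_nil, zero_add]
    exact Finset.sum_congr rfl fun κ hκ => by rw [part_hiF (Finset.mem_filter.1 hκ).2]
  · intro κ hκ
    obtain ⟨e, he, hek⟩ := mem_kinds.1 hκ
    obtain ⟨heF, κ', hκ', hT⟩ := mem_hiF.1 he
    rw [hek] at hκ'
    obtain rfl := Option.some.inj hκ'
    exact Finset.mem_filter.2 ⟨mem_kinds.2 ⟨e, heF, hek⟩, hT⟩

lemma kind_cases {κ : Kd} {j : ℕ} (h1 : ¬ κ.Hi (2 * j + 1)) (h2 : κ.Hi (2 * j)) : κ = .E j := by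
  cases κ with
  | E i =>
    simp only [Kd.Hi] at h1 h2
    rw [show i = j by omega]
  | C i => simp only [Kd.Hi] at h1 h2; omega
  | L i => exact absurd h2 id
  | O i => simp only [Kd.Hi] at h1 h2; omega

/-- the leaves at the roots -/
lemma lvs_est {b m r : ℕ} {D τ ε : ℝ} {x : ℕ → (ℕ →₀ ℝ)} {q p lam : ℕ → ℕ} (h : RIS b D τ r x q p lam)
    (hD : 0 ≤ D) (V : Finset ℕ) (a : ℕ → ℝ) (ha : ∀ u ∈ V, 0 ≤ a u)
    (hsm : ∀ Z ⊆ V, Adm m Z p → ∑ u ∈ Z, a u ≤ ε) {F : List En} (hF : Leg b m F) (hm : m ≤ r) :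
    ∑ u ∈ V, a u * Phi (lvs F) (x u) ≤ ε * D := by
  classical
  let Z : Finset ℕ := V.filter fun u => ∃ e ∈ lvs F, q u ≤ e.pos ∧ e.pos ≤ p u
  have hZV : Z ⊆ V := Finset.filter_subset _ _
  have hAdm : Adm m Z p := by
    have hex : ∀ u, ∃ e : En, u ∈ Z → (e ∈ lvs F ∧ q u ≤ e.pos ∧ e.pos ≤ p u) := by
      intro u
      by_cases hu : u ∈ Z
      · obtain ⟨e, h1, h2, h3⟩ := (Finset.mem_filter.1 hu).2
        exact ⟨e, fun _ => ⟨h1, h2, h3⟩⟩
      · exact ⟨⟨[], .leaf 0⟩, fun h => absurd h hu⟩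
    choose e he using hex
    refine adm_of_entries hF.1 Z p e (fun u hu => (mem_lvs.1 (he u hu).1).1)
      (fun u hu => (he u hu).2.2) ?_
    intro u hu u' hu' hne
    have a1 := he u hu
    have a2 := he u' hu'
    refine adr_ne_of_nil hF.1 (mem_lvs.1 a1.1).1 (mem_lvs.1 a2.1).1 ?_
      (kd_none (mem_lvs.1 a1.1).2).1
    intro hee
    rw [hee] at a1
    rcases lt_or_gt_of_ne hne with hlt | hlt
    · have := h.sep u u' hlt
      omega
    · have := h.sep u' u hlt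
      omega
  have hZs := hsm Z hZV hAdm
  have hle : ∀ u ∈ V, a u * Phi (lvs F) (x u) ≤ if u ∈ Z then a u * D else 0 := by
    intro u hu
    split_ifs with hZ
    · refine mul_le_mul_of_nonneg_left ?_ (ha u hu)
      exact h.bd u m _ (by omega) (hF.sub (lvs_sub F))
    · rw [Phi_eq_zero, mul_zero]
      intro e he
      obtain ⟨-, k, hk⟩ := kd_none (mem_lvs.1 he).2
      rw [hk, val_leaf]
      by_contra hx
      obtain ⟨h1, h2⟩ := h.sup u k hx
      refine hZ (Finset.mem_filter.2 ⟨hu, e, he, ?_⟩)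
      unfold En.pos
      rw [hk]
      exact ⟨h1, h2⟩
  refine (Finset.sum_le_sum hle).trans ?_
  rw [← Finset.sum_filter, ← Finset.sum_mul]
  refine mul_le_mul_of_nonneg_right ?_ hD
  have : V.filter (fun u => u ∈ Z) = Z := by
    ext u
    simp only [Finset.mem_filter]
    exact ⟨fun h => h.2, fun h => ⟨hZV h, h⟩⟩
  rw [this]
  exact hZs

theorem P1 {b j : ℕ} (hj : 1 ≤ j) {D τ ε : ℝ} {x : ℕ → (ℕ →₀ ℝ)} {q p lam : ℕ → ℕ}
    (h : RIS b D τ (2 * rn j) x q p lam) (hD : 0 ≤ D) (hDj : D ≤ 18 * Gam j) (V : Finset ℕ) (a : ℕ → ℝ)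
    (ha : ∀ u ∈ V, 0 ≤ a u) (hs : ∑ u ∈ V, a u ≤ 1)
    (hsm : ∀ Z ⊆ V, Adm (rn j - 1) Z p → ∑ u ∈ Z, a u ≤ ε) (hε0 : 0 ≤ ε)
    (hε : ε * D * w j ^ 2 ≤ 1 / 4) (hτ : τ * w j ^ 2 ≤ 1 / 4) (hτ0 : 0 ≤ τ)
    {m : ℕ} {F : List En} (hF : Leg b m F) (hm : m + s (j - 1) * w j + 1 ≤ rn j) :
    Phi F ((w j : ℝ) • ∑ u ∈ V, a u • x u) ≤ 4 / 3 * (D + 1) + 1 := by
  classical
  have hw : (8 : ℝ) ≤ w j := by exact_mod_cast w_pos j
  have hw0 : (0 : ℝ) < w j := by linarith
  set y : ℕ →₀ ℝ := (w j : ℝ) • ∑ u ∈ V, a u • x u with hy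
  have hY : ∀ F, Phi F y ≤ w j * ∑ u ∈ V, a u * Phi F (x u) := fun F => Phi_avg F j V a ha x
  -- the trivial bound
  have htriv : ∀ m F, Leg b m F → m ≤ 2 * rn j → ∑ u ∈ V, a u * Phi F (x u) ≤ D := by
    intro m F hF hm
    calc _ ≤ ∑ u ∈ V, a u * D := Finset.sum_le_sum fun u hu =>
          mul_le_mul_of_nonneg_left (h.bd u m F (by omega) hF) (ha u hu)
      _ = (∑ u ∈ V, a u) * D := by rw [Finset.sum_mul]
      _ ≤ 1 * D := mul_le_mul_of_nonneg_right hs hD
      _ = D := one_mul D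
  have key : ∀ k m F, Leg b m F → m + s (j - 1) * k + 1 ≤ rn j →
      Phi F y ≤ 4 / 3 * (D + 1) + w j * D / 4 ^ k := by
    intro k
    induction k with
    | zero =>
      intro m F hF hm
      have h1 := htriv m F hF (by omega)
      have h2 := (hY F).trans (mul_le_mul_of_nonneg_left h1 hw0.le)
      rw [pow_zero, div_one]
      linarith
    | succ k ih =>
      intro m F hF hm
      have hm1 : m + 1 ≤ rn j := le_trans (by omega) hm
      have hB0 : 0 ≤ 4 / 3 * (D + 1) + w j * D / 4 ^ k := by positivity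
      -- leaves
      have e1 : Phi (lvs F) y ≤ 1 / 4 * (1 / w j) := by
        have h1 := lvs_est h hD V a ha (fun Z hZ hA => hsm Z hZ (hA.rank (by omega))) hF (by omega)
        have h2 := (hY (lvs F)).trans (mul_le_mul_of_nonneg_left h1 hw0.le)
        refine h2.trans ?_
        have h3 : (w j : ℝ) * (ε * D) = (ε * D * w j ^ 2) * (1 / w j) := by field_simp
        rw [h3]
        exact mul_le_mul_of_nonneg_right hε (by positivity)
      -- high kinds
      have e2 : Phi (hiF (2 * j + 1) F) y ≤ 3 / 4 * (1 / w j) := by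
        have h1 := core h hD V a ha hs (fun Z hZ hA => hsm Z hZ (hA.rank (by omega)))
          (hF.sub List.filter_sublist : Leg b m (hiF (2 * j + 1) F)) (by omega)
          (fun e he => (mem_hiF.1 he).2)
        exact ((hY _).trans (mul_le_mul_of_nonneg_left h1 hw0.le)).trans (num_hi hDj hε hτ)
      -- all kinds
      have hle : ∀ κ ∈ kinds F, Phi (part κ F) y ≤
          ((if κ.Hi (2 * j + 1) then Phi (part κ F) y else 0) + (if κ = .E j then D else 0)) +
            (if ¬ κ.Hi (2 * j) then 1 / κ.wt * (4 / 3 * (D + 1) + w j * D / 4 ^ k) else 0) := by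
        intro κ hκ
        have hwt := wt_inv_nonneg κ
        have hn : 0 ≤ 1 / κ.wt * (4 / 3 * (D + 1) + w j * D / 4 ^ k) := mul_nonneg hwt hB0
        by_cases h1 : κ.Hi (2 * j + 1)
        · rw [if_pos h1]
          have h2 : 0 ≤ if κ = Kd.E j then D else 0 := by split_ifs <;> linarith
          have h3 : 0 ≤ if ¬ κ.Hi (2 * j) then 1 / κ.wt * (4 / 3 * (D + 1) + w j * D / 4 ^ k) else 0 := by
            split_ifs <;> linarith
          linarith
        · rw [if_neg h1, zero_add]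
          by_cases h2 : κ.Hi (2 * j)
          · obtain rfl := kind_cases h1 h2
            rw [if_pos rfl, if_neg (not_not.2 h2), add_zero]
            refine (Phi_part_le hF _ y).trans ?_
            have h3 := htriv _ _ (der_leg' hF (.E j)) (by simp only [Kd.rk]; omega)
            have h4 := (hY (der (.E j) F)).trans (mul_le_mul_of_nonneg_left h3 hw0.le)
            have h5 : (Kd.E j).wt = (w j : ℝ) := rfl
            rw [h5]
            calc _ ≤ 1 / (w j : ℝ) * (w j * D) := mul_le_mul_of_nonneg_left h4 (by positivity)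
              _ = D := by field_simp
          · rw [if_pos h2]
            have h3 : 0 ≤ if κ = Kd.E j then D else 0 := by split_ifs <;> linarith
            have hrk : κ.rk ≤ s (j - 1) := by
              have h5 : 2 * (j - 1) + 1 + 1 = 2 * j := by omega
              have h6 := rk_le (κ := κ) (T := 2 * (j - 1) + 1) (by rw [h5]; exact h2)
              rw [rho_odd] at h6
              exact h6
            have h4 := ih _ _ (der_leg' hF κ) (by
              have : s (j - 1) * (k + 1) = s (j - 1) * k + s (j - 1) := by ring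
              omega)
            have h5 := (Phi_part_le hF κ y).trans (mul_le_mul_of_nonneg_left h4 hwt)
            linarith
      rw [Phi_split F y]
      have hsum := Finset.sum_le_sum hle
      rw [Finset.sum_add_distrib, Finset.sum_add_distrib, ← Finset.sum_filter, ← Finset.sum_filter,
        ← Finset.sum_filter, Phi_hiF, ← Finset.sum_mul] at hsum
      have e3 : ∑ κ ∈ (kinds F).filter (fun κ => κ = Kd.E j), D ≤ D := by
        rw [Finset.sum_const, nsmul_eq_mul]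
        have : ((kinds F).filter (fun κ => κ = Kd.E j)).card ≤ 1 := by
          rw [Finset.card_le_one]
          intro κ1 h1 κ2 h2
          rw [(Finset.mem_filter.1 h1).2, (Finset.mem_filter.1 h2).2]
        calc _ ≤ (1 : ℝ) * D := mul_le_mul_of_nonneg_right (by exact_mod_cast this) hD
          _ = D := one_mul D
      have e4 : (∑ κ ∈ (kinds F).filter (fun κ => ¬ κ.Hi (2 * j)), 1 / κ.wt) *
          (4 / 3 * (D + 1) + w j * D / 4 ^ k) ≤ 1 / 4 * (4 / 3 * (D + 1) + w j * D / 4 ^ k) :=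
        mul_le_mul_of_nonneg_right (sum_all _) hB0
      have e5 : (1 : ℝ) / w j ≤ 1 / 8 := one_div_le_one_div_of_le (by norm_num) hw
      have e6 : (w j : ℝ) * D / 4 ^ (k + 1) = 1 / 4 * (w j * D / 4 ^ k) := by
        rw [pow_succ]
        field_simp
      rw [e6]
      linarith
  have hfin := key (w j) m F hF hm
  have hDw : D ≤ w j := by
    refine hDj.trans ?_
    exact_mod_cast num_w hj
  have h4 : (w j : ℝ) * D ≤ 4 ^ (w j) := by
    have h5 : (w j : ℝ) ≤ 2 ^ (w j) := by exact_mod_cast (Nat.lt_two_pow_self).le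
    calc (w j : ℝ) * D ≤ w j * w j := mul_le_mul_of_nonneg_left hDw hw0.le
      _ ≤ 2 ^ (w j) * 2 ^ (w j) := mul_le_mul h5 h5 hw0.le (by positivity)
      _ = 4 ^ (w j) := by rw [← mul_pow]; norm_num
  have h6 : (w j : ℝ) * D / 4 ^ (w j) ≤ 1 := by
    rw [div_le_one (by positivity)]
    exact h4
  linarith

end Pool.Agent.Helper64.Hit
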