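import Pool.Agent.Helper64.Hit.O
import Pool.Agent.Helper64.Hit.H4

/-!
# Module R: averages against forests of small rank
-/

set_option autoImplicit false

namespace Pool.Agent.Helper64.Hit

namespace ModR

lemma res_of_sup {x : ℕ →₀ ℝ} {a b : ℕ} (h : Sup x a b) : res a b x = x := by
  ext k
  rw [res_apply]
  by_cases hk : x k = 0
  · rw [hk]; simp
  · rw [if_pos (h k hk)]

/-- entries of the truncation come from entries at small positions -/
lemma mem_trF' {a b : ℕ} {F : List En} {e' : En} (h : e' ∈ trF a b F) :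
    ∃ e ∈ F, e'.p = e.p ∧ e.pos ≤ b ∧ a ≤ e'.pos := by
  obtain ⟨e, he, h1, h2, h3⟩ := mem_trF h
  refine ⟨e, he, h1, ?_, h3.pos⟩
  refine h2.pos.trans ?_
  have h4 : e' ∈ trF a b F := h
  unfold trF at h4
  rw [List.mem_filterMap] at h4
  obtain ⟨e0, he0, h5⟩ := h4
  obtain ⟨-, h6⟩ := En.tr_some h5
  cases hx : e0.a with
  | leaf k =>
    rw [hx, tr_leaf] at h6
    split_ifs at h6 with hk
    have h7 := Option.some.inj h6
    rw [← h7]
    exact hk.2
  | pc p =>
    rw [hx, tr_pc] at h6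
    split_ifs at h6 with hk
    have h7 := Option.some.inj h6
    rw [← h7]
    exact hk.trans (min_le_right _ _)

/-- number of lists with bounded entries -/
lemma card_lists (S : Finset (List ℕ)) (m P : ℕ) (h : ∀ A ∈ S, A.length = m ∧ ∀ k ∈ A, k ≤ P) :
    S.card ≤ (P + 1) ^ m := by
  classical
  have hsub : S ⊆ (Fintype.piFinset fun _ : Fin m => Finset.range (P + 1)).image
      (fun f => List.ofFn f) := by
    intro A hA
    obtain ⟨hl, hk⟩ := h A hA
    subst hl
    rw [Finset.mem_image]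
    refine ⟨fun i => A[i], ?_, List.ofFn_getElem⟩
    rw [Fintype.mem_piFinset]
    intro i
    rw [Finset.mem_range]
    have := hk A[i] (List.getElem_mem _)
    omega
  calc S.card ≤ _ := Finset.card_le_card hsub
    _ ≤ (Fintype.piFinset fun _ : Fin m => Finset.range (P + 1)).card := Finset.card_image_le
    _ = (P + 1) ^ m := by
      rw [Fintype.card_piFinset]
      simp

end ModR

theorem R_est {b m j : ℕ} {F : List En} (hF : Leg b m F) (hj : m ≤ rn j) (V : Finset ℕ) (a : ℕ → ℝ)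
    (y : ℕ → (ℕ →₀ ℝ)) (q p : ℕ → ℕ) (D ε : ℝ) (hD : 0 ≤ D) (ha : ∀ u ∈ V, 0 ≤ a u) (hs : ∑ u ∈ V, a u ≤ 1)
    (hy : ∀ u ∈ V, Sup (y u) (q u) (p u)) (hN : ∀ u ∈ V, Nb b (y u) ≤ D)
    (hgr : ∀ u ∈ V, ∀ u' ∈ V, u < u' → (p u + 1) ^ m ≤ q u' + 1 ∧ p u < q u')
    (hsm : ∀ Z ⊆ V, Adm m Z p → ∑ u ∈ Z, a u ≤ ε) :
    Phi F (∑ u ∈ V, a u • y u) ≤ (8 + ε * w j) * D := by
  classical
  have hwj : (0 : ℝ) ≤ w j := by positivity
  set fresh : ℕ → Prop := fun u => ∃ e ∈ F, e.pos ≤ p u ∧
    ∀ e' ∈ F, adr e'.p = adr e.p → ∀ u' ∈ V, u' < u → p u' < e'.pos with hfresh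
  set Z := V.filter fresh with hZ
  have hZV : Z ⊆ V := Finset.filter_subset _ _
  -- the fresh set is admissible
  have hadm : Adm m Z p := by
    have h1 : ∀ u, u ∈ Z → fresh u := fun u hu => (Finset.mem_filter.1 hu).2
    have : Nonempty En := ⟨⟨[], .leaf 0⟩⟩
    choose! e he hep hef using h1
    refine adm_of_entries hF.1 Z p e he hep ?_
    have key : ∀ u ∈ Z, ∀ u' ∈ Z, u < u' → adr (e u).p ≠ adr (e u').p := by
      intro u hu u' hu' huu' hadr
      have h2 := hef u' hu' (e u) (he u hu) hadr u (hZV hu) huu'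
      have h3 := hep u hu
      omega
    intro u hu u' hu' hne
    rcases lt_or_gt_of_ne hne with h | h
    · exact key u hu u' hu' h
    · exact (key u' hu' u hu h).symm
  have hZs := hsm Z hZV hadm
  -- bound for all members
  have hall : ∀ u ∈ V, Phi F (y u) ≤ w j * D := fun u hu =>
    (op_E hF hj (y u)).trans (mul_le_mul_of_nonneg_left (hN u hu) hwj)
  -- bound for the members that are not fresh
  have hnf : ∀ u ∈ V, u ∉ Z → Phi F (y u) ≤ 8 * D := by
    intro u hu huZ
    have hnfr : ¬ fresh u := fun h => huZ (Finset.mem_filter.2 ⟨hu, h⟩)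
    have hev : ∀ e ∈ F, e.pos ≤ p u → ∃ e' ∈ F, adr e'.p = adr e.p ∧ ∃ u' ∈ V, u' < u ∧
        e'.pos ≤ p u' := by
      intro e he hep
      by_contra hcon
      apply hnfr
      refine ⟨e, he, hep, ?_⟩
      intro e' he' hadr u' hu' hlt
      by_contra hlt'
      exact hcon ⟨e', he', hadr, u', hu', hlt, by omega⟩
    rw [← ModR.res_of_sup (hy u hu), ← Phi_trF]
    have hleg := hF.trF (q u) (p u)
    rcases (V.filter fun u' => u' < u).eq_empty_or_nonempty with hemp | hne
    · have hnil : trF (q u) (p u) F = [] := by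
        rw [List.eq_nil_iff_forall_not_mem]
        intro e' he'
        obtain ⟨e, he, -, hp, -⟩ := ModR.mem_trF' he'
        obtain ⟨-, -, -, u', hu', hlt, -⟩ := hev e he hp
        have : u' ∈ V.filter fun u' => u' < u := Finset.mem_filter.2 ⟨hu', hlt⟩
        rw [hemp] at this
        simp at this
      rw [hnil, Phi_nil]
      positivity
    · obtain ⟨u₀, hu₀, hmax⟩ := Finset.exists_max_image _ p hne
      rw [Finset.mem_filter] at hu₀
      have hcard : ((trF (q u) (p u) F).map fun e => adr e.p).toFinset.card ≤ q u + 1 := by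
        refine le_trans (ModR.card_lists _ m (p u₀) ?_) (hgr u₀ hu₀.1 u hu hu₀.2).1
        intro A hA
        rw [List.mem_toFinset, List.mem_map] at hA
        obtain ⟨e', he', rfl⟩ := hA
        obtain ⟨e, he, hpe, hp, -⟩ := ModR.mem_trF' he'
        obtain ⟨e₂, he₂, hadr, u', hu', hlt, hpos⟩ := hev e he hp
        rw [hpe, ← hadr]
        refine ⟨(hF.1.wf _ he₂).adr, ?_⟩
        intro k hk
        have h5 : Sym.nm k ∈ e₂.p := by
          rw [← adr_rs e₂.p, List.mem_append]
          exact Or.inl ((nm_mem_nms _ _).2 hk)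
        have h6 := hF.1.self e₂ he₂ k h5
        have h7 := hmax u' (Finset.mem_filter.2 ⟨hu', hlt⟩)
        omega
      have hcs := class_sum hleg (N := q u) (fun e' he' => by
        obtain ⟨-, -, -, -, h⟩ := ModR.mem_trF' he'
        exact h) hcard (y u)
      exact hcs.trans (mul_le_mul_of_nonneg_left (hN u hu) (by norm_num))
  -- summation
  have h1 := Phi_sum_le F V a ha y
  have h2 : ∑ u ∈ V, a u * Phi F (y u) = ∑ u ∈ Z, a u * Phi F (y u) +
      ∑ u ∈ V \ Z, a u * Phi F (y u) := by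
    rw [add_comm]
    exact (Finset.sum_sdiff hZV).symm
  have h3 : ∑ u ∈ Z, a u * Phi F (y u) ≤ ε * (w j * D) := by
    calc ∑ u ∈ Z, a u * Phi F (y u) ≤ ∑ u ∈ Z, a u * (w j * D) :=
          Finset.sum_le_sum fun u hu => mul_le_mul_of_nonneg_left (hall u (hZV hu)) (ha u (hZV hu))
      _ = (∑ u ∈ Z, a u) * (w j * D) := (Finset.sum_mul _ _ _).symm
      _ ≤ ε * (w j * D) := mul_le_mul_of_nonneg_right hZs (mul_nonneg hwj hD)
  have h4 : ∑ u ∈ V \ Z, a u * Phi F (y u) ≤ 1 * (8 * D) := by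
    calc ∑ u ∈ V \ Z, a u * Phi F (y u) ≤ ∑ u ∈ V \ Z, a u * (8 * D) := by
          refine Finset.sum_le_sum fun u hu => ?_
          rw [Finset.mem_sdiff] at hu
          exact mul_le_mul_of_nonneg_left (hnf u hu.1 hu.2) (ha u hu.1)
      _ = (∑ u ∈ V \ Z, a u) * (8 * D) := (Finset.sum_mul _ _ _).symm
      _ ≤ 1 * (8 * D) := by
          refine mul_le_mul_of_nonneg_right ?_ (by positivity)
          refine le_trans ?_ hs
          exact Finset.sum_le_sum_of_subset_of_nonneg Finset.sdiff_subset fun u hu _ => ha u hu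
  calc Phi F (∑ u ∈ V, a u • y u) ≤ ∑ u ∈ V, a u * Phi F (y u) := h1
    _ ≤ ε * (w j * D) + 1 * (8 * D) := by rw [h2]; exact add_le_add h3 h4
    _ = (8 + ε * w j) * D := by ring

end Pool.Agent.Helper64.Hit
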