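import Pool.Agent.Helper64.Hit.C
import Pool.Agent.Helper64.Hit.R
import Pool.Agent.Helper64.Hit.P
-- the file uses: Adm.sub, Adm.rank, Adm.comp, exists_avg (H4), conv (C), R_est (R), RIS, P1, P2 (P), merge (O),
-- le_Nb, exists_lt_Nb, Nb_smul, Nb_coord (N); please add the imports

/-!
# Module A: vectors with averages
-/

set_option autoImplicit false

namespace Pool.Agent.Helper64.Hit

/-! ## Module A: vectors with averages -/

/-- successive nonzero vectors -/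
def Suc (x : ℕ → (ℕ →₀ ℝ)) : Prop := (∀ k, x k ≠ 0) ∧ ∀ k l, k < l → ∀ i ∈ (x k).support, ∀ j ∈ (x l).support, i < j

lemma Suc.ge {x : ℕ → (ℕ →₀ ℝ)} (hx : Suc x) (k : ℕ) : ∀ i ∈ (x k).support, k ≤ i := by
  induction k with
  | zero => intro i _; exact Nat.zero_le _
  | succ k ih =>
    intro i hi
    obtain ⟨i', hi'⟩ : (x k).support.Nonempty := Finsupp.support_nonempty_iff.2 (hx.1 k)
    have h1 := ih i' hi'
    have h2 := hx.2 k (k + 1) (Nat.lt_succ_self k) i' hi' i hi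
    omega

/-- the range of a vector -/
lemma exists_sup (x : ℕ →₀ ℝ) (hx : x ≠ 0) : ∃ lo hi, lo ∈ x.support ∧ lo ≤ hi ∧ Sup x lo hi := by
  have hne : x.support.Nonempty := Finsupp.support_nonempty_iff.2 hx
  refine ⟨x.support.min' hne, x.support.max' hne, Finset.min'_mem _ _,
    Finset.min'_le_max' _ hne, fun k hk => ?_⟩
  have hk' : k ∈ x.support := Finsupp.mem_support_iff.2 hk
  exact ⟨Finset.min'_le _ _ hk', Finset.le_max' _ _ hk'⟩

/-- fast growing subsequences -/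
lemma exists_base {x : ℕ → (ℕ →₀ ℝ)} (hx : Suc x) (g : ℕ → ℕ) (Q0 : ℕ) :
    ∃ φ q p : ℕ → ℕ, (∀ v, Sup (x (φ v)) (q v) (p v)) ∧ (∀ v, q v ≤ p v) ∧ Q0 ≤ q 0 ∧
      ∀ v, g (p v) ≤ q (v + 1) := by
  choose lo hi h1 h2 h3 using fun k => exists_sup (x k) (hx.1 k)
  have h4 : ∀ k, k ≤ lo k := fun k => hx.ge k _ (h1 k)
  let φ : ℕ → ℕ := fun v => Nat.rec Q0 (fun _ k => g (hi k)) v
  have hφ : ∀ v, φ (v + 1) = g (hi (φ v)) := fun v => rfl
  refine ⟨φ, fun v => lo (φ v), fun v => hi (φ v), fun v => h3 _, fun v => h2 _, h4 _, fun v => ?_⟩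
  change g (hi (φ v)) ≤ lo (φ (v + 1))
  rw [← hφ]
  exact h4 _

lemma Sup.mono {x : ℕ →₀ ℝ} {l h l' h' : ℕ} (hx : Sup x l h) (h1 : l' ≤ l) (h2 : h ≤ h') : Sup x l' h' :=
  fun k hk => ⟨h1.trans (hx k hk).1, (hx k hk).2.trans h2⟩

lemma Sup.smul {x : ℕ →₀ ℝ} {l h : ℕ} (hx : Sup x l h) (a : ℝ) : Sup (a • x) l h := by
  intro k hk
  refine hx k fun h0 => hk ?_
  rw [Finsupp.smul_apply, h0, smul_zero]

lemma Sup.sum {I : Finset ℕ} {a : ℕ → ℝ} {y : ℕ → (ℕ →₀ ℝ)} {l h : ℕ} (hy : ∀ u ∈ I, Sup (y u) l h) :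
    Sup (∑ u ∈ I, a u • y u) l h := by
  intro k hk
  rw [Finsupp.finsetSum_apply] at hk
  obtain ⟨u, hu, hne⟩ := Finset.exists_ne_zero_of_sum_ne_zero hk
  exact (hy u hu).smul (a u) k hne

/-- restriction of a combination to the range of one member -/
lemma res_avg {I : Finset ℕ} {a : ℕ → ℝ} {y : ℕ → (ℕ →₀ ℝ)} {q p : ℕ → ℕ} (hy : ∀ u, Sup (y u) (q u) (p u))
    (hlt : ∀ u v, u < v → p u < q v) {u : ℕ} (hu : u ∈ I) :
    res (q u) (p u) (∑ v ∈ I, a v • y v) = a u • y u := by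
  ext k
  rw [res_apply]
  split_ifs with hk
  · rw [Finsupp.finsetSum_apply]
    refine Finset.sum_eq_single u (fun v _ hne => ?_) (fun h => absurd hu h)
    by_contra h0
    have h1 := (hy v).smul (a v) k h0
    rcases lt_or_gt_of_ne hne with h | h
    · have := hlt v u h
      omega
    · have := hlt u v h
      omega
  · by_contra h0
    exact hk ((hy u).smul (a u) k (Ne.symm h0))

lemma res_smul (l h : ℕ) (a : ℝ) (x : ℕ →₀ ℝ) : res l h (a • x) = a • res l h x := by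
  ext k
  rw [Finsupp.smul_apply, res_apply, res_apply, Finsupp.smul_apply]
  split_ifs <;> simp

lemma le_rn (n : ℕ) : n ≤ rn n := by
  cases n with
  | zero => exact Nat.zero_le _
  | succ n =>
    rw [rn_succ]
    have : (s n + n + 2) * 1 ≤ (s n + n + 2) * (w (n + 1) + 8) := Nat.mul_le_mul_left _ (by omega)
    omega

/-- level `s` averages of a sequence -/
def AvG (b n s : ℕ) (y : ℕ → (ℕ →₀ ℝ)) (q : ℕ → ℕ) : Prop :=
  ∀ u₀ : ℕ, ∃ e, u₀ < e ∧ ∃ a : ℕ → ℝ, (∀ u, 0 ≤ a u) ∧ ∑ u ∈ Finset.Ico u₀ e, a u = 1 ∧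
    Adm (n * s) (Finset.Ico u₀ e) q ∧ Nb b ((2 : ℝ) ^ s • ∑ u ∈ Finset.Ico u₀ e, a u • y u) ≤ 1

lemma Adm_single (u : ℕ) (q : ℕ → ℕ) : Adm 0 {u} q := by
  refine ⟨fun _ => [], fun i _ => rfl, fun i _ k hk => ?_, fun i hi j hj hne => ?_⟩
  · simp at hk
  · rw [Finset.mem_singleton] at hi hj
    exact absurd (hi.trans hj.symm) hne

lemma AvG_zero {b n : ℕ} {y : ℕ → (ℕ →₀ ℝ)} {q : ℕ → ℕ} (h1 : ∀ u, Nb b (y u) ≤ 1) : AvG b n 0 y q := by
  intro u₀
  refine ⟨u₀ + 1, Nat.lt_succ_self _, fun _ => 1, fun _ => zero_le_one, by simp, ?_, by simpa using h1 u₀⟩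
  rw [Nat.mul_zero]
  have : Finset.Ico u₀ (u₀ + 1) = {u₀} := by
    ext v
    simp
  rw [this]
  exact Adm_single _ _

/-- regrouping of a blockwise combination -/
lemma sum_blocks {M : Type} [AddCommGroup M] [Module ℝ M] {c : ℕ → ℕ} (hc : StrictMono c) (E : ℕ)
    (α : ℕ → ℝ) (a : ℕ → ℕ → ℝ) (f : ℕ → M) :
    ∑ u ∈ Finset.Ico (c 0) (c E), (∑ t ∈ Finset.range E,
      if c t ≤ u ∧ u < c (t + 1) then α t * a t u else 0) • f u =
    ∑ t ∈ Finset.Ico 0 E, α t • ∑ u ∈ Finset.Ico (c t) (c (t + 1)), a t u • f u := by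
  simp only [Finset.sum_smul]
  rw [Finset.sum_comm, Finset.range_eq_Ico]
  refine Finset.sum_congr rfl fun t ht => ?_
  rw [Finset.mem_Ico] at ht
  rw [Finset.smul_sum]
  have hsub : Finset.Ico (c t) (c (t + 1)) ⊆ Finset.Ico (c 0) (c E) := by
    intro u hu
    rw [Finset.mem_Ico] at hu ⊢
    exact ⟨(hc.monotone (Nat.zero_le t)).trans hu.1, hu.2.trans_le (hc.monotone ht.2)⟩
  rw [← Finset.sum_subset hsub]
  · refine Finset.sum_congr rfl fun u hu => ?_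
    rw [Finset.mem_Ico] at hu
    rw [if_pos hu, smul_smul]
  · intro u _ hu
    rw [Finset.mem_Ico] at hu
    rw [if_neg hu, zero_smul]

/-- the negation of the conclusion of `avg_vec` -/
def NoAvg (b n N0 : ℕ) (x : ℕ → (ℕ →₀ ℝ)) : Prop :=
  ¬ ∃ z ∈ Submodule.span ℝ (Set.range x), ∃ lo hi, N0 ≤ lo ∧ lo ≤ hi ∧ Sup z lo hi ∧ 1 / 2 ≤ Nb b z ∧
      (∀ m F, m ≤ n → Leg b m F → Phi F z ≤ 9) ∧ ∀ m F, m ≤ n → Leg 0 m F → Phi F z ≤ 9 * Gam b

lemma AvG_step {b n N0 s : ℕ} {x y : ℕ → (ℕ →₀ ℝ)} {q p : ℕ → ℕ}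
    (hspan : ∀ u, y u ∈ Submodule.span ℝ (Set.range x)) (hsup : ∀ u, Sup (y u) (q u) (p u))
    (hqp : ∀ u, q u ≤ p u) (hgr1 : ∀ u, (p u + 1) ^ (n + 1) ≤ q (u + 1))
    (hgr2 : ∀ u, 4 * (p u + 1) ≤ q (u + 1)) (hq0 : N0 ≤ q 0) (hq1 : 1 ≤ q 0) (hqw : 2 * w n ≤ q 0)
    (hneg : NoAvg b n N0 x) (h : AvG b (n + 1) s y q) : AvG b (n + 1) (s + 1) y q := by
  classical
  intro u₀
  choose e he a ha0 ha1 hadm hN using h
  obtain ⟨c, hc0, hcs⟩ : ∃ c : ℕ → ℕ, c 0 = u₀ ∧ ∀ t, c (t + 1) = e (c t) :=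
    ⟨fun t => Nat.rec u₀ (fun _ v => e v) t, rfl, fun t => rfl⟩
  have hc : StrictMono c := strictMono_nat_of_lt_succ fun t => by rw [hcs]; exact he _
  have hqm : StrictMono q := strictMono_nat_of_lt_succ fun u => by
    have h1 := hqp u
    have h2 := hgr2 u
    omega
  have hpm : StrictMono p := strictMono_nat_of_lt_succ fun u => by
    have h1 := hqp (u + 1)
    have h2 := hgr2 u
    omega
  have hcpos : ∀ t, 1 ≤ c (t + 1) := fun t => by
    have := hc (show t < t + 1 by omega)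
    omega
  obtain ⟨Y, hY⟩ : ∃ Y : ℕ → (ℕ →₀ ℝ), ∀ t,
      Y t = (2 : ℝ) ^ s • ∑ u ∈ Finset.Ico (c t) (c (t + 1)), a (c t) u • y u := ⟨_, fun t => rfl⟩
  obtain ⟨Q, hQ⟩ : ∃ Q : ℕ → ℕ, ∀ t, Q t = q (c t) := ⟨_, fun t => rfl⟩
  obtain ⟨P, hP⟩ : ∃ P : ℕ → ℕ, ∀ t, P t = p (c (t + 1) - 1) := ⟨_, fun t => rfl⟩
  have hQm : StrictMono Q := fun t t' htt => by rw [hQ, hQ]; exact hqm (hc htt)
  have hQP : ∀ t, Q t ≤ P t := fun t => by
    rw [hQ, hP]
    refine (hqp _).trans (hpm.monotone ?_)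
    have := hc (show t < t + 1 by omega)
    omega
  have hgrQ : ∀ t, 4 * (P t + 1) ≤ Q (t + 1) := fun t => by
    rw [hP, hQ]
    refine (hgr2 _).trans (le_of_eq ?_)
    congr 1
    have := hcpos t
    omega
  have hgrQ' : ∀ t, (P t + 1) ^ (n + 1) ≤ Q (t + 1) := fun t => by
    rw [hP, hQ]
    refine (hgr1 _).trans (le_of_eq ?_)
    congr 1
    have := hcpos t
    omega
  have hQ0 : q 0 ≤ Q 0 := by
    rw [hQ]
    exact hqm.monotone (Nat.zero_le _)
  have hYsup : ∀ t, Sup (Y t) (Q t) (P t) := by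
    intro t
    rw [hY]
    refine Sup.smul (Sup.sum fun u hu => ?_) _
    rw [Finset.mem_Ico] at hu
    refine (hsup u).mono ?_ ?_
    · rw [hQ]; exact hqm.monotone hu.1
    · rw [hP]; exact hpm.monotone (by omega)
  have hYN : ∀ t, Nb b (Y t) ≤ 1 := by
    intro t
    rw [hY, hcs]
    exact hN (c t)
  obtain ⟨E, hE, α, hα0, -, hα1, hαadm, hαsm⟩ := exists_avg Q P hQP hgrQ (by omega) (n + 1) 0
  set z : ℕ →₀ ℝ := ∑ t ∈ Finset.Ico 0 E, α t • Y t with hz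
  have hgrV : ∀ m ≤ n, ∀ u ∈ Finset.Ico 0 E, ∀ u' ∈ Finset.Ico 0 E, u < u' →
      (P u + 1) ^ m ≤ Q u' + 1 ∧ P u < Q u' := by
    intro m hm u _ u' _ huu
    have h1 : Q (u + 1) ≤ Q u' := hQm.monotone huu
    have h2 := hgrQ' u
    have h3 := hgrQ u
    have h4 : (P u + 1) ^ m ≤ (P u + 1) ^ (n + 1) := Nat.pow_le_pow_right (by omega) (by omega)
    exact ⟨by omega, by omega⟩
  have hw0 : (0 : ℝ) < w n := by exact_mod_cast (by have := w_pos n; omega : 0 < w n)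
  have hQpos : (0 : ℝ) < Q 0 := by exact_mod_cast (by omega : 0 < Q 0)
  have hεw : 2 / (Q 0 : ℝ) * w n ≤ 1 := by
    rw [div_mul_eq_mul_div, div_le_one hQpos]
    exact_mod_cast hqw.trans hQ0
  have key : ∀ b' D, 0 ≤ D → (∀ t, Nb b' (Y t) ≤ D) → ∀ m F, m ≤ n → Leg b' m F → Phi F z ≤ 9 * D := by
    intro b' D hD hYD m F hm hF
    have h1 := R_est (j := n) hF (hm.trans (le_rn n)) (Finset.Ico 0 E) α Y Q P D (2 / (Q 0 : ℝ)) hD
      (fun u _ => hα0 u) hα1.le (fun u _ => hYsup u) (fun u _ => hYD u) (hgrV m hm)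
      (fun Z hZ hA => hαsm n rfl Z hZ (hA.rank hm))
    refine h1.trans (mul_le_mul_of_nonneg_right (by linarith) hD)
  have hzlt : Nb b z < 1 / 2 := by
    by_contra hcon
    rw [not_lt] at hcon
    refine hneg ⟨z, ?_, Q 0, P (E - 1), hq0.trans hQ0, ?_, ?_, hcon, ?_, ?_⟩
    · refine Submodule.sum_mem _ fun t _ => Submodule.smul_mem _ _ ?_
      rw [hY]
      exact Submodule.smul_mem _ _ (Submodule.sum_mem _ fun u _ => Submodule.smul_mem _ _ (hspan u))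
    · exact (hQm.monotone (Nat.zero_le _)).trans (hQP _)
    · refine Sup.sum fun t ht => ?_
      rw [Finset.mem_Ico] at ht
      refine (hYsup t).mono (hQm.monotone (Nat.zero_le _)) ?_
      rw [hP, hP]
      refine hpm.monotone ?_
      have : c (t + 1) ≤ c (E - 1 + 1) := hc.monotone (by omega)
      omega
    · intro m F hm hF
      simpa using key b 1 zero_le_one hYN m F hm hF
    · intro m F hm hF
      refine key 0 (Gam b) (Nat.cast_nonneg _) (fun t => ?_) m F hm hF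
      refine (conv b _).trans ?_
      have h1 := mul_le_mul_of_nonneg_left (hYN t) (Nat.cast_nonneg (α := ℝ) (Gam b))
      simpa using h1
  have hblk := fun (f : ℕ → (ℕ →₀ ℝ)) => sum_blocks (M := ℕ →₀ ℝ) hc E α (fun t u => a (c t) u) f
  have hblk' := fun (f : ℕ → ℝ) => sum_blocks (M := ℝ) hc E α (fun t u => a (c t) u) f
  rw [hc0] at hblk hblk'
  refine ⟨c E, ?_, fun u => ∑ t ∈ Finset.range E, if c t ≤ u ∧ u < c (t + 1) then α t * a (c t) u else 0,
    ?_, ?_, ?_, ?_⟩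
  · rw [← hc0]; exact hc hE
  · intro u
    refine Finset.sum_nonneg fun t _ => ?_
    split_ifs
    · exact mul_nonneg (hα0 _) (ha0 _ _)
    · exact le_rfl
  · have h1 := hblk' fun _ => 1
    simp only [smul_eq_mul, mul_one] at h1
    rw [h1, ← hα1]
    refine Finset.sum_congr rfl fun t _ => ?_
    rw [hcs, ha1, mul_one]
  · -- admissibility
    have hg : ∀ u, ∃ t, c 0 ≤ u → (c t ≤ u ∧ u < c (t + 1)) := by
      intro u
      by_cases hu : c 0 ≤ u
      · have hex : ∃ t, u < c t := ⟨u + 1, (Nat.lt_succ_self u).trans_le (hc.le_apply)⟩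
        have h1 := Nat.find_spec hex
        have h2 : Nat.find hex ≠ 0 := fun h0 => by
          rw [h0] at h1
          omega
        refine ⟨Nat.find hex - 1, fun _ => ⟨?_, ?_⟩⟩
        · have := Nat.find_min hex (m := Nat.find hex - 1) (by omega)
          omega
        · rwa [Nat.sub_add_cancel (by omega)]
      · exact ⟨0, fun h => absurd h hu⟩
    choose g hg using hg
    have h1 := Adm.comp (k := (n + 1) * s) (J := Finset.Ico u₀ (c E)) (m' := q) hαadm g ?_ ?_ ?_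
    · refine h1.rank ?_
      rw [Nat.mul_succ, Nat.add_comm]
    · intro u hu
      rw [Finset.mem_Ico] at hu ⊢
      have h2 := hg u (by omega)
      refine ⟨Nat.zero_le _, ?_⟩
      by_contra h3
      have := hc.monotone (not_lt.1 h3)
      omega
    · intro u hu
      rw [Finset.mem_Ico] at hu
      rw [hQ]
      exact hqm.monotone (hg u (by omega)).1
    · intro t ht
      have h2 := hadm (c t)
      rw [← hcs] at h2
      refine h2.sub fun u hu => ?_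
      rw [Finset.mem_filter, Finset.mem_Ico] at hu
      have h3 := hg u (by omega)
      rw [hu.2] at h3
      exact Finset.mem_Ico.2 h3
  · have h1 : (2 : ℝ) ^ (s + 1) • ∑ u ∈ Finset.Ico u₀ (c E), (∑ t ∈ Finset.range E,
        if c t ≤ u ∧ u < c (t + 1) then α t * a (c t) u else 0) • y u = (2 : ℝ) • z := by
      rw [hblk, hz, pow_succ', ← smul_smul, Finset.smul_sum]
      congr 1
      refine Finset.sum_congr rfl fun t _ => ?_
      rw [hY, smul_comm]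
    rw [h1, Nb_smul, abs_of_pos two_pos]
    linarith

/-- the iteration of averages must stop -/
lemma AvG_false {b n : ℕ} {y : ℕ → (ℕ →₀ ℝ)} {q p : ℕ → ℕ} (hsup : ∀ u, Sup (y u) (q u) (p u))
    (hlt : ∀ u v, u < v → p u < q v) (h1 : ∀ u, Nb b (y u) = 1) (h : ∀ s, AvG b (n + 1) s y q) : False := by
  obtain ⟨e, he, a, ha0, ha1, hadm, hN⟩ := h (w (n + 1) + 1) 0
  choose t ht1 ht2 using fun u => exists_lt_Nb (b := b) (x := y u) (c := 1 / 2) (by rw [h1]; norm_num)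
  have hrk : (n + 1) * (w (n + 1) + 1) ≤ rn (n + 1) := by
    rw [rn_succ]
    exact Nat.mul_le_mul (by omega) (by omega)
  obtain ⟨T, hT, -, -, hT3⟩ := merge (b := b) (j := n + 1) (Finset.Ico 0 e) (fun u => trF (q u) (p u) (t u)) q p
    (fun u _ => (ht1 u).trF _ _) (fun u _ e' he' => by
      obtain ⟨e'', _, _, _, h4⟩ := mem_trF he'
      exact h4) (fun u _ u' _ huu => hlt u u' huu) (hadm.rank hrk)
  have hw0 : (0 : ℝ) < w (n + 1) := by exact_mod_cast (by have := w_pos (n + 1); omega : 0 < w (n + 1))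
  have h2 := (le_Nb hT _).trans hN
  rw [hT3] at h2
  have h3 : ∀ u ∈ Finset.Ico 0 e, (2 : ℝ) ^ (w (n + 1) + 1) * (a u * (1 / 2)) ≤
      Phi (trF (q u) (p u) (t u)) ((2 : ℝ) ^ (w (n + 1) + 1) • ∑ u ∈ Finset.Ico 0 e, a u • y u) := by
    intro u hu
    rw [Phi_trF, res_smul, res_avg hsup hlt hu, Phi_smul, Phi_smul, abs_of_pos (by positivity),
      abs_of_nonneg (ha0 u)]
    gcongr
    · exact ha0 u
    · exact (ht2 u).le
  have h4 := Finset.sum_le_sum h3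
  rw [← Finset.mul_sum, ← Finset.sum_mul, ha1, one_mul] at h4
  rw [one_div, inv_mul_le_iff₀ hw0, mul_one] at h2
  have h5 := h4.trans h2
  have h6 : (w (n + 1) : ℝ) < 2 ^ w (n + 1) := by exact_mod_cast Nat.lt_two_pow_self
  rw [pow_succ] at h5
  linarith

theorem avg_vec (b n N0 : ℕ) (x : ℕ → (ℕ →₀ ℝ)) (hx : Suc x) :
    ∃ z ∈ Submodule.span ℝ (Set.range x), ∃ lo hi, N0 ≤ lo ∧ lo ≤ hi ∧ Sup z lo hi ∧ 1 / 2 ≤ Nb b z ∧
      (∀ m F, m ≤ n → Leg b m F → Phi F z ≤ 9) ∧ ∀ m F, m ≤ n → Leg 0 m F → Phi F z ≤ 9 * Gam b := by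
  by_contra hneg
  obtain ⟨φ, q, p, h1, h2, h3, h4⟩ := exists_base hx (fun r => (r + 1) ^ (n + 1) + 4 * (r + 1))
    (N0 + 1 + 2 * w n)
  have hpos : ∀ k, 0 < Nb b (x k) := by
    intro k
    obtain ⟨i, hi⟩ : (x k).support.Nonempty := Finsupp.support_nonempty_iff.2 (hx.1 k)
    exact (abs_pos.2 (Finsupp.mem_support_iff.1 hi)).trans_le (Nb_coord b (x k) i)
  have hgr1 : ∀ u, (p u + 1) ^ (n + 1) ≤ q (u + 1) := fun u => (Nat.le_add_right _ _).trans (h4 u)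
  have hgr2 : ∀ u, 4 * (p u + 1) ≤ q (u + 1) := fun u => (Nat.le_add_left _ _).trans (h4 u)
  have hqm : StrictMono q := strictMono_nat_of_lt_succ fun u => by
    have h1 := h2 u
    have h2 := hgr2 u
    omega
  have hlt : ∀ u v, u < v → p u < q v := fun u v huv => by
    have h5 := hgr2 u
    have h6 : q (u + 1) ≤ q v := hqm.monotone huv
    omega
  have hy1 : ∀ u, Nb b ((Nb b (x (φ u)))⁻¹ • x (φ u)) = 1 := fun u => by
    have := hpos (φ u)
    rw [Nb_smul, abs_of_pos (inv_pos.2 this), inv_mul_cancel₀ this.ne']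
  refine AvG_false (b := b) (n := n) (y := fun u => (Nb b (x (φ u)))⁻¹ • x (φ u)) (q := q) (p := p)
    (fun u => (h1 u).smul _) hlt hy1 fun s => ?_
  induction s with
  | zero => exact AvG_zero fun u => (hy1 u).le
  | succ s ih =>
    exact AvG_step (x := x) (fun u => Submodule.smul_mem _ _ (Submodule.subset_span ⟨_, rfl⟩))
      (fun u => (h1 u).smul _) h2 hgr1 hgr2 (N0 := N0) (by omega) (by omega) (by omega) hneg ih

/-! ### exact pairs -/

lemma wt_rat (κ : Kd) : ∃ r : ℚ, (r : ℝ) = 1 / κ.wt := by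
  cases κ with
  | E j => exact ⟨1 / (w j : ℚ), by simp [Kd.wt]⟩
  | C i => exact ⟨1 / ((R i : ℚ) * v i), by simp [Kd.wt]⟩
  | L i => exact ⟨1 / ((v i : ℚ) / kap i), by simp [Kd.wt]⟩
  | O i => exact ⟨1 / (v i : ℚ), by simp [Kd.wt]⟩

lemma cf_rat (u : List Let) : ∃ r : ℚ, (r : ℝ) = cf u := by
  induction u with
  | nil => exact ⟨1, by simp⟩
  | cons a u ih =>
    obtain ⟨r, hr⟩ := ih
    obtain ⟨r', hr'⟩ := wt_rat a.kd
    exact ⟨r' * r, by rw [cf_cons, ← hr, ← hr']; push_cast; ring⟩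

lemma val_rat (a : At) : ∃ g : ℕ →₀ ℚ, ∀ x, pr g x = a.val x := by
  cases a with
  | leaf k =>
    refine ⟨Finsupp.single k 1, fun x => ?_⟩
    unfold pr
    rw [Finsupp.sum_single_index (by simp), val_leaf]
    simp
  | pc p =>
    refine ⟨(1 / (v p.i : ℚ)) • resQ p.c p.d (sumf p.gs), fun x => ?_⟩
    rw [pr_smul, pr_resQ, val_pc]
    simp

/-- a rational functional below a form which is exact at a vector -/
lemma exists_func (T : List En) (y : ℕ →₀ ℝ) :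
    ∃ f : ℕ →₀ ℚ, (∀ x, |pr f x| ≤ Phi T x) ∧ pr f y = Phi T y := by
  induction T with
  | nil => exact ⟨0, fun x => by simp [pr_zero], by simp [pr_zero]⟩
  | cons e T ih =>
    obtain ⟨f, h1, h2⟩ := ih
    obtain ⟨r, hr⟩ := cf_rat (word e.p)
    obtain ⟨g, hg⟩ := val_rat e.a
    have hr' : (r : ℝ) = e.cf := hr
    have hcf := e.cf_pos
    rcases le_total 0 (e.a.val y) with h0 | h0
    · refine ⟨r • g + f, fun x => ?_, ?_⟩
      · rw [pr_add, pr_smul, hg, hr', Phi_cons]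
        refine (abs_add_le _ _).trans (add_le_add (le_of_eq ?_) (h1 x))
        rw [abs_mul, abs_of_pos hcf]
      · rw [pr_add, pr_smul, hg, hr', Phi_cons, h2, abs_of_nonneg h0]
    · refine ⟨(-r) • g + f, fun x => ?_, ?_⟩
      · rw [pr_add, pr_smul, hg, Phi_cons]
        push_cast
        rw [hr']
        refine (abs_add_le _ _).trans (add_le_add (le_of_eq ?_) (h1 x))
        rw [abs_mul, abs_neg, abs_of_pos hcf]
      · rw [pr_add, pr_smul, hg, Phi_cons, h2, abs_of_nonpos h0]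
        push_cast
        rw [hr']
        ring

lemma val_res {a : At} {l h : ℕ} (ha : a.In l h) (x : ℕ →₀ ℝ) : a.val (res l h x) = a.val x := by
  cases a with
  | leaf k =>
    have ha' : l ≤ k ∧ k ≤ h := ha
    rw [val_leaf, val_leaf, res_apply, if_pos ha']
  | pc p =>
    rw [val_pc, val_pc, res_res, max_eq_left ha.1, min_eq_left ha.2]

lemma Phi_res {T : List En} {l h : ℕ} (hT : ∀ e ∈ T, e.a.In l h) (x : ℕ →₀ ℝ) :
    Phi T (res l h x) = Phi T x := by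
  induction T with
  | nil => simp
  | cons e T ih =>
    rw [Phi_cons, Phi_cons, val_res (hT e List.mem_cons_self),
      ih fun e' he' => hT e' (List.mem_cons_of_mem _ he')]

lemma At.In.mono {a : At} {l h l' h' : ℕ} (ha : a.In l h) (h1 : l' ≤ l) (h2 : h ≤ h') : a.In l' h' := by
  cases a with
  | leaf k => exact ⟨h1.trans ha.1, ha.2.trans h2⟩
  | pc p => exact ⟨h1.trans ha.1, ha.2.trans h2⟩

lemma pr_single (f : ℕ →₀ ℚ) (k : ℕ) : pr f (Finsupp.single k 1) = f k := by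
  rw [pr_eq_sum' f _ {k} Finsupp.support_single_subset]
  simp

/-- the sequence of averaged vectors -/
lemma exists_ris (i j N0 : ℕ) (x : ℕ → (ℕ →₀ ℝ)) (hx : Suc x) :
    ∃ (z : ℕ → (ℕ →₀ ℝ)) (q p lam : ℕ → ℕ), (∀ u, z u ∈ Submodule.span ℝ (Set.range x)) ∧ N0 ≤ q 0 ∧
      (∀ u, q u ≤ p u) ∧ (∀ u, 4 * (p u + 1) ≤ q (u + 1)) ∧ (∀ u, 1 / 2 ≤ Nb (i + 1) (z u)) ∧
      RIS (i + 1) 9 (1 / (4 * (w j : ℝ) ^ 2)) (2 * rn j) z q p lam ∧
      RIS 0 (9 * Gam (i + 1)) (1 / (4 * (w j : ℝ) ^ 2)) (2 * rn j) z q p lam := by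
  choose Z hZs LO HI hLO hLH hSup hNb hB hB0 using fun n N : ℕ => avg_vec (i + 1) n N x hx
  let nx : ℕ × ℕ → ℕ × ℕ := fun t => (4 * (HI (2 * rn j + rho t.2) t.1 + 1),
    max (t.2 + 1) ⌈24 * (w j : ℝ) ^ 2 * l1 (Z (2 * rn j + rho t.2) t.1)⌉₊)
  obtain ⟨S, hS0, hS⟩ : ∃ S : ℕ → ℕ × ℕ, S 0 = (N0, 0) ∧ ∀ u, S (u + 1) = nx (S u) :=
    ⟨fun u => Nat.rec (N0, 0) (fun _ t => nx t) u, rfl, fun u => rfl⟩
  have hw0 : (0 : ℝ) < w j := by exact_mod_cast (by have := w_pos j; omega : 0 < w j)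
  have hS1 : ∀ u, (S (u + 1)).1 = 4 * (HI (2 * rn j + rho (S u).2) (S u).1 + 1) := fun u => by rw [hS]
  have hS2 : ∀ u, (S (u + 1)).2 = max ((S u).2 + 1)
      ⌈24 * (w j : ℝ) ^ 2 * l1 (Z (2 * rn j + rho (S u).2) (S u).1)⌉₊ := fun u => by rw [hS]
  have hgr : ∀ u, 4 * (HI (2 * rn j + rho (S u).2) (S u).1 + 1) ≤
      LO (2 * rn j + rho (S (u + 1)).2) (S (u + 1)).1 := fun u => by
    rw [← hS1]
    exact hLO _ _
  have hqm : StrictMono fun u => LO (2 * rn j + rho (S u).2) (S u).1 := strictMono_nat_of_lt_succ fun u => by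
    have h1 := hgr u
    have h2 := hLH (2 * rn j + rho (S u).2) (S u).1
    omega
  have hsep : ∀ u u', u < u' → HI (2 * rn j + rho (S u).2) (S u).1 <
      LO (2 * rn j + rho (S u').2) (S u').1 := fun u u' huu => by
    have h1 := hgr u
    have h2 : LO (2 * rn j + rho (S (u + 1)).2) (S (u + 1)).1 ≤ LO (2 * rn j + rho (S u').2) (S u').1 :=
      hqm.monotone huu
    omega
  have hlam : StrictMono fun u => (S u).2 := strictMono_nat_of_lt_succ fun u => by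
    rw [hS2]
    exact (Nat.lt_succ_self _).trans_le (le_max_left _ _)
  have htail : ∀ u, 3 / (om ((S (u + 1)).2) : ℝ) * (2 * l1 (Z (2 * rn j + rho (S u).2) (S u).1)) ≤
      1 / (4 * (w j : ℝ) ^ 2) := by
    intro u
    have h1 : (0 : ℝ) < om (S (u + 1)).2 := by
      exact_mod_cast (by have := om_pos (S (u + 1)).2; omega : 0 < om (S (u + 1)).2)
    have h2 : 24 * (w j : ℝ) ^ 2 * l1 (Z (2 * rn j + rho (S u).2) (S u).1) ≤ om (S (u + 1)).2 := by
      refine (Nat.le_ceil _).trans ?_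
      have h3 : ⌈24 * (w j : ℝ) ^ 2 * l1 (Z (2 * rn j + rho (S u).2) (S u).1)⌉₊ ≤ om (S (u + 1)).2 :=
        ((le_max_right _ _).trans (hS2 u).ge).trans (le_om _)
      exact_mod_cast h3
    rw [div_mul_eq_mul_div, div_le_div_iff₀ h1 (by positivity)]
    linarith
  refine ⟨fun u => Z (2 * rn j + rho (S u).2) (S u).1, fun u => LO (2 * rn j + rho (S u).2) (S u).1,
    fun u => HI (2 * rn j + rho (S u).2) (S u).1, fun u => (S u).2, fun u => hZs _ _, ?_,
    fun u => hLH _ _, hgr, fun u => hNb _ _, ⟨fun u => hSup _ _, hsep, ?_, htail, hlam⟩,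
    ⟨fun u => hSup _ _, hsep, ?_, htail, hlam⟩⟩
  · have h1 := hLO (2 * rn j + rho (S 0).2) (S 0).1
    have h2 : (S 0).1 = N0 := by rw [hS0]
    exact h2.ge.trans h1
  · exact fun u m F hm hF => hB _ _ m F hm hF
  · exact fun u m F hm hF => hB0 _ _ m F hm hF

theorem exact_pair (i j N0 : ℕ) (hij : i < j) (x : ℕ → (ℕ →₀ ℝ)) (hx : Suc x) :
    ∃ y ∈ Submodule.span ℝ (Set.range x), ∃ nd : Node, N0 ≤ nd.lo ∧ nd.lo ≤ nd.hi ∧ Sup y nd.lo nd.hi ∧
      NLg (i + 1) j nd ∧ pr nd.f y = 1 ∧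
      (∀ m F, m ≤ 3 * s (j - 1) → Leg (i + 1) m F → Phi F y ≤ 45) ∧
      (∀ m F, m ≤ 3 * s (j - 1) → Leg 0 m F → Phi F y ≤ 45 * Gam (i + 1)) ∧
      ∀ m F, m ≤ 3 * s (j - 1) → Leg 0 m F → (∀ e ∈ F, ∃ κ : Kd, e.kd = some κ ∧ κ.Hi (2 * j + 1)) →
        Phi F y ≤ 3 / w j := by
  obtain ⟨z, q, p, lam, hspan, hq0, hqp, hgr, hNb, hR1, hR0⟩ :=
    exists_ris i j (N0 + 1 + 72 * Gam (i + 1) * w j ^ 2) x hx
  have hw0 : (0 : ℝ) < w j := by exact_mod_cast (by have := w_pos j; omega : 0 < w j)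
  have hG1 : (1 : ℝ) ≤ Gam (i + 1) := by exact_mod_cast Gam_pos (i + 1)
  have hGj : (Gam (i + 1) : ℝ) ≤ Gam j := by exact_mod_cast Gam_mono (show i + 1 ≤ j from hij)
  have hrn : rn j = (s (j - 1) + (j - 1) + 2) * (w j + 8) := by
    obtain ⟨k, rfl⟩ : ∃ k, j = k + 1 := ⟨j - 1, by omega⟩
    rw [rn_succ, Nat.add_sub_cancel]
  have hrk : 3 * s (j - 1) + s (j - 1) * w j + 1 ≤ rn j := by
    rw [hrn]
    have h1 : (s (j - 1) + 1) * (w j + 8) ≤ (s (j - 1) + (j - 1) + 2) * (w j + 8) :=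
      Nat.mul_le_mul_right _ (by omega)
    have h2 : (s (j - 1) + 1) * (w j + 8) = s (j - 1) * w j + 8 * s (j - 1) + (w j + 8) := by ring
    omega
  have hrk1 : 1 ≤ rn j := by omega
  have hqm : StrictMono q := strictMono_nat_of_lt_succ fun u => by
    have h1 := hqp u
    have h2 := hgr u
    omega
  have hpm : StrictMono p := strictMono_nat_of_lt_succ fun u => by
    have h1 := hqp (u + 1)
    have h2 := hgr u
    omega
  obtain ⟨e, he, a, ha0, -, ha1, hadm, hsm⟩ := exists_avg q p hqp hgr (by omega) (rn j) 0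
  have hq0' : (72 : ℝ) * Gam (i + 1) * (w j : ℝ) ^ 2 ≤ q 0 := by
    exact_mod_cast (by omega : 72 * Gam (i + 1) * w j ^ 2 ≤ q 0)
  have hqpos : (0 : ℝ) < q 0 := by exact_mod_cast (by omega : 0 < q 0)
  have hsm' : ∀ Z ⊆ Finset.Ico 0 e, Adm (rn j - 1) Z p → ∑ u ∈ Z, a u ≤ 2 / (q 0 : ℝ) :=
    hsm (rn j - 1) (by omega)
  have hε0 : (0 : ℝ) ≤ 2 / (q 0 : ℝ) := by positivity
  have hε2 : 2 / (q 0 : ℝ) * (9 * Gam (i + 1)) * (w j : ℝ) ^ 2 ≤ 1 / 4 := by
    rw [div_mul_eq_mul_div, div_mul_eq_mul_div, div_le_div_iff₀ hqpos (by norm_num)]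
    linarith
  have hε1 : 2 / (q 0 : ℝ) * 9 * (w j : ℝ) ^ 2 ≤ 1 / 4 := by
    refine le_trans ?_ hε2
    have : (9 : ℝ) ≤ 9 * Gam (i + 1) := by linarith
    gcongr
  have hτ : 1 / (4 * (w j : ℝ) ^ 2) * (w j : ℝ) ^ 2 ≤ 1 / 4 := by
    rw [one_div, mul_inv, mul_assoc, inv_mul_cancel₀ (by positivity)]
    norm_num
  have hτ0 : (0 : ℝ) ≤ 1 / (4 * (w j : ℝ) ^ 2) := by positivity
  set y0 : ℕ →₀ ℝ := (w j : ℝ) • ∑ u ∈ Finset.Ico 0 e, a u • z u with hy0
  -- the tree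
  choose t ht1 ht2 using fun u => exists_lt_Nb (b := i + 1) (x := z u) (c := 1 / 3)
    (lt_of_lt_of_le (by norm_num) (hNb u))
  obtain ⟨T, hT, hT1, hT2, hT3⟩ := merge (b := i + 1) (j := j) (Finset.Ico 0 e)
    (fun u => trF (q u) (p u) (t u)) q p
    (fun u _ => (ht1 u).trF _ _) (fun u _ e' he' => by
      obtain ⟨e'', _, _, _, h4⟩ := mem_trF he'
      exact h4) (fun u _ u' _ huu => hR1.sep u u' huu) hadm
  have hTy : 1 / 3 ≤ Phi T y0 := by
    rw [hT3]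
    have h3 : ∀ u ∈ Finset.Ico 0 e, (w j : ℝ) * (a u * (1 / 3)) ≤ Phi (trF (q u) (p u) (t u)) y0 := by
      intro u hu
      rw [Phi_trF, hy0, res_smul, res_avg hR1.sup hR1.sep hu, Phi_smul, Phi_smul, abs_of_pos hw0,
        abs_of_nonneg (ha0 u)]
      gcongr
      · exact ha0 u
      · exact (ht2 u).le
    have h4 := Finset.sum_le_sum h3
    rw [← Finset.mul_sum, ← Finset.sum_mul, ha1, one_mul] at h4
    rw [one_div, one_div, le_inv_mul_iff₀ hw0]
    simpa using h4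
  have hTin : ∀ e' ∈ T, e'.a.In (q 0) (p (e - 1)) := by
    intro e' he'
    obtain ⟨u, hu, h1⟩ := hT2 e' he'
    rw [Finset.mem_Ico] at hu
    exact h1.mono (hqm.monotone (Nat.zero_le u)) (hpm.monotone (by omega))
  obtain ⟨f, hf1, hf2⟩ := exists_func T y0
  have hpos : 0 < Phi T y0 := lt_of_lt_of_le (by norm_num) hTy
  have hinv : (Phi T y0)⁻¹ ≤ 3 := by
    rw [inv_le_comm₀ hpos (by norm_num)]
    linarith
  have hscale : ∀ F, Phi F ((Phi T y0)⁻¹ • y0) ≤ 3 * Phi F y0 := fun F => by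
    rw [Phi_smul, abs_of_pos (inv_pos.2 hpos)]
    exact mul_le_mul_of_nonneg_right hinv (Phi_nonneg _ _)
  refine ⟨(Phi T y0)⁻¹ • y0, ?_, ⟨f, q 0, p (e - 1)⟩, ?_, ?_, ?_, ?_, ?_, ?_, ?_, ?_⟩
  · exact Submodule.smul_mem _ _ (Submodule.smul_mem _ _
      (Submodule.sum_mem _ fun u _ => Submodule.smul_mem _ _ (hspan u)))
  · change N0 ≤ q 0
    omega
  · exact (hqm.monotone (Nat.zero_le (e - 1))).trans (hqp _)
  · refine Sup.smul (Sup.smul (Sup.sum fun u hu => ?_) _) _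
    rw [Finset.mem_Ico] at hu
    exact (hR1.sup u).mono (hqm.monotone (Nat.zero_le u)) (hpm.monotone (by omega))
  · refine NLg_of T hT hT1 (fun k hk => ?_) hf1
    by_contra hcon
    have h1 := hf1 (Finsupp.single k 1)
    rw [pr_single, ← Phi_res hTin] at h1
    have h2 : res (q 0) (p (e - 1)) (Finsupp.single k 1) = 0 := by
      ext l
      rw [res_apply]
      split_ifs with hl
      · rw [Finsupp.single_apply, if_neg]
        · rfl
        · rintro rfl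
          exact hcon hl
      · rfl
    rw [h2, Phi_zero] at h1
    have h3 := abs_nonpos_iff.1 h1
    exact hk (by exact_mod_cast h3)
  · change pr f ((Phi T y0)⁻¹ • y0) = 1
    rw [pr_smul_right, hf2, inv_mul_cancel₀ hpos.ne']
  · intro m F hm hF
    refine (hscale F).trans ?_
    have h1 := P1 (j := j) (by omega) hR1 (by norm_num) (by linarith) (Finset.Ico 0 e) a
      (fun u _ => ha0 u) ha1.le hsm' hε0 hε1 hτ hτ0 hF (by omega)
    linarith
  · intro m F hm hF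
    refine (hscale F).trans ?_
    have h1 := P1 (j := j) (by omega) hR0 (by positivity) (by linarith) (Finset.Ico 0 e) a
      (fun u _ => ha0 u) ha1.le hsm' hε0 hε2 hτ hτ0 hF (by omega)
    linarith
  · intro m F hm hF hk
    refine (hscale F).trans ?_
    have h1 := P2 (j := j) hR0 (by positivity) (by linarith) (Finset.Ico 0 e) a
      (fun u _ => ha0 u) ha1.le hsm' hε0 hε2 hτ hF (by omega) hk
    rw [div_eq_mul_one_div 3]
    linarith

end Pool.Agent.Helper64.Hit
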