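import Pool.Agent.Helper64.Hit.Param

/-!
# Letters, paths, pieces, entries
-/

set_option autoImplicit false

namespace Pool.Agent.Helper64.Hit

/-- letters -/
inductive Let
  | E (j : ℕ)
  | C (i : ℕ)
  | L (i : ℕ)
  deriving DecidableEq

/-- symbols of paths -/
inductive Sym
  | nm (k : ℕ)
  | lt (a : Let)
  deriving DecidableEq

/-- members of special sequences -/
structure Node where
  f : ℕ →₀ ℚ
  lo : ℕ
  hi : ℕ

/-- special pieces -/
structure Pc where
  i : ℕ
  gs : List Node
  c : ℕ
  d : ℕ

/-- atoms -/
inductive At
  | leaf (k : ℕ)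
  | pc (p : Pc)

/-- entries of a forest -/
structure En where
  p : List Sym
  a : At

/-- kinds of roots -/
inductive Kd
  | E (j : ℕ)
  | C (i : ℕ)
  | L (i : ℕ)
  | O (i : ℕ)
  deriving DecidableEq

/-- kind of a letter -/
def Let.kd : Let → Kd
  | .E j => .E j
  | .C i => .C i
  | .L i => .L i

lemma Let.kd_inj {a b : Let} (h : a.kd = b.kd) : a = b := by
  cases a <;> cases b <;> simp_all [Let.kd]

/-- weights of kinds -/
noncomputable def Kd.wt : Kd → ℝ
  | .E j => w j
  | .C i => (R i : ℝ) * v i
  | .L i => (v i : ℝ) / kap i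
  | .O i => v i

/-- ranks of kinds -/
def Kd.rk : Kd → ℕ
  | .E j => rn j
  | .C i => s i
  | .L _ => 0
  | .O i => s i

/-- a kind is high with respect to a level -/
def Kd.Hi (T : ℕ) : Kd → Prop
  | .E j => T ≤ 2 * j
  | .C i => T ≤ 2 * i + 1
  | .L _ => False
  | .O i => T ≤ 2 * i + 1

instance (T : ℕ) : DecidablePred (Kd.Hi T) := fun k => by
  cases k <;> unfold Kd.Hi <;> infer_instance

lemma Kd.wt_pos (k : Kd) : 0 < k.wt := by
  have h1 : ∀ i, (0 : ℝ) < w i := fun i => by exact_mod_cast (by have := w_pos i; omega : 0 < w i)
  have h2 : ∀ i, (0 : ℝ) < v i := fun i => by exact_mod_cast (by have := v_pos i; omega : 0 < v i)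
  have h3 : ∀ i, (0 : ℝ) < R i := fun i => by exact_mod_cast (by have := R_pos i; omega : 0 < R i)
  have h4 : ∀ i, (0 : ℝ) < kap i := fun i => by exact_mod_cast (by have := kap_pos i; omega : 0 < kap i)
  cases k with
  | E j => exact h1 j
  | C i => exact mul_pos (h3 i) (h2 i)
  | L i => exact div_pos (h2 i) (h4 i)
  | O i => exact h2 i

/-- letters of a path -/
def word : List Sym → List Let
  | [] => []
  | .nm _ :: q => word q
  | .lt a :: q => a :: word q

@[simp] lemma word_nil : word [] = [] := rfl
@[simp] lemma word_nm (k : ℕ) (q : List Sym) : word (.nm k :: q) = word q := rfl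
@[simp] lemma word_lt (a : Let) (q : List Sym) : word (.lt a :: q) = a :: word q := rfl

@[simp] lemma word_append (p q : List Sym) : word (p ++ q) = word p ++ word q := by
  induction p with
  | nil => rfl
  | cons x p ih => cases x <;> simp [ih]

/-- numbers as symbols -/
def nms (A : List ℕ) : List Sym := A.map Sym.nm

@[simp] lemma nms_nil : nms [] = [] := rfl
@[simp] lemma nms_cons (k : ℕ) (A : List ℕ) : nms (k :: A) = .nm k :: nms A := rfl
@[simp] lemma nms_append (A B : List ℕ) : nms (A ++ B) = nms A ++ nms B := by simp [nms]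
@[simp] lemma word_nms (A : List ℕ) : word (nms A) = [] := by
  induction A with
  | nil => rfl
  | cons k A ih => simp [ih]

@[simp] lemma nm_mem_nms (k : ℕ) (A : List ℕ) : Sym.nm k ∈ nms A ↔ k ∈ A := by simp [nms]

/-- well formed paths -/
def WF : ℕ → List Sym → Prop
  | 0, [] => True
  | 0, .lt a :: q => WF a.kd.rk q
  | 0, .nm _ :: _ => False
  | _ + 1, [] => False
  | n + 1, .nm _ :: q => WF n q
  | _ + 1, .lt _ :: _ => False

@[simp] lemma WF_zero_nil : WF 0 [] = True := by rw [WF]
@[simp] lemma WF_zero_lt (a : Let) (q : List Sym) : WF 0 (.lt a :: q) = WF a.kd.rk q := by rw [WF]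
@[simp] lemma WF_zero_nm (k : ℕ) (q : List Sym) : WF 0 (.nm k :: q) = False := by rw [WF]
@[simp] lemma WF_succ_nil (n : ℕ) : WF (n + 1) [] = False := by rw [WF]
@[simp] lemma WF_succ_nm (n k : ℕ) (q : List Sym) : WF (n + 1) (.nm k :: q) = WF n q := by rw [WF]
@[simp] lemma WF_succ_lt (n : ℕ) (a : Let) (q : List Sym) : WF (n + 1) (.lt a :: q) = False := by rw [WF]

lemma WF_nms (A : List ℕ) (n : ℕ) (q : List Sym) (h : WF n q) : WF (A.length + n) (nms A ++ q) := by
  induction A with
  | nil => simpa using h
  | cons k A ih =>
    rw [List.length_cons, show A.length + 1 + n = (A.length + n) + 1 by ring]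
    simpa using ih

lemma WF_append {n : ℕ} {p q : List Sym} (hp : WF n p) (hq : WF 0 q) : WF n (p ++ q) := by
  induction p generalizing n with
  | nil =>
    cases n with
    | zero => simpa using hq
    | succ n => simp at hp
  | cons x p ih =>
    cases n with
    | zero =>
      cases x with
      | nm k => simp at hp
      | lt a =>
        simp only [List.cons_append, WF_zero_lt] at hp ⊢
        exact ih hp
    | succ n =>
      cases x with
      | nm k =>
        simp only [List.cons_append, WF_succ_nm] at hp ⊢
        exact ih hp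
      | lt a => simp at hp

/-- divergence -/
def Div (m m' : ℕ) : List Sym → List Sym → Prop
  | .nm k :: p, .nm k' :: p' => if k = k' then Div m m' p p' else k ≤ m' ∧ k' ≤ m
  | .lt a :: p, .lt a' :: p' => a = a' ∧ Div m m' p p'
  | _, _ => False

@[simp] lemma Div_nil_left (m m' : ℕ) (p : List Sym) : Div m m' [] p = False := by simp [Div]
@[simp] lemma Div_nil_right (m m' : ℕ) (p : List Sym) : Div m m' p [] = False := by
  cases p with
  | nil => simp [Div]
  | cons x p => cases x <;> simp [Div]

@[simp] lemma Div_nm_nm (m m' k k' : ℕ) (p p' : List Sym) :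
    Div m m' (.nm k :: p) (.nm k' :: p') = if k = k' then Div m m' p p' else k ≤ m' ∧ k' ≤ m := by
  rw [Div]

@[simp] lemma Div_lt_lt (m m' : ℕ) (a a' : Let) (p p' : List Sym) :
    Div m m' (.lt a :: p) (.lt a' :: p') = (a = a' ∧ Div m m' p p') := by
  rw [Div]

@[simp] lemma Div_nm_lt (m m' k : ℕ) (a' : Let) (p p' : List Sym) :
    Div m m' (.nm k :: p) (.lt a' :: p') = False := by simp [Div]

@[simp] lemma Div_lt_nm (m m' k' : ℕ) (a : Let) (p p' : List Sym) :
    Div m m' (.lt a :: p) (.nm k' :: p') = False := by simp [Div]

lemma Div.symm {m m' : ℕ} {p p' : List Sym} (h : Div m m' p p') : Div m' m p' p := by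
  induction p generalizing p' with
  | nil => simp at h
  | cons x p ih =>
    cases p' with
    | nil => simp at h
    | cons x' p' =>
      cases x <;> cases x' <;> simp only [Div_nm_nm, Div_lt_lt, Div_nm_lt, Div_lt_nm] at h ⊢
      · rename_i k k'
        by_cases hk : k = k'
        · rw [if_pos hk] at h
          rw [if_pos hk.symm]
          exact ih h
        · rw [if_neg hk] at h
          rw [if_neg (Ne.symm hk)]
          exact ⟨h.2, h.1⟩
      · exact ⟨h.1.symm, ih h.2⟩

lemma Div.mono {m m' n n' : ℕ} {p p' : List Sym} (h : Div m m' p p') (hm : m ≤ n) (hm' : m' ≤ n') :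
    Div n n' p p' := by
  induction p generalizing p' with
  | nil => simp at h
  | cons x p ih =>
    cases p' with
    | nil => simp at h
    | cons x' p' =>
      cases x <;> cases x' <;> simp only [Div_nm_nm, Div_lt_lt, Div_nm_lt, Div_lt_nm] at h ⊢
      · rename_i k k'
        by_cases hk : k = k'
        · rw [if_pos hk] at h ⊢
          exact ih h
        · rw [if_neg hk] at h ⊢
          exact ⟨h.1.trans hm', h.2.trans hm⟩
      · exact ⟨h.1, ih h.2⟩

lemma Div.append {m m' : ℕ} {p p' : List Sym} (h : Div m m' p p') (q q' : List Sym) :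
    Div m m' (p ++ q) (p' ++ q') := by
  induction p generalizing p' with
  | nil => simp at h
  | cons x p ih =>
    cases p' with
    | nil => simp at h
    | cons x' p' =>
      cases x <;> cases x' <;>
        simp only [Div_nm_nm, Div_lt_lt, Div_nm_lt, Div_lt_nm, List.cons_append] at h ⊢
      · rename_i k k'
        by_cases hk : k = k'
        · rw [if_pos hk] at h ⊢
          exact ih h
        · rw [if_neg hk] at h ⊢
          exact h
      · exact ⟨h.1, ih h.2⟩

@[simp] lemma Div_append_left (m m' : ℕ) (p q q' : List Sym) :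
    Div m m' (p ++ q) (p ++ q') ↔ Div m m' q q' := by
  induction p with
  | nil => simp
  | cons x p ih => cases x <;> simp [ih]

lemma Div.ne {m m' : ℕ} {p p' : List Sym} (h : Div m m' p p') : p ≠ p' := by
  rintro rfl
  have := (Div_append_left m m' p [] []).1 (by simpa using h)
  simp at this

/-- leading numbers -/
def adr : List Sym → List ℕ
  | .nm k :: q => k :: adr q
  | _ => []

/-- the rest -/
def rs : List Sym → List Sym
  | .nm _ :: q => rs q
  | q => q

@[simp] lemma adr_nil : adr [] = [] := rfl
@[simp] lemma adr_nm (k : ℕ) (q : List Sym) : adr (.nm k :: q) = k :: adr q := rfl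
@[simp] lemma adr_lt (a : Let) (q : List Sym) : adr (.lt a :: q) = [] := rfl
@[simp] lemma rs_nil : rs [] = [] := rfl
@[simp] lemma rs_nm (k : ℕ) (q : List Sym) : rs (.nm k :: q) = rs q := rfl
@[simp] lemma rs_lt (a : Let) (q : List Sym) : rs (.lt a :: q) = .lt a :: q := rfl

lemma adr_rs (p : List Sym) : nms (adr p) ++ rs p = p := by
  induction p with
  | nil => rfl
  | cons x p ih => cases x <;> simp [ih]

@[simp] lemma adr_nms_append (A : List ℕ) (p : List Sym) : adr (nms A ++ p) = A ++ adr p := by
  induction A with
  | nil => rfl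
  | cons k A ih => simp [ih]

@[simp] lemma rs_nms_append (A : List ℕ) (p : List Sym) : rs (nms A ++ p) = rs p := by
  induction A with
  | nil => rfl
  | cons k A ih => simp [ih]

lemma rs_cases (p : List Sym) : rs p = [] ∨ ∃ a q, rs p = .lt a :: q := by
  induction p with
  | nil => exact Or.inl rfl
  | cons x p ih => cases x with
    | nm k => simpa using ih
    | lt a => exact Or.inr ⟨a, p, rfl⟩

lemma word_rs (p : List Sym) : word (rs p) = word p := by
  conv_rhs => rw [← adr_rs p]
  simp

lemma WF.adr {n : ℕ} {p : List Sym} (h : WF n p) : (adr p).length = n := by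
  induction p generalizing n with
  | nil => cases n with
    | zero => rfl
    | succ n => simp at h
  | cons x p ih => cases x with
    | nm k => cases n with
      | zero => simp at h
      | succ n =>
        simp only [WF_succ_nm] at h
        simp [ih h]
    | lt a => cases n with
      | zero => rfl
      | succ n => simp at h

lemma WF.rs {n : ℕ} {p : List Sym} (h : WF n p) : WF 0 (rs p) := by
  induction p generalizing n with
  | nil => simp
  | cons x p ih => cases x with
    | nm k => cases n with
      | zero => simp at h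
      | succ n =>
        simp only [WF_succ_nm] at h
        simpa using ih h
    | lt a => cases n with
      | zero => simpa using h
      | succ n => simp at h

lemma WF_iff (n : ℕ) (p : List Sym) : WF n p ↔ (adr p).length = n ∧ WF 0 (rs p) := by
  constructor
  · exact fun h => ⟨h.adr, h.rs⟩
  · rintro ⟨h1, h2⟩
    rw [← adr_rs p]
    have := WF_nms (Hit.adr p) 0 _ h2
    rwa [Nat.add_zero, h1] at this

/-- the two ways of divergence -/
lemma Div_iff {m m' : ℕ} {p p' : List Sym} (hl : (adr p).length = (adr p').length) :
    Div m m' p p' ↔ (adr p = adr p' ∧ Div m m' (rs p) (rs p')) ∨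
      (adr p ≠ adr p' ∧ Div m m' (nms (adr p)) (nms (adr p'))) := by
  induction p generalizing p' with
  | nil =>
    have : adr p' = [] := by
      simpa using hl.symm
    simp [this]
  | cons x p ih => cases x with
    | nm k => cases p' with
      | nil => simp at hl
      | cons x' p' => cases x' with
        | lt a => simp at hl
        | nm k' =>
          simp only [adr_nm, List.length_cons, add_left_inj] at hl
          simp only [Div_nm_nm, adr_nm, rs_nm, nms_cons]
          by_cases hk : k = k'
          · subst hk
            rw [if_pos rfl, ih hl, if_pos rfl]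
            simp
          · rw [if_neg hk, if_neg hk]
            simp [hk]
    | lt a => cases p' with
      | nil => simp
      | cons x' p' => cases x' with
        | nm k' => simp at hl
        | lt a' => simp

end Pool.Agent.Helper64.Hit
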