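import Pool.Agent.Helper64.Hit.Trunc

/-!
# Substitution of forests
-/

set_option autoImplicit false

namespace Pool.Agent.Helper64.Hit

/-- prepend a path -/
def En.pre (p : List Sym) (e : En) : En := ⟨p ++ e.p, e.a⟩

@[simp] lemma En.pre_p (p : List Sym) (e : En) : (e.pre p).p = p ++ e.p := rfl
@[simp] lemma En.pre_a (p : List Sym) (e : En) : (e.pre p).a = e.a := rfl
@[simp] lemma En.pre_pos (p : List Sym) (e : En) : (e.pre p).pos = e.pos := rfl
lemma En.pre_cf (p : List Sym) (e : En) : (e.pre p).cf = Hit.cf (word p) * e.cf := by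
  unfold En.cf
  rw [En.pre_p, word_append, cf_append]

/-- substitution -/
def bind {α : Type} (F : List α) (π : α → List Sym) (G : α → List En) : List En :=
  F.flatMap fun a => (G a).map (En.pre (π a))

lemma mem_bind {α : Type} {F : List α} {π : α → List Sym} {G : α → List En} {e : En} :
    e ∈ bind F π G ↔ ∃ a ∈ F, ∃ e' ∈ G a, e = e'.pre (π a) := by
  unfold bind
  rw [List.mem_flatMap]
  constructor
  · rintro ⟨a, ha, h⟩
    rw [List.mem_map] at h
    obtain ⟨e', he', rfl⟩ := h
    exact ⟨a, ha, e', he', rfl⟩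
  · rintro ⟨a, ha, e', he', rfl⟩
    exact ⟨a, ha, List.mem_map.2 ⟨e', he', rfl⟩⟩

lemma Phi_map_pre (p : List Sym) (F : List En) (x : ℕ →₀ ℝ) :
    Phi (F.map (En.pre p)) x = cf (word p) * Phi F x := by
  induction F with
  | nil => simp
  | cons e F ih =>
    rw [List.map_cons, Phi_cons, Phi_cons, ih, En.pre_cf, En.pre_a]
    ring

lemma Phi_bind {α : Type} (F : List α) (π : α → List Sym) (G : α → List En) (x : ℕ →₀ ℝ) :
    Phi (bind F π G) x = (F.map fun a => cf (word (π a)) * Phi (G a) x).sum := by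
  unfold bind
  induction F with
  | nil => simp
  | cons a F ih =>
    rw [List.flatMap_cons, Phi_append, ih, Phi_map_pre, List.map_cons, List.sum_cons]

lemma Val_bind {α : Type} {F : List α} {π : α → List Sym} {G : α → List En} {Q : Pc → Prop} {b n : ℕ}
    (m : ℕ)
    (hG : ∀ a ∈ F, Val Q (ctx b (word (π a))) m (G a))
    (hwf : ∀ a ∈ F, ∀ q, WF m q → WF n (π a ++ q))
    (hself : ∀ a ∈ F, ∀ e ∈ G a, ∀ k, Sym.nm k ∈ π a → k ≤ e.pos)
    (hrc : ∀ a ∈ F, Rec b (word (π a)))
    (hdiv : F.Pairwise fun a a' => ∀ e ∈ G a, ∀ e' ∈ G a', Div e.pos e'.pos (π a) (π a')) :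
    Val Q b n (bind F π G) where
  wf e he := by
    obtain ⟨a, ha, e', he', rfl⟩ := mem_bind.1 he
    exact hwf a ha _ ((hG a ha).wf e' he')
  self e he k hk := by
    obtain ⟨a, ha, e', he', rfl⟩ := mem_bind.1 he
    rw [En.pre_p, List.mem_append] at hk
    rcases hk with hk | hk
    · exact hself a ha e' he' k hk
    · exact (hG a ha).self e' he' k hk
  rc e he := by
    obtain ⟨a, ha, e', he', rfl⟩ := mem_bind.1 he
    rw [En.pre_p, word_append, Rec_append]
    exact ⟨hrc a ha, (hG a ha).rc e' he'⟩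
  ok e he := by
    obtain ⟨a, ha, e', he', rfl⟩ := mem_bind.1 he
    rw [En.pre_p, word_append, ctx_append]
    exact (hG a ha).ok e' he'
  pcs e he := by
    obtain ⟨a, ha, e', he', rfl⟩ := mem_bind.1 he
    exact (hG a ha).pcs e' he'
  div := by
    unfold bind
    rw [List.pairwise_flatMap]
    refine ⟨fun a ha => ?_, hdiv.imp fun {a a'} h e he e' he' => ?_⟩
    · rw [List.pairwise_map]
      refine (hG a ha).div.imp fun {e e'} h => ?_
      simpa using h
    · rw [List.mem_map] at he he'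
      obtain ⟨e₁, he₁, rfl⟩ := he
      obtain ⟨e₂, he₂, rfl⟩ := he'
      exact (h e₁ he₁ e₂ he₂).append _ _

lemma TD_bind {α : Type} {F : List α} {π : α → List Sym} {G : α → List En}
    (hG : ∀ a ∈ F, TD (G a))
    (htd : F.Pairwise fun a a' => ∀ e ∈ G a, ∀ e' ∈ G a',
      word (π a) ++ word e.p = word (π a') ++ word e'.p → Cp e.a e'.a) :
    TD (bind F π G) := by
  unfold TD bind
  rw [List.pairwise_flatMap]
  refine ⟨fun a ha => ?_, htd.imp fun {a a'} h e he e' he' => ?_⟩
  · rw [List.pairwise_map]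
    refine (hG a ha).imp fun {e e'} h hw => ?_
    simp only [En.pre_p, word_append] at hw
    exact h (List.append_cancel_left hw)
  · rw [List.mem_map] at he he'
    obtain ⟨e₁, he₁, rfl⟩ := he
    obtain ⟨e₂, he₂, rfl⟩ := he'
    intro hw
    simp only [En.pre_p, word_append] at hw
    exact h e₁ he₁ e₂ he₂ hw

/-- replacing the paths one by one -/
lemma Val_map {F : List En} {φ : En → List Sym} {Q : Pc → Prop} {b b' n n' : ℕ} (h : Val Q b n F)
    (hwf : ∀ e ∈ F, WF n' (φ e))
    (hself : ∀ e ∈ F, ∀ k, Sym.nm k ∈ φ e → k ≤ e.pos)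
    (hrc : ∀ e ∈ F, Rec b' (word (φ e)))
    (hok : ∀ e ∈ F, e.a.Ok (ctx b' (word (φ e))))
    (hdiv : ∀ e ∈ F, ∀ e' ∈ F, Div e.pos e'.pos e.p e'.p → Div e.pos e'.pos (φ e) (φ e')) :
    Val Q b' n' (F.map fun e => ⟨φ e, e.a⟩) where
  wf e he := by
    obtain ⟨e', he', rfl⟩ := List.mem_map.1 he
    exact hwf e' he'
  self e he := by
    obtain ⟨e', he', rfl⟩ := List.mem_map.1 he
    exact hself e' he'
  rc e he := by
    obtain ⟨e', he', rfl⟩ := List.mem_map.1 he
    exact hrc e' he'
  ok e he := by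
    obtain ⟨e', he', rfl⟩ := List.mem_map.1 he
    exact hok e' he'
  pcs e he := by
    obtain ⟨e', he', rfl⟩ := List.mem_map.1 he
    exact h.pcs e' he'
  div := by
    rw [List.pairwise_map]
    refine h.div.imp_of_mem fun {e e'} he he' hd => ?_
    exact hdiv e he e' he' hd

lemma TD_map {F : List En} {φ : En → List Sym} (h : TD F)
    (hw : ∀ e ∈ F, ∀ e' ∈ F, word (φ e) = word (φ e') → word e.p = word e'.p) :
    TD (F.map fun e => ⟨φ e, e.a⟩) := by
  unfold TD
  rw [List.pairwise_map]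
  refine List.Pairwise.imp_of_mem (fun {e e'} he he' hd hww => ?_) h
  exact hd (hw e he e' he' hww)

lemma Phi_map {F : List En} {φ : En → List Sym} {c : ℝ} (x : ℕ →₀ ℝ)
    (h : ∀ e ∈ F, cf (word (φ e)) = c * e.cf) : Phi (F.map fun e => ⟨φ e, e.a⟩) x = c * Phi F x := by
  induction F with
  | nil => simp
  | cons e F ih =>
    rw [List.map_cons, Phi_cons, Phi_cons, ih fun e he => h e (List.mem_cons_of_mem _ he)]
    have := h e List.mem_cons_self
    unfold En.cf at this ⊢
    simp only
    rw [this]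
    ring

/-- every letter applied to a forest of its rank -/
lemma Leg_letter {b n : ℕ} {F : List En} {a : Let} (hn : n = a.kd.rk) (hrc : Rec b [a])
    (h : Leg (ctx b [a]) n F) : Leg b 0 (F.map (En.pre [.lt a])) := by
  have e1 : F.map (En.pre [.lt a]) = bind [()] (fun _ => [.lt a]) (fun _ => F) := by
    unfold bind
    simp
  rw [e1]
  constructor
  · refine Val_bind n ?_ ?_ ?_ ?_ ?_
    · intro _ _
      simpa using h.1
    · intro _ _ q hq
      rw [hn] at hq
      simpa using hq
    · intro _ _ e _ k hk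
      simp at hk
    · intro _ _
      simpa using hrc
    · simp
  · refine TD_bind ?_ ?_
    · intro _ _
      exact h.2
    · simp

end Pool.Agent.Helper64.Hit
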