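import Pool.Agent.Helper64.Hit.O

/-!
# Module C: conversion of contexts
-/

set_option autoImplicit false

namespace Pool.Agent.Helper64.Hit

/-! ### Words -/

/-- the context only grows along admissible words -/
lemma cv_le_ctx {b : ℕ} {u : List Let} (h : Rec b u) : b ≤ ctx b u := by
  induction u generalizing b with
  | nil => simp
  | cons a u ih =>
    cases a with
    | E j =>
      simp only [Rec_E] at h
      simpa using ih h
    | C i =>
      simp only [Rec_C] at h
      have := ih h
      simp only [ctx_C]
      omega
    | L i =>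
      simp only [Rec_L] at h
      have := ih h.2
      simp only [ctx_L]
      omega

/-- loose letters in an admissible word -/
lemma cv_L_mem {b i : ℕ} {u : List Let} (h : Rec b u) (hi : Let.L i ∈ u) : b ≤ i := by
  induction u generalizing b with
  | nil => simp at hi
  | cons a u ih =>
    cases a with
    | E j =>
      simp only [Rec_E] at h
      rw [List.mem_cons] at hi
      rcases hi with hi | hi
      · exact absurd hi (by simp)
      · exact ih h hi
    | C k =>
      simp only [Rec_C] at h
      rw [List.mem_cons] at hi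
      rcases hi with hi | hi
      · exact absurd hi (by simp)
      · have := ih h hi
        omega
    | L k =>
      simp only [Rec_L] at h
      rw [List.mem_cons] at hi
      rcases hi with hi | hi
      · rw [Let.L.injEq] at hi
        omega
      · have := ih h.2 hi
        omega

lemma cv_ctx_succ {b : ℕ} {u : List Let} (h : Rec b u) : ctx (b + 1) u = max (b + 1) (ctx b u) := by
  induction u generalizing b with
  | nil => simp
  | cons a u ih =>
    cases a with
    | E j =>
      simp only [Rec_E] at h
      simpa using ih h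
    | C i =>
      simp only [Rec_C] at h
      simp only [ctx_C]
      by_cases hi : i < b
      · have e1 : max b (i + 1) = b := by omega
        have e2 : max (b + 1) (i + 1) = b + 1 := by omega
        rw [e1] at h
        rw [e1, e2]
        exact ih h
      · have e1 : max b (i + 1) = i + 1 := by omega
        have e2 : max (b + 1) (i + 1) = i + 1 := by omega
        rw [e1] at h
        rw [e1, e2]
        have := cv_le_ctx h
        omega
    | L i =>
      simp only [Rec_L] at h
      simp only [ctx_L]
      have := cv_le_ctx h.2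
      omega

/-- without the letter `L b` the context may be raised -/
lemma cv_Rec_succ {b : ℕ} {u : List Let} (h : Rec b u) (hL : Let.L b ∉ u) : Rec (b + 1) u := by
  induction u with
  | nil => simp
  | cons a u ih =>
    rw [List.mem_cons, not_or] at hL
    cases a with
    | E j =>
      simp only [Rec_E] at h ⊢
      exact ih h hL.2
    | C i =>
      simp only [Rec_C] at h ⊢
      by_cases hi : i < b
      · have e1 : max b (i + 1) = b := by omega
        have e2 : max (b + 1) (i + 1) = b + 1 := by omega
        rw [e1] at h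
        rw [e2]
        exact ih h hL.2
      · have e1 : max b (i + 1) = i + 1 := by omega
        have e2 : max (b + 1) (i + 1) = i + 1 := by omega
        rw [e1] at h
        rw [e2]
        exact h
    | L i =>
      simp only [Rec_L] at h ⊢
      have h1 : b ≠ i := fun h => hL.1 (by rw [h])
      exact ⟨by omega, h.2⟩

/-- replace the first letter `L b` by `C b` -/
def wcv (b : ℕ) : List Let → List Let
  | [] => []
  | a :: u => if a = .L b then .C b :: u else a :: wcv b u

lemma wcv_nil (b : ℕ) : wcv b [] = [] := rfl
lemma wcv_cons (b : ℕ) (a : Let) (u : List Let) :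
    wcv b (a :: u) = if a = .L b then .C b :: u else a :: wcv b u := rfl

lemma wcv_of_notMem {b : ℕ} {u : List Let} (h : Let.L b ∉ u) : wcv b u = u := by
  induction u with
  | nil => rfl
  | cons a u ih =>
    rw [List.mem_cons, not_or] at h
    rw [wcv_cons, if_neg (Ne.symm h.1), ih h.2]

/-- splitting of words with `L b` -/
lemma cv_split {b : ℕ} {u : List Let} (h : Rec b u) (hL : Let.L b ∈ u) :
    ∃ p r, u = p ++ .L b :: r ∧ Let.L b ∉ p ∧ Let.C b ∉ p ∧ Rec b p ∧ ctx b p = b ∧ Rec (b + 1) r := by
  induction u with
  | nil => simp at hL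
  | cons a u ih =>
    rw [List.mem_cons] at hL
    cases a with
    | E j =>
      simp only [Rec_E] at h
      rcases hL with hL | hL
      · exact absurd hL (by simp)
      · obtain ⟨p, r, h1, h2, h3, h4, h5, h6⟩ := ih h hL
        exact ⟨.E j :: p, r, by rw [h1]; rfl, by simpa using h2, by simpa using h3, by simpa using h4,
          by simpa using h5, h6⟩
    | C i =>
      simp only [Rec_C] at h
      rcases hL with hL | hL
      · exact absurd hL (by simp)
      · have hi := cv_L_mem h hL
        have e1 : max b (i + 1) = b := by omega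
        rw [e1] at h
        obtain ⟨p, r, h1, h2, h3, h4, h5, h6⟩ := ih h hL
        refine ⟨.C i :: p, r, by rw [h1]; rfl, by simpa using h2, ?_, ?_, ?_, h6⟩
        · rw [List.mem_cons, not_or]
          refine ⟨fun h => ?_, h3⟩
          rw [Let.C.injEq] at h
          omega
        · rw [Rec_C, e1]; exact h4
        · rw [ctx_C, e1]; exact h5
    | L i =>
      simp only [Rec_L] at h
      by_cases hi : i = b
      · subst hi
        exact ⟨[], u, rfl, by simp, by simp, by simp, by simp, h.2⟩
      · rcases hL with hL | hL
        · rw [Let.L.injEq] at hL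
          exact absurd hL.symm hi
        · have := cv_L_mem h.2 hL
          omega

lemma wcv_split {b : ℕ} (p r : List Let) (hp : Let.L b ∉ p) : wcv b (p ++ .L b :: r) = p ++ .C b :: r := by
  induction p with
  | nil => rw [List.nil_append, wcv_cons, if_pos rfl]; rfl
  | cons a p ih =>
    rw [List.mem_cons, not_or] at hp
    rw [List.cons_append, wcv_cons, if_neg (Ne.symm hp.1), ih hp.2]
    rfl

/-- unique decomposition at the first occurrence of a letter -/
lemma cv_unique {α : Type} {x : α} {p p' r r' : List α} (hp : x ∉ p) (hp' : x ∉ p')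
    (h : p ++ x :: r = p' ++ x :: r') : p = p' ∧ r = r' := by
  induction p generalizing p' with
  | nil =>
    cases p' with
    | nil =>
      simp only [List.nil_append, List.cons.injEq, true_and] at h
      exact ⟨rfl, h⟩
    | cons y p' =>
      simp only [List.nil_append, List.cons_append, List.cons.injEq] at h
      exact absurd (h.1 ▸ List.mem_cons_self) hp'
  | cons y p ih =>
    cases p' with
    | nil =>
      simp only [List.nil_append, List.cons_append, List.cons.injEq] at h
      exact absurd (h.1 ▸ List.mem_cons_self) hp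
    | cons z p' =>
      simp only [List.cons_append, List.cons.injEq] at h
      rw [List.mem_cons, not_or] at hp hp'
      obtain ⟨h1, h2⟩ := ih hp.2 hp'.2 h.2
      exact ⟨by rw [h.1, h1], h2⟩

lemma wcv_inj {b : ℕ} {u u' : List Let} (h : Rec b u) (h' : Rec b u') (hL : Let.L b ∈ u) (hL' : Let.L b ∈ u')
    (he : wcv b u = wcv b u') : u = u' := by
  obtain ⟨p, r, h1, h2, h3, _⟩ := cv_split h hL
  obtain ⟨p', r', h1', h2', h3', _⟩ := cv_split h' hL'
  rw [h1, h1', wcv_split p r h2, wcv_split p' r' h2'] at he
  obtain ⟨h4, h5⟩ := cv_unique h3 h3' he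
  rw [h1, h1', h4, h5]

lemma wcv_Rec {b : ℕ} {u : List Let} (h : Rec b u) (hL : Let.L b ∈ u) : Rec (b + 1) (wcv b u) := by
  obtain ⟨p, r, h1, h2, h3, h4, h5, h6⟩ := cv_split h hL
  rw [h1, wcv_split p r h2, Rec_append]
  refine ⟨cv_Rec_succ h4 h2, ?_⟩
  rw [cv_ctx_succ h4, h5, Rec_C]
  have e1 : max (max (b + 1) b) (b + 1) = b + 1 := by omega
  rw [e1]
  exact h6

lemma wcv_ctx {b : ℕ} {u : List Let} (h : Rec b u) (hL : Let.L b ∈ u) : ctx (b + 1) (wcv b u) = ctx b u := by
  obtain ⟨p, r, h1, h2, h3, h4, h5, h6⟩ := cv_split h hL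
  rw [h1, wcv_split p r h2, ctx_append, ctx_append, cv_ctx_succ h4, h5, ctx_C, ctx_L]
  have e1 : max (max (b + 1) b) (b + 1) = b + 1 := by omega
  rw [e1]

lemma wcv_cf {b : ℕ} {u : List Let} (h : Rec b u) (hL : Let.L b ∈ u) :
    cf (wcv b u) = 1 / ((kap b : ℝ) * R b) * cf u := by
  obtain ⟨p, r, h1, h2, h3, h4, h5, h6⟩ := cv_split h hL
  rw [h1, wcv_split p r h2, cf_append, cf_append, cf_cons, cf_cons]
  have e1 : (0 : ℝ) < v b := by exact_mod_cast (by have := v_pos b; omega : 0 < v b)
  have e2 : (0 : ℝ) < R b := by exact_mod_cast (by have := R_pos b; omega : 0 < R b)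
  have e3 : (0 : ℝ) < kap b := by exact_mod_cast (by have := kap_pos b; omega : 0 < kap b)
  simp only [Let.kd, Kd.wt]
  field_simp

/-! ### Paths -/

/-- replace the first letter `L b` of a path -/
def cvp (b : ℕ) : List Sym → List Sym
  | [] => []
  | .nm k :: q => .nm k :: cvp b q
  | .lt a :: q => if a = .L b then .lt (.C b) :: (nms (List.replicate (s b) 0) ++ q) else .lt a :: cvp b q

lemma cvp_nil (b : ℕ) : cvp b [] = [] := rfl
lemma cvp_nm (b k : ℕ) (q : List Sym) : cvp b (.nm k :: q) = .nm k :: cvp b q := rfl
lemma cvp_lt (b : ℕ) (a : Let) (q : List Sym) : cvp b (.lt a :: q) =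
    if a = .L b then .lt (.C b) :: (nms (List.replicate (s b) 0) ++ q) else .lt a :: cvp b q := rfl

lemma word_cvp (b : ℕ) (p : List Sym) : word (cvp b p) = wcv b (word p) := by
  induction p with
  | nil => rfl
  | cons x p ih =>
    cases x with
    | nm k => rw [cvp_nm, word_nm, word_nm, ih]
    | lt a =>
      rw [cvp_lt, word_lt, wcv_cons]
      split_ifs with h
      · rw [word_lt, word_append, word_nms, List.nil_append]
      · rw [word_lt, ih]

lemma WF_cvp {b n : ℕ} {p : List Sym} (h : WF n p) : WF n (cvp b p) := by
  induction p generalizing n with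
  | nil => exact h
  | cons x p ih =>
    cases x with
    | nm k =>
      cases n with
      | zero => simp at h
      | succ n =>
        rw [cvp_nm, WF_succ_nm]
        rw [WF_succ_nm] at h
        exact ih h
    | lt a =>
      cases n with
      | zero =>
        rw [WF_zero_lt] at h
        rw [cvp_lt]
        split_ifs with ha
        · subst ha
          rw [WF_zero_lt]
          have h1 := WF_nms (List.replicate (s b) 0) 0 p (by simpa [Let.kd, Kd.rk] using h)
          simpa [Let.kd, Kd.rk] using h1
        · rw [WF_zero_lt]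
          exact ih h
      | succ n => simp at h

lemma mem_cvp {b k : ℕ} {p : List Sym} (h : Sym.nm k ∈ cvp b p) : Sym.nm k ∈ p ∨ k = 0 := by
  induction p with
  | nil => simp [cvp_nil] at h
  | cons x p ih =>
    cases x with
    | nm l =>
      rw [cvp_nm, List.mem_cons] at h
      rw [List.mem_cons]
      rcases h with h | h
      · exact Or.inl (Or.inl h)
      · rcases ih h with h | h
        · exact Or.inl (Or.inr h)
        · exact Or.inr h
    | lt a =>
      rw [cvp_lt] at h
      split_ifs at h with ha
      · rw [List.mem_cons, List.mem_append, nm_mem_nms] at h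
        rcases h with h | h | h
        · exact absurd h (by simp)
        · exact Or.inr (List.eq_of_mem_replicate h)
        · exact Or.inl (List.mem_cons_of_mem _ h)
      · rw [List.mem_cons] at h
        rcases h with h | h
        · exact absurd h (by simp)
        · rcases ih h with h | h
          · exact Or.inl (List.mem_cons_of_mem _ h)
          · exact Or.inr h

lemma Div_cvp {b m m' : ℕ} {p p' : List Sym} (h : Div m m' p p') : Div m m' (cvp b p) (cvp b p') := by
  induction p generalizing p' with
  | nil => simp at h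
  | cons x p ih =>
    cases p' with
    | nil => simp at h
    | cons x' p' =>
      cases x <;> cases x' <;> simp only [Div_nm_nm, Div_lt_lt, Div_nm_lt, Div_lt_nm] at h
      · rename_i k k'
        rw [cvp_nm, cvp_nm, Div_nm_nm]
        by_cases hk : k = k'
        · rw [if_pos hk] at h ⊢
          exact ih h
        · rw [if_neg hk] at h ⊢
          exact h
      · rename_i a a'
        obtain ⟨h1, h2⟩ := h
        subst h1
        rw [cvp_lt, cvp_lt]
        split_ifs with ha
        · rw [Div_lt_lt, Div_append_left]
          exact ⟨rfl, h2⟩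
        · rw [Div_lt_lt]
          exact ⟨rfl, ih h2⟩

/-! ### The three parts of a forest -/

/-- the atom is a piece of index `b` -/
def isPc (b : ℕ) (e : En) : Bool :=
  match e.a with
  | .pc p => decide (p.i = b)
  | .leaf _ => false

lemma isPc_true {b : ℕ} {e : En} (h : isPc b e = true) : ∃ p, e.a = .pc p ∧ p.i = b := by
  unfold isPc at h
  cases ha : e.a with
  | leaf k => rw [ha] at h; simp at h
  | pc p =>
    rw [ha] at h
    exact ⟨p, rfl, by simpa using h⟩

lemma isPc_false {b : ℕ} {e : En} (h : isPc b e = false) (p : Pc) (hp : e.a = .pc p) : p.i ≠ b := by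
  unfold isPc at h
  rw [hp] at h
  simpa using h

/-- the word contains `L b` -/
def hasL (b : ℕ) (e : En) : Bool := decide (Let.L b ∈ word e.p)

lemma Phi_filter (F : List En) (P : En → Bool) (x : ℕ →₀ ℝ) :
    Phi F x = Phi (F.filter P) x + Phi (F.filter fun e => !P e) x := by
  induction F with
  | nil => simp
  | cons e F ih =>
    rw [Phi_cons, ih]
    cases h : P e with
    | true =>
      rw [List.filter_cons_of_pos h, List.filter_cons_of_neg (by simp [h]), Phi_cons]
      ring
    | false =>
      rw [List.filter_cons_of_neg (by simp [h]), List.filter_cons_of_pos (by simp [h]), Phi_cons]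
      ring

/-- pieces of index `b` under context `b` -/
lemma cv_pc_ctx {b : ℕ} {F : List En} (h : Leg b 0 F) {e : En} (he : e ∈ F) {p : Pc} (hp : e.a = .pc p)
    (hi : p.i = b) : ctx b (word e.p) = b ∧ Let.C b ∉ word e.p ∧ Let.L b ∉ word e.p := by
  have h1 := h.1.rc e he
  have h2 := h.1.ok e he
  rw [hp] at h2
  have h3 : ctx b (word e.p) ≤ p.i := h2
  rw [hi] at h3
  have h4 := cv_le_ctx h1
  have key : ∀ (u : List Let), Rec b u → ctx b u = b → Let.C b ∉ u ∧ Let.L b ∉ u := by
    intro u
    induction u with
    | nil => intro _ _; simp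
    | cons a u ih =>
      intro hr hc
      cases a with
      | E j =>
        simp only [Rec_E] at hr
        simp only [ctx_E] at hc
        obtain ⟨h5, h6⟩ := ih hr hc
        exact ⟨by simpa using h5, by simpa using h6⟩
      | C i =>
        simp only [Rec_C] at hr
        simp only [ctx_C] at hc
        have h7 := cv_le_ctx hr
        have e1 : max b (i + 1) = b := by omega
        rw [e1] at hr hc
        obtain ⟨h5, h6⟩ := ih hr hc
        refine ⟨?_, by simpa using h6⟩
        rw [List.mem_cons, not_or]
        refine ⟨fun h => ?_, h5⟩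
        rw [Let.C.injEq] at h
        omega
      | L i =>
        simp only [Rec_L] at hr
        simp only [ctx_L] at hc
        have h7 := cv_le_ctx hr.2
        omega
  have h5 : ctx b (word e.p) = b := le_antisymm h3 h4
  exact ⟨h5, key _ h1 h5⟩

/-- first part -/
lemma cv_part1 {b : ℕ} {F : List En} (h : Leg b 0 F) (hF : ∀ e ∈ F, isPc b e = true) (x : ℕ →₀ ℝ) :
    Phi F x ≤ R b * Nb (b + 1) x := by
  have e1 : (0 : ℝ) < v b := by exact_mod_cast (by have := v_pos b; omega : 0 < v b)
  have e2 : (0 : ℝ) < R b := by exact_mod_cast (by have := R_pos b; omega : 0 < R b)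
  have key : ∀ e ∈ F, ∃ p, e.a = .pc p ∧ p.i = b ∧ PLg p ∧ ctx b (word e.p) = b ∧ Let.C b ∉ word e.p ∧
      e.pos = p.c := by
    intro e he
    obtain ⟨p, hp, hi⟩ := isPc_true (hF e he)
    have h1 := cv_pc_ctx h he hp hi
    exact ⟨p, hp, hi, h.1.pcs e he p hp, h1.1, h1.2.1, by unfold En.pos; rw [hp]; rfl⟩
  have hleg : Leg (b + 1) 0 (bind F (fun e => e.p ++ [.lt (.C b)]) (fun e => ndF e.a.thePc)) := by
    constructor
    · refine Val_bind (s b) ?_ ?_ ?_ ?_ ?_
      · intro e he
        obtain ⟨p, hp, hi, hpl, hc, hC, hpos⟩ := key e he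
        have h1 := (ndF_leg hpl).1
        rw [hi] at h1
        rw [hp, word_append, ctx_append, cv_ctx_succ (h.1.rc e he), hc, word_lt, word_nil, ctx_C, ctx_nil]
        have e3 : max (max (b + 1) b) (b + 1) = b + 1 := by omega
        rw [e3]
        exact h1
      · intro e he q hq
        rw [List.append_assoc]
        refine WF_append (h.1.wf e he) ?_
        rw [List.singleton_append, WF_zero_lt]
        exact hq
      · intro e he e' he' k hk
        obtain ⟨p, hp, hi, hpl, hc, hC, hpos⟩ := key e he
        rw [hp] at he'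
        have h2 : p.c ≤ e'.pos := ndF_pos he'
        have h3 : Sym.nm k ∈ e.p := by
          rw [List.mem_append] at hk
          rcases hk with hk | hk
          · exact hk
          · simp at hk
        have h4 := h.1.self e he k h3
        omega
      · intro e he
        obtain ⟨p, hp, hi, hpl, hc, hC, hpos⟩ := key e he
        have h1 := h.1.rc e he
        rw [word_append, Rec_append]
        refine ⟨cv_Rec_succ h1 (cv_pc_ctx h he hp hi).2.2, ?_⟩
        simp
      · refine List.Pairwise.imp_of_mem (fun {e₁ e₂} he₁ he₂ hd => ?_) h.1.div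
        obtain ⟨p, hp, hi, hpl, hc, hC, hpos⟩ := key e₁ he₁
        obtain ⟨p', hp', hi', hpl', hc', hC', hpos'⟩ := key e₂ he₂
        intro e he e' he'
        rw [hp] at he
        rw [hp'] at he'
        have h3 : p.c ≤ e.pos := ndF_pos he
        have h3' : p'.c ≤ e'.pos := ndF_pos he'
        exact (hd.mono (by omega) (by omega)).append _ _
    · refine TD_bind ?_ ?_
      · intro e he
        obtain ⟨p, hp, hi, hpl, hc, hC, hpos⟩ := key e he
        rw [hp]
        exact (ndF_leg hpl).2
      · refine List.Pairwise.imp_of_mem (fun {e₁ e₂} he₁ he₂ hd => ?_) h.2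
        obtain ⟨p, hp, hi, hpl, hc, hC, hpos⟩ := key e₁ he₁
        obtain ⟨p', hp', hi', hpl', hc', hC', hpos'⟩ := key e₂ he₂
        intro e he e' he' hww
        rw [hp] at he
        rw [hp'] at he'
        simp only [word_append, word_lt, word_nil, List.append_assoc, List.singleton_append] at hww
        obtain ⟨h4, h5⟩ := cv_unique hC hC' hww
        have hcp := hd h4
        rw [hp, hp'] at hcp
        exact ndF_cross hpl hpl' (hi.trans hi'.symm) hcp he he' h5
  have h2 := le_Nb hleg x
  have h3 : Phi F x ≤ R b * Phi (bind F (fun e => e.p ++ [.lt (.C b)]) (fun e => ndF e.a.thePc)) x := by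
    rw [Phi_bind]
    have key2 : ∀ e ∈ F, e.cf * |e.a.val x| ≤
        R b * (cf (word (e.p ++ [.lt (.C b)])) * Phi (ndF e.a.thePc) x) := by
      intro e he
      obtain ⟨p, hp, hi, ⟨H, hH⟩, hc, hC, hpos⟩ := key e he
      have h4 := pc_dom hH x
      rw [hi] at h4
      rw [hp, word_append, cf_append, word_lt, word_nil, cf_cons, cf_nil]
      have h5 : (R b : ℝ) * (cf (word e.p) * (1 / (Let.C b).kd.wt * 1) * Phi (ndF (At.pc p).thePc) x) =
          cf (word e.p) * (1 / (v b : ℝ) * Phi (ndF p) x) := by
        simp only [Let.kd, Kd.wt, At.thePc]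
        field_simp
      rw [h5]
      exact mul_le_mul_of_nonneg_left h4 (cf_pos _).le
    unfold Phi at key2 ⊢
    clear hleg h2 key hF h
    induction F with
    | nil => simp
    | cons e F ih =>
      simp only [List.map_cons, List.sum_cons]
      have h6 := key2 e List.mem_cons_self
      have h7 := ih fun e he => key2 e (List.mem_cons_of_mem _ he)
      rw [mul_add]
      linarith
  exact h3.trans (mul_le_mul_of_nonneg_left h2 e2.le)

/-- second part -/
lemma cv_part2 {b : ℕ} {F : List En} (h : Leg b 0 F) (hF : ∀ e ∈ F, Let.L b ∈ word e.p) (x : ℕ →₀ ℝ) :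
    Phi F x ≤ kap b * R b * Nb (b + 1) x := by
  have e2 : (0 : ℝ) < R b := by exact_mod_cast (by have := R_pos b; omega : 0 < R b)
  have e3 : (0 : ℝ) < kap b := by exact_mod_cast (by have := kap_pos b; omega : 0 < kap b)
  have hleg : Leg (b + 1) 0 (F.map fun e => ⟨cvp b e.p, e.a⟩) := by
    constructor
    · refine Val_map h.1 ?_ ?_ ?_ ?_ ?_
      · intro e he
        exact WF_cvp (h.1.wf e he)
      · intro e he k hk
        rcases mem_cvp hk with h1 | h1
        · exact h.1.self e he k h1
        · omega
      · intro e he
        rw [word_cvp]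
        exact wcv_Rec (h.1.rc e he) (hF e he)
      · intro e he
        rw [word_cvp, wcv_ctx (h.1.rc e he) (hF e he)]
        exact h.1.ok e he
      · intro e he e' he' hd
        exact Div_cvp hd
    · refine TD_map h.2 ?_
      intro e he e' he' hw
      rw [word_cvp, word_cvp] at hw
      exact wcv_inj (h.1.rc e he) (h.1.rc e' he') (hF e he) (hF e' he') hw
  have h2 := le_Nb hleg x
  rw [Phi_map (c := 1 / ((kap b : ℝ) * R b)) x] at h2
  · rw [one_div, inv_mul_le_iff₀ (by positivity)] at h2
    exact h2
  · intro e he
    rw [word_cvp]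
    exact wcv_cf (h.1.rc e he) (hF e he)

/-- third part -/
lemma cv_part3 {b : ℕ} {F : List En} (h : Leg b 0 F) (hF : ∀ e ∈ F, isPc b e = false)
    (hL : ∀ e ∈ F, Let.L b ∉ word e.p) (x : ℕ →₀ ℝ) : Phi F x ≤ Nb (b + 1) x := by
  refine le_Nb (b := b + 1) ⟨⟨h.1.wf, h.1.self, fun e he => cv_Rec_succ (h.1.rc e he) (hL e he), ?_,
    h.1.pcs, h.1.div⟩, h.2⟩ x
  intro e he
  have h1 := h.1.ok e he
  rw [cv_ctx_succ (h.1.rc e he)]
  cases ha : e.a with
  | leaf k => trivial
  | pc p =>
    rw [ha] at h1
    have h2 : ctx b (word e.p) ≤ p.i := h1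
    have h3 := isPc_false (hF e he) p ha
    have h4 := cv_le_ctx (h.1.rc e he)
    show max (b + 1) (ctx b (word e.p)) ≤ p.i
    omega

theorem conv_step (b : ℕ) (x : ℕ →₀ ℝ) : Nb b x ≤ 3 * kap b * R b * Nb (b + 1) x := by
  refine Nb_le fun F hF => ?_
  have e2 : (1 : ℝ) ≤ R b := by exact_mod_cast R_pos b
  have e3 : (32 : ℝ) ≤ kap b := by exact_mod_cast kap_pos b
  have hN := Nb_nonneg (b + 1) x
  rw [Phi_filter F (isPc b) x, Phi_filter (F.filter fun e => !isPc b e) (hasL b) x]
  have h1 := cv_part1 (hF.sub List.filter_sublist) (fun e he => (List.mem_filter.1 he).2) x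
    (F := F.filter (isPc b))
  have hF' := hF.sub (List.filter_sublist (p := fun e => !isPc b e))
  have h2 := cv_part2 (hF'.sub (List.filter_sublist (p := hasL b))) (fun e he => by
    have := (List.mem_filter.1 he).2
    unfold hasL at this
    simpa using this) x
  have h3 := cv_part3 (hF'.sub (List.filter_sublist (p := fun e => !hasL b e))) (fun e he => by
    have := (List.mem_filter.1 (List.mem_filter.1 he).1).2
    simpa using this) (fun e he => by
    have := (List.mem_filter.1 he).2
    unfold hasL at this
    simpa using this) x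
  have h4 : (1 : ℝ) + R b + kap b * R b ≤ 3 * kap b * R b := by nlinarith
  have h5 := mul_le_mul_of_nonneg_right h4 hN
  linarith

theorem conv (b : ℕ) (x : ℕ →₀ ℝ) : Nb 0 x ≤ Gam b * Nb b x := by
  induction b with
  | zero => rw [Gam_zero]; simp
  | succ b ih =>
    refine ih.trans ?_
    have h1 := conv_step b x
    have h2 : (0 : ℝ) ≤ Gam b := by positivity
    have h3 := mul_le_mul_of_nonneg_left h1 h2
    rw [Gam_succ]
    push_cast
    linarith

end Pool.Agent.Helper64.Hit
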