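import Pool.Agent.Helper64.Hit.Base

/-!
# Values, contexts, legitimate forests
-/

set_option autoImplicit false

namespace Pool.Agent.Helper64.Hit

/-- pairing of a rational functional with a vector -/
noncomputable def pr (f : ℕ →₀ ℚ) (x : ℕ →₀ ℝ) : ℝ := f.sum fun k q => (q : ℝ) * x k

lemma pr_zero (x : ℕ →₀ ℝ) : pr 0 x = 0 := Finsupp.sum_zero_index

lemma pr_add (f g : ℕ →₀ ℚ) (x : ℕ →₀ ℝ) : pr (f + g) x = pr f x + pr g x := by
  unfold pr
  refine Finsupp.sum_add_index' (fun k => by simp) (fun k a b => ?_)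
  push_cast
  ring

lemma pr_smul (q : ℚ) (f : ℕ →₀ ℚ) (x : ℕ →₀ ℝ) : pr (q • f) x = q * pr f x := by
  unfold pr
  rw [Finsupp.sum_smul_index' (fun k => by simp)]
  rw [Finsupp.sum, Finsupp.sum, Finset.mul_sum]
  refine Finset.sum_congr rfl fun k _ => ?_
  simp only [smul_eq_mul]
  push_cast
  ring

lemma pr_eq_sum (f : ℕ →₀ ℚ) (x : ℕ →₀ ℝ) (S : Finset ℕ) (hS : f.support ⊆ S) :
    pr f x = ∑ k ∈ S, (f k : ℝ) * x k := by
  unfold pr
  exact Finsupp.sum_of_support_subset _ hS _ (by simp)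

lemma pr_eq_sum' (f : ℕ →₀ ℚ) (x : ℕ →₀ ℝ) (S : Finset ℕ) (hS : x.support ⊆ S) :
    pr f x = ∑ k ∈ S, (f k : ℝ) * x k := by
  rw [pr_eq_sum f x (f.support ∪ S) Finset.subset_union_left]
  symm
  refine Finset.sum_subset Finset.subset_union_right fun k _ hk => ?_
  have : x k = 0 := by
    by_contra h
    exact hk (hS (by simpa using h))
  rw [this, mul_zero]

lemma pr_add_right (f : ℕ →₀ ℚ) (x y : ℕ →₀ ℝ) : pr f (x + y) = pr f x + pr f y := by
  rw [pr_eq_sum f _ f.support subset_rfl, pr_eq_sum f _ f.support subset_rfl,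
    pr_eq_sum f _ f.support subset_rfl, ← Finset.sum_add_distrib]
  refine Finset.sum_congr rfl fun k _ => ?_
  rw [Finsupp.add_apply, mul_add]

lemma pr_smul_right (f : ℕ →₀ ℚ) (a : ℝ) (x : ℕ →₀ ℝ) : pr f (a • x) = a * pr f x := by
  rw [pr_eq_sum f _ f.support subset_rfl, pr_eq_sum f _ f.support subset_rfl, Finset.mul_sum]
  refine Finset.sum_congr rfl fun k _ => ?_
  rw [Finsupp.smul_apply, smul_eq_mul]
  ring

lemma pr_zero_right (f : ℕ →₀ ℚ) : pr f 0 = 0 := by
  unfold pr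
  simp [Finsupp.sum]

/-- restriction of a vector to the interval `[a, b]` -/
noncomputable def res (a b : ℕ) (x : ℕ →₀ ℝ) : ℕ →₀ ℝ := x.filter (fun k => a ≤ k ∧ k ≤ b)

/-- restriction of a functional to the interval `[a, b]` -/
noncomputable def resQ (a b : ℕ) (f : ℕ →₀ ℚ) : ℕ →₀ ℚ := f.filter (fun k => a ≤ k ∧ k ≤ b)

lemma res_apply (a b : ℕ) (x : ℕ →₀ ℝ) (k : ℕ) : res a b x k = if a ≤ k ∧ k ≤ b then x k else 0 := by
  unfold res
  rw [Finsupp.filter_apply]

lemma resQ_apply (a b : ℕ) (x : ℕ →₀ ℚ) (k : ℕ) : resQ a b x k = if a ≤ k ∧ k ≤ b then x k else 0 := by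
  unfold resQ
  rw [Finsupp.filter_apply]

lemma pr_resQ (a b : ℕ) (f : ℕ →₀ ℚ) (x : ℕ →₀ ℝ) : pr (resQ a b f) x = pr f (res a b x) := by
  rw [pr_eq_sum' _ x x.support subset_rfl, pr_eq_sum' f _ x.support]
  · refine Finset.sum_congr rfl fun k _ => ?_
    rw [resQ_apply, res_apply]
    split_ifs <;> simp
  · intro k hk
    rw [Finsupp.mem_support_iff, res_apply] at hk
    rw [Finsupp.mem_support_iff]
    intro h
    rw [h] at hk
    simp at hk

/-- sum of the functionals of a list of nodes -/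
noncomputable def sumf (gs : List Node) : ℕ →₀ ℚ := (gs.map Node.f).sum

lemma pr_sumf (gs : List Node) (x : ℕ →₀ ℝ) : pr (sumf gs) x = (gs.map fun g => pr g.f x).sum := by
  unfold sumf
  induction gs with
  | nil => simp [pr_zero]
  | cons g gs ih => simp [pr_add, ih]

/-- value of an atom -/
noncomputable def At.val : At → (ℕ →₀ ℝ) → ℝ
  | .leaf k, x => x k
  | .pc p, x => (1 / (v p.i : ℝ)) * pr (sumf p.gs) (res p.c p.d x)

/-- position of an atom -/
def At.pos : At → ℕ
  | .leaf k => k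
  | .pc p => p.c

/-- the atom lives on the interval -/
def At.In (a b : ℕ) : At → Prop
  | .leaf k => a ≤ k ∧ k ≤ b
  | .pc p => a ≤ p.c ∧ p.d ≤ b

/-- compatibility of atoms at the same word -/
def Cp : At → At → Prop
  | .leaf k, .leaf k' => k ≠ k'
  | .pc p, .pc p' => p.i = p'.i → ∀ l (h : l < p.gs.length) (h' : l < p'.gs.length),
      p.gs.take l = p'.gs.take l → ∀ k,
        ¬ (p.gs[l].lo ≤ k ∧ k ≤ p.gs[l].hi ∧ p.c ≤ k ∧ k ≤ p.d ∧
          p'.gs[l].lo ≤ k ∧ k ≤ p'.gs[l].hi ∧ p'.c ≤ k ∧ k ≤ p'.d)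
  | _, _ => True

lemma Cp.symm {a b : At} (h : Cp a b) : Cp b a := by
  cases a with
  | leaf k => cases b with
    | leaf k' => exact Ne.symm h
    | pc p' => trivial
  | pc p => cases b with
    | leaf k' => trivial
    | pc p' =>
      intro hi l h1 h2 he k hk
      exact h hi.symm l h2 h1 he.symm k (by tauto)

/-- atoms in disjoint intervals are compatible -/
lemma Cp.of_disj {a b : At} {l₁ u₁ l₂ u₂ : ℕ} (ha : a.In l₁ u₁) (hb : b.In l₂ u₂)
    (h : ∀ k, ¬ (l₁ ≤ k ∧ k ≤ u₁ ∧ l₂ ≤ k ∧ k ≤ u₂)) : Cp a b := by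
  cases a with
  | leaf k => cases b with
    | leaf k' =>
      rintro rfl
      exact h k ⟨ha.1, ha.2, hb.1, hb.2⟩
    | pc p' => trivial
  | pc p => cases b with
    | leaf k' => trivial
    | pc p' =>
      intro _ l h1 h2 _ k hk
      have e1 := ha.1
      have e2 := ha.2
      have e3 := hb.1
      have e4 := hb.2
      exact h k ⟨by omega, by omega, by omega, by omega⟩

/-- the context after a word -/
def ctx : ℕ → List Let → ℕ
  | b, [] => b
  | b, .E _ :: u => ctx b u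
  | b, .C i :: u => ctx (max b (i + 1)) u
  | _, .L i :: u => ctx (i + 1) u

/-- the index rule for words -/
def Rec : ℕ → List Let → Prop
  | _, [] => True
  | b, .E _ :: u => Rec b u
  | b, .C i :: u => Rec (max b (i + 1)) u
  | b, .L i :: u => b ≤ i ∧ Rec (i + 1) u

@[simp] lemma ctx_nil (b : ℕ) : ctx b [] = b := by rw [ctx]
@[simp] lemma ctx_E (b j : ℕ) (u : List Let) : ctx b (.E j :: u) = ctx b u := by rw [ctx]
@[simp] lemma ctx_C (b i : ℕ) (u : List Let) : ctx b (.C i :: u) = ctx (max b (i + 1)) u := by rw [ctx]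
@[simp] lemma ctx_L (b i : ℕ) (u : List Let) : ctx b (.L i :: u) = ctx (i + 1) u := by rw [ctx]
@[simp] lemma Rec_nil (b : ℕ) : Rec b [] = True := by rw [Rec]
@[simp] lemma Rec_E (b j : ℕ) (u : List Let) : Rec b (.E j :: u) = Rec b u := by rw [Rec]
@[simp] lemma Rec_C (b i : ℕ) (u : List Let) : Rec b (.C i :: u) = Rec (max b (i + 1)) u := by rw [Rec]
@[simp] lemma Rec_L (b i : ℕ) (u : List Let) : Rec b (.L i :: u) = (b ≤ i ∧ Rec (i + 1) u) := by rw [Rec]

@[simp] lemma ctx_append (b : ℕ) (u u' : List Let) : ctx b (u ++ u') = ctx (ctx b u) u' := by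
  induction u generalizing b with
  | nil => simp
  | cons a u ih => cases a <;> simp [ih]

@[simp] lemma Rec_append (b : ℕ) (u u' : List Let) : Rec b (u ++ u') ↔ Rec b u ∧ Rec (ctx b u) u' := by
  induction u generalizing b with
  | nil => simp
  | cons a u ih => cases a <;> simp [ih, and_assoc]

/-- compatibility of an atom with the context -/
def At.Ok (b : ℕ) : At → Prop
  | .leaf _ => True
  | .pc p => b ≤ p.i

lemma At.Ok.mono {b b' : ℕ} {a : At} (h : a.Ok b') (hb : b ≤ b') : a.Ok b := by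
  cases a with
  | leaf k => trivial
  | pc p => exact le_trans hb h

lemma ctx_mono {b b' : ℕ} (h : b ≤ b') (u : List Let) : ctx b u ≤ ctx b' u := by
  induction u generalizing b b' with
  | nil => simpa using h
  | cons a u ih => cases a with
    | E j => simpa using ih h
    | C i => simpa using ih (max_le_max_right _ h)
    | L i => simp

lemma Rec_mono {b b' : ℕ} (h : b ≤ b') {u : List Let} (hu : Rec b' u) : Rec b u := by
  induction u generalizing b b' with
  | nil => simp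
  | cons a u ih => cases a with
    | E j => simp at hu ⊢; exact ih h hu
    | C i => simp only [Rec_C] at hu ⊢; exact ih (max_le_max_right _ h) hu
    | L i => simp only [Rec_L] at hu ⊢; exact ⟨h.trans hu.1, hu.2⟩

/-- coefficient of a word -/
noncomputable def cf (u : List Let) : ℝ := (u.map fun a => 1 / a.kd.wt).prod

@[simp] lemma cf_nil : cf [] = 1 := by simp [cf]
@[simp] lemma cf_cons (a : Let) (u : List Let) : cf (a :: u) = 1 / a.kd.wt * cf u := by simp [cf]
@[simp] lemma cf_append (u u' : List Let) : cf (u ++ u') = cf u * cf u' := by simp [cf]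

lemma cf_pos (u : List Let) : 0 < cf u := by
  induction u with
  | nil => simp
  | cons a u ih =>
    rw [cf_cons]
    exact mul_pos (one_div_pos.2 a.kd.wt_pos) ih

/-- coefficient of an entry -/
noncomputable def En.cf (e : En) : ℝ := Hit.cf (word e.p)

/-- position of an entry -/
def En.pos (e : En) : ℕ := e.a.pos

lemma En.cf_pos (e : En) : 0 < e.cf := Hit.cf_pos _

/-- the L1-form of a list of entries -/
noncomputable def Phi (F : List En) (x : ℕ →₀ ℝ) : ℝ := (F.map fun e => e.cf * |e.a.val x|).sum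

@[simp] lemma Phi_nil (x : ℕ →₀ ℝ) : Phi [] x = 0 := by simp [Phi]
@[simp] lemma Phi_cons (e : En) (F : List En) (x : ℕ →₀ ℝ) : Phi (e :: F) x = e.cf * |e.a.val x| + Phi F x := by
  simp [Phi]
@[simp] lemma Phi_append (F G : List En) (x : ℕ →₀ ℝ) : Phi (F ++ G) x = Phi F x + Phi G x := by
  simp [Phi]

/-- structural validity -/
structure Val (Q : Pc → Prop) (b n : ℕ) (F : List En) : Prop where
  wf : ∀ e ∈ F, WF n e.p
  self : ∀ e ∈ F, ∀ k, Sym.nm k ∈ e.p → k ≤ e.pos
  rc : ∀ e ∈ F, Rec b (word e.p)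
  ok : ∀ e ∈ F, e.a.Ok (ctx b (word e.p))
  pcs : ∀ e ∈ F, ∀ p, e.a = .pc p → Q p
  div : F.Pairwise fun e e' => Div e.pos e'.pos e.p e'.p

/-- tree-disjointness -/
def TD (F : List En) : Prop := F.Pairwise fun e e' => word e.p = word e'.p → Cp e.a e'.a

instance : Countable Node := by
  have : Function.Injective (fun n : Node => (n.f, n.lo, n.hi)) := by
    intro a b h
    cases a; cases b
    simp only [Prod.mk.injEq] at h
    obtain ⟨h1, h2, h3⟩ := h
    subst h1; subst h2; subst h3; rfl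
  exact this.countable

/-- coding of special sequences -/
noncomputable def code : List Node → ℕ := (exists_injective_nat (List Node)).choose

lemma code_inj : Function.Injective code := (exists_injective_nat (List Node)).choose_spec

/-- the letter following a special sequence -/
noncomputable def sg (i : ℕ) (gs : List Node) : ℕ := i + 1 + code gs

lemma sg_inj {i : ℕ} {gs gs' : List Node} (h : sg i gs = sg i gs') : gs = gs' := by
  unfold sg at h
  exact code_inj (by omega)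

lemma lt_sg (i : ℕ) (gs : List Node) : i < sg i gs := by unfold sg; omega

/-- Schreier admissibility of a family of positions -/
def AdmWith (n : ℕ) (I : Finset ℕ) (m : ℕ → ℕ) (A : ℕ → List ℕ) : Prop :=
  (∀ i ∈ I, (A i).length = n) ∧ (∀ i ∈ I, ∀ k ∈ A i, k ≤ m i) ∧
    ∀ i ∈ I, ∀ j ∈ I, i ≠ j → Div (m i) (m j) (nms (A i)) (nms (A j))

/-- Schreier admissibility of a family of positions -/
def Adm (n : ℕ) (I : Finset ℕ) (m : ℕ → ℕ) : Prop := ∃ A : ℕ → List ℕ, AdmWith n I m A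

/-- successive nodes -/
def Succ (gs : List Node) : Prop := (∀ g ∈ gs, g.lo ≤ g.hi) ∧ gs.Pairwise fun g g' => g.hi < g'.lo

/-- validity of a piece -/
def PV (Q : ℕ → ℕ → Node → Prop) (p : Pc) : Prop :=
  Succ p.gs ∧ Adm (s p.i) (Finset.range p.gs.length) (fun l => (p.gs.map Node.lo).getD l 0) ∧
    ∀ l (h : l < p.gs.length), Q (p.i + 1) (sg p.i (p.gs.take l)) p.gs[l]

/-- legitimate nodes of height at most `h` -/
def LegN : ℕ → ℕ → ℕ → Node → Prop
  | 0, _, _, _ => False
  | h + 1, b, j, nd => ∃ t : List En, Val (PV (LegN h)) b 0 t ∧ TD t ∧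
      (∀ e ∈ t, ∃ q, e.p = .lt (.E j) :: q) ∧ (∀ k, nd.f k ≠ 0 → nd.lo ≤ k ∧ k ≤ nd.hi) ∧
      ∀ x, |pr nd.f x| ≤ Phi t x

/-- pieces of height at most `h` -/
def PL (h : ℕ) (p : Pc) : Prop := PV (LegN h) p

lemma LegN_zero (b j : ℕ) (nd : Node) : ¬ LegN 0 b j nd := by rw [LegN]; exact id

lemma LegN_succ (h b j : ℕ) (nd : Node) : LegN (h + 1) b j nd ↔ ∃ t : List En, Val (PL h) b 0 t ∧ TD t ∧
      (∀ e ∈ t, ∃ q, e.p = .lt (.E j) :: q) ∧ (∀ k, nd.f k ≠ 0 → nd.lo ≤ k ∧ k ≤ nd.hi) ∧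
      ∀ x, |pr nd.f x| ≤ Phi t x := by
  rw [LegN]; rfl

lemma Val.imp {Q Q' : Pc → Prop} {b n : ℕ} {F : List En} (h : Val Q b n F) (hQ : ∀ p, Q p → Q' p) :
    Val Q' b n F := ⟨h.wf, h.self, h.rc, h.ok, fun e he p hp => hQ p (h.pcs e he p hp), h.div⟩

lemma Val.imp_mem {Q Q' : Pc → Prop} {b n : ℕ} {F : List En} (h : Val Q b n F)
    (hQ : ∀ e ∈ F, ∀ p, e.a = .pc p → Q p → Q' p) :
    Val Q' b n F := ⟨h.wf, h.self, h.rc, h.ok, fun e he p hp => hQ e he p hp (h.pcs e he p hp), h.div⟩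

lemma Val.mono {Q : Pc → Prop} {b b' n : ℕ} {F : List En} (h : Val Q b' n F) (hb : b ≤ b') :
    Val Q b n F :=
  ⟨h.wf, h.self, fun e he => Rec_mono hb (h.rc e he), fun e he => (h.ok e he).mono (ctx_mono hb _),
    h.pcs, h.div⟩

lemma PV.imp {Q Q' : ℕ → ℕ → Node → Prop} {p : Pc} (h : PV Q p) (hQ : ∀ b j nd, Q b j nd → Q' b j nd) :
    PV Q' p := ⟨h.1, h.2.1, fun l hl => hQ _ _ _ (h.2.2 l hl)⟩

lemma LegN_mono_succ (h : ℕ) : ∀ b j nd, LegN h b j nd → LegN (h + 1) b j nd := by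
  induction h with
  | zero => intro b j nd hn; exact absurd hn (LegN_zero _ _ _)
  | succ h ih =>
    intro b j nd hn
    rw [LegN_succ] at hn ⊢
    obtain ⟨t, h1, h2⟩ := hn
    exact ⟨t, h1.imp fun p hp => hp.imp ih, h2⟩

lemma LegN_mono {h h' : ℕ} (hh : h ≤ h') {b j : ℕ} {nd : Node} (hn : LegN h b j nd) : LegN h' b j nd := by
  induction h', hh using Nat.le_induction with
  | base => exact hn
  | succ h' _ ih => exact LegN_mono_succ _ _ _ _ ih

lemma PL_mono {h h' : ℕ} (hh : h ≤ h') {p : Pc} (hp : PL h p) : PL h' p :=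
  hp.imp fun _ _ _ => LegN_mono hh

/-- legitimate pieces -/
def PLg (p : Pc) : Prop := ∃ h, PL h p

/-- legitimate nodes -/
def NLg (b j : ℕ) (nd : Node) : Prop := ∃ h, LegN h b j nd

/-- legitimate forests with context `b` and rank `n` -/
def Leg (b n : ℕ) (F : List En) : Prop := Val PLg b n F ∧ TD F

lemma Leg.mono {b b' n : ℕ} {F : List En} (h : Leg b' n F) (hb : b ≤ b') : Leg b n F :=
  ⟨h.1.mono hb, h.2⟩

/-- finitely many pieces have a common height -/
lemma exists_height {b n : ℕ} {F : List En} (h : Val PLg b n F) : ∃ H, Val (PL H) b n F := by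
  have : ∀ G : List En, (∀ e ∈ G, ∀ p, e.a = .pc p → PLg p) → ∃ H, ∀ e ∈ G, ∀ p, e.a = .pc p → PL H p := by
    intro G
    induction G with
    | nil => intro _; exact ⟨0, by simp⟩
    | cons e G ih =>
      intro hG
      obtain ⟨H, hH⟩ := ih fun e' he' => hG e' (List.mem_cons_of_mem _ he')
      obtain ⟨H', hH'⟩ : ∃ H', ∀ p, e.a = .pc p → PL H' p := by
        cases ha : e.a with
        | leaf k => exact ⟨0, by simp⟩
        | pc p =>
          obtain ⟨H', hp⟩ := hG e List.mem_cons_self p ha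
          refine ⟨H', fun p' hp' => ?_⟩
          obtain rfl : p = p' := by simpa using hp'
          exact hp
      refine ⟨max H H', fun e' he' p hp => ?_⟩
      rcases List.mem_cons.1 he' with rfl | he'
      · exact PL_mono (le_max_right _ _) (hH' p hp)
      · exact PL_mono (le_max_left _ _) (hH e' he' p hp)
  obtain ⟨H, hH⟩ := this F h.pcs
  exact ⟨H, h.wf, h.self, h.rc, h.ok, hH, h.div⟩

/-- nodes of common height make a piece of that height -/
lemma PLg_of {p : Pc} (h1 : Succ p.gs)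
    (h2 : Adm (s p.i) (Finset.range p.gs.length) (fun l => (p.gs.map Node.lo).getD l 0))
    (h3 : ∀ l (h : l < p.gs.length), NLg (p.i + 1) (sg p.i (p.gs.take l)) p.gs[l]) : PLg p := by
  choose! H hH using h3
  refine ⟨(Finset.range p.gs.length).sup H, h1, h2, fun l hl => ?_⟩
  exact LegN_mono (Finset.le_sup (f := H) (Finset.mem_range.2 hl)) (hH l hl)

lemma NLg_of {b j : ℕ} {nd : Node} (t : List En) (h1 : Leg b 0 t)
    (h2 : ∀ e ∈ t, ∃ q, e.p = .lt (.E j) :: q) (h3 : ∀ k, nd.f k ≠ 0 → nd.lo ≤ k ∧ k ≤ nd.hi)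
    (h4 : ∀ x, |pr nd.f x| ≤ Phi t x) : NLg b j nd := by
  obtain ⟨H, hH⟩ := exists_height h1.1
  exact ⟨H + 1, (LegN_succ _ _ _ _).2 ⟨t, hH, h1.2, h2, h3, h4⟩⟩

end Pool.Agent.Helper64.Hit
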