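import Pool.Agent.Helper64.Hit.A

/-!
# Dependent sequences
-/

set_option autoImplicit false

namespace Pool.Agent.Helper64.Hit

lemma Adm.inj {n : ℕ} {I J : Finset ℕ} {m m' : ℕ → ℕ} (h : Adm n I m) (g : ℕ → ℕ)
    (hg : ∀ j ∈ J, g j ∈ I) (hinj : Set.InjOn g J) (hm : ∀ j ∈ J, m (g j) ≤ m' j) : Adm n J m' := by
  obtain ⟨A, h1, h2, h3⟩ := h
  refine ⟨fun j => A (g j), fun j hj => h1 _ (hg j hj), fun j hj k hk => (h2 _ (hg j hj) k hk).trans (hm j hj), ?_⟩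
  intro j hj j' hj' hne
  have : g j ≠ g j' := fun h => hne (hinj hj hj' h)
  exact (h3 _ (hg j hj) _ (hg j' hj') this).mono (hm j hj) (hm j' hj')

/-- the first `l` nodes -/
def pre (G : ℕ → Node) (l : ℕ) : List Node := (List.range l).map G

lemma pre_succ (G : ℕ → Node) (l : ℕ) : pre G (l + 1) = pre G l ++ [G l] := by
  unfold pre
  rw [List.range_succ, List.map_append]
  rfl

lemma pre_length (G : ℕ → Node) (l : ℕ) : (pre G l).length = l := by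
  unfold pre
  simp

lemma pre_take (G : ℕ → Node) {l l' : ℕ} (h : l ≤ l') : (pre G l').take l = pre G l := by
  unfold pre
  rw [← List.map_take, List.take_range, min_eq_left h]

lemma pre_getElem (G : ℕ → Node) (l k : ℕ) (h : k < (pre G l).length) : (pre G l)[k] = G k := by
  unfold pre
  simp

/-- dependent sequences -/
structure Dep (i : ℕ) (G : ℕ → Node) (y : ℕ → (ℕ →₀ ℝ)) : Prop where
  le : ∀ l, (G l).lo ≤ (G l).hi
  gr : ∀ l, 4 * ((G l).hi + 1) ≤ (G (l + 1)).lo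
  sup : ∀ l, Sup (y l) (G l).lo (G l).hi
  leg : ∀ l, NLg (i + 1) (sg i (pre G l)) (G l)
  one : ∀ l, pr (G l).f (y l) = 1
  e1 : ∀ l m F, m ≤ 3 * s (sg i (pre G l) - 1) → Leg (i + 1) m F → Phi F (y l) ≤ 45
  e2 : ∀ l m F, m ≤ 3 * s (sg i (pre G l) - 1) → Leg 0 m F → Phi F (y l) ≤ 45 * Gam (i + 1)
  e3 : ∀ l m F, m ≤ 3 * s (sg i (pre G l) - 1) → Leg 0 m F →
    (∀ e ∈ F, ∃ κ : Kd, e.kd = some κ ∧ κ.Hi (2 * sg i (pre G l) + 1)) → Phi F (y l) ≤ 3 / w (sg i (pre G l))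

open Classical in
/-- existence of dependent sequences -/
theorem exists_dep (i N0 : ℕ) (x z : ℕ → (ℕ →₀ ℝ)) (hx : Suc x) (hz : Suc z) :
    ∃ (G : ℕ → Node) (y : ℕ → (ℕ →₀ ℝ)), Dep i G y ∧ N0 ≤ (G 0).lo ∧
      (∀ l, l % 2 = 0 → y l ∈ Submodule.span ℝ (Set.range x)) ∧
      ∀ l, l % 2 = 1 → y l ∈ Submodule.span ℝ (Set.range z) := by
  -- one step
  have step : ∀ (P : List Node) (N : ℕ), ∃ (r : Node × (ℕ →₀ ℝ)), N ≤ r.1.lo ∧ r.1.lo ≤ r.1.hi ∧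
      Sup r.2 r.1.lo r.1.hi ∧ NLg (i + 1) (sg i P) r.1 ∧ pr r.1.f r.2 = 1 ∧
      (∀ m F, m ≤ 3 * s (sg i P - 1) → Leg (i + 1) m F → Phi F r.2 ≤ 45) ∧
      (∀ m F, m ≤ 3 * s (sg i P - 1) → Leg 0 m F → Phi F r.2 ≤ 45 * Gam (i + 1)) ∧
      (∀ m F, m ≤ 3 * s (sg i P - 1) → Leg 0 m F →
        (∀ e ∈ F, ∃ κ : Kd, e.kd = some κ ∧ κ.Hi (2 * sg i P + 1)) → Phi F r.2 ≤ 3 / w (sg i P)) ∧
      (P.length % 2 = 0 → r.2 ∈ Submodule.span ℝ (Set.range x)) ∧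
      (P.length % 2 = 1 → r.2 ∈ Submodule.span ℝ (Set.range z)) := by
    intro P N
    by_cases hP : P.length % 2 = 0
    · obtain ⟨y, hy, nd, h1, h2, h3, h4, h5, h6, h7, h8⟩ := exact_pair i (sg i P) N (lt_sg i P) x hx
      exact ⟨(nd, y), h1, h2, h3, h4, h5, h6, h7, h8, fun _ => hy, fun h => by omega⟩
    · obtain ⟨y, hy, nd, h1, h2, h3, h4, h5, h6, h7, h8⟩ := exact_pair i (sg i P) N (lt_sg i P) z hz
      exact ⟨(nd, y), h1, h2, h3, h4, h5, h6, h7, h8, fun h => by omega, fun _ => hy⟩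
  choose f hf using step
  -- iteration
  let S : ℕ → List Node × ℕ := fun l => Nat.rec ([], N0)
    (fun _ r => (r.1 ++ [(f r.1 r.2).1], 4 * ((f r.1 r.2).1.hi + 1))) l
  have hS : ∀ l, S (l + 1) = ((S l).1 ++ [(f (S l).1 (S l).2).1], 4 * ((f (S l).1 (S l).2).1.hi + 1)) :=
    fun l => rfl
  let G : ℕ → Node := fun l => (f (S l).1 (S l).2).1
  let y : ℕ → (ℕ →₀ ℝ) := fun l => (f (S l).1 (S l).2).2
  have hG : ∀ l, (S l).1 = pre G l := by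
    intro l
    induction l with
    | zero => rfl
    | succ l ih =>
      rw [hS, pre_succ, ← ih]
  have hlen : ∀ l, (S l).1.length = l := fun l => by rw [hG, pre_length]
  refine ⟨G, y, ⟨?_, ?_, ?_, ?_, ?_, ?_, ?_, ?_⟩, ?_, ?_, ?_⟩
  · exact fun l => (hf _ _).2.1
  · intro l
    have h1 := (hf (S (l + 1)).1 (S (l + 1)).2).1
    have h2 : (S (l + 1)).2 = 4 * ((G l).hi + 1) := by rw [hS]
    rw [h2] at h1
    exact h1
  · exact fun l => (hf _ _).2.2.1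
  · intro l
    rw [← hG]
    exact (hf _ _).2.2.2.1
  · exact fun l => (hf _ _).2.2.2.2.1
  · intro l m F
    rw [← hG]
    exact (hf _ _).2.2.2.2.2.1 m F
  · intro l m F
    rw [← hG]
    exact (hf _ _).2.2.2.2.2.2.1 m F
  · intro l m F
    rw [← hG]
    exact (hf _ _).2.2.2.2.2.2.2.1 m F
  · exact (hf _ _).1
  · intro l hl
    exact (hf _ _).2.2.2.2.2.2.2.2.1 (by rw [hlen]; exact hl)
  · intro l hl
    exact (hf _ _).2.2.2.2.2.2.2.2.2 (by rw [hlen]; exact hl)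

end Pool.Agent.Helper64.Hit
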