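import Pool.Agent.Helper64.Hit.DerDefs

/-!
# Kinds of roots, derived forests
-/

set_option autoImplicit false

namespace Pool.Agent.Helper64.Hit

lemma kd_of_word {e : En} {a : Let} {u : List Let} (h : word e.p = a :: u) : e.kd = some a.kd := by
  unfold En.kd
  rw [h]

lemma kd_of_nil {e : En} (h : word e.p = []) : e.kd = match e.a with
    | .pc p => some (.O p.i)
    | .leaf _ => none := by
  unfold En.kd
  rw [h]
  rfl

lemma pw_forall {α : Type} {Q : α → α → Prop} (hs : ∀ a b, Q a b → Q b a) {l : List α} (h : l.Pairwise Q)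
    {a b : α} (ha : a ∈ l) (hb : b ∈ l) (hne : a ≠ b) : Q a b := by
  induction l with
  | nil => simp at ha
  | cons c l ih =>
    rw [List.pairwise_cons] at h
    rcases List.mem_cons.1 ha with rfl | ha'
    · rcases List.mem_cons.1 hb with rfl | hb'
      · exact absurd rfl hne
      · exact h.1 b hb'
    · rcases List.mem_cons.1 hb with rfl | hb'
      · exact hs _ _ (h.1 a ha')
      · exact ih h.2 ha' hb'

lemma Val.dv {Q : Pc → Prop} {b n : ℕ} {F : List En} (h : Val Q b n F) {e e' : En} (he : e ∈ F) (he' : e' ∈ F)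
    (hne : e ≠ e') : Div e.pos e'.pos e.p e'.p :=
  pw_forall (fun _ _ h => h.symm) h.div he he' hne

lemma TD.cp {F : List En} (h : TD F) {e e' : En} (he : e ∈ F) (he' : e' ∈ F) (hne : e ≠ e')
    (hw : word e.p = word e'.p) : Cp e.a e'.a :=
  pw_forall (Q := fun e e' : En => word e.p = word e'.p → Cp e.a e'.a)
    (fun _ _ h hw => (h hw.symm).symm) h he he' hne hw

lemma kd_none {e : En} (h : e.kd = none) : word e.p = [] ∧ ∃ k, e.a = .leaf k := by
  cases hw : word e.p with
  | cons a u => rw [kd_of_word hw] at h; simp at h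
  | nil =>
    refine ⟨rfl, ?_⟩
    rw [kd_of_nil hw] at h
    cases ha : e.a with
    | leaf k => exact ⟨k, rfl⟩
    | pc p => rw [ha] at h; simp at h

lemma kd_O {e : En} {i : ℕ} (h : e.kd = some (.O i)) : word e.p = [] ∧ ∃ p, e.a = .pc p ∧ p.i = i := by
  cases hw : word e.p with
  | cons a u =>
    rw [kd_of_word hw] at h
    cases a <;> simp [Let.kd] at h
  | nil =>
    refine ⟨rfl, ?_⟩
    rw [kd_of_nil hw] at h
    cases ha : e.a with
    | leaf k => rw [ha] at h; simp at h
    | pc p =>
      rw [ha] at h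
      simp only [Option.some.injEq, Kd.O.injEq] at h
      exact ⟨p, rfl, h⟩

lemma kd_letter {e : En} {a : Let} (h : e.kd = some a.kd) : ∃ u, word e.p = a :: u := by
  cases hw : word e.p with
  | cons a' u =>
    rw [kd_of_word hw] at h
    simp only [Option.some.injEq] at h
    rw [Let.kd_inj h]
    exact ⟨u, rfl⟩
  | nil =>
    rw [kd_of_nil hw] at h
    cases ha : e.a with
    | leaf k => rw [ha] at h; simp at h
    | pc p => rw [ha] at h; cases a <;> simp [Let.kd] at h

lemma rs_of_word {p : List Sym} {a : Let} {u : List Let} (h : word p = a :: u) :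
    ∃ q, rs p = .lt a :: q ∧ word q = u := by
  have h1 := word_rs p
  rw [h] at h1
  rcases rs_cases p with h2 | ⟨a', q, h2⟩
  · rw [h2] at h1; simp at h1
  · rw [h2] at h1
    simp only [word_lt, List.cons.injEq] at h1
    refine ⟨q, ?_, h1.2⟩
    rw [h2, h1.1]

lemma rs_of_nil {p : List Sym} (h : word p = []) : rs p = [] := by
  have h1 := word_rs p
  rcases rs_cases p with h2 | ⟨a', q, h2⟩
  · exact h2
  · rw [h2, h] at h1; simp at h1

lemma mem_part {κ : Kd} {F : List En} {e : En} : e ∈ part κ F ↔ e ∈ F ∧ e.kd = some κ := by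
  unfold part
  rw [List.mem_filter]
  simp

lemma mem_lvs {F : List En} {e : En} : e ∈ lvs F ↔ e ∈ F ∧ e.kd = none := by
  unfold lvs
  rw [List.mem_filter]
  simp

lemma part_sub (κ : Kd) (F : List En) : (part κ F).Sublist F := List.filter_sublist

lemma lvs_sub (F : List En) : (lvs F).Sublist F := List.filter_sublist

lemma mem_kinds {F : List En} {κ : Kd} : κ ∈ kinds F ↔ ∃ e ∈ F, e.kd = some κ := by
  unfold kinds
  rw [List.mem_toFinset, List.mem_filterMap]

/-- splitting over kinds -/
lemma Phi_split' (F : List En) (S : Finset Kd) (hS : kinds F ⊆ S) (x : ℕ →₀ ℝ) :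
    Phi F x = Phi (lvs F) x + ∑ κ ∈ S, Phi (part κ F) x := by
  induction F with
  | nil => simp [lvs, part]
  | cons e F ih =>
    have hS' : kinds F ⊆ S := fun κ hκ => hS (by
      rw [mem_kinds] at hκ ⊢
      obtain ⟨e', he', h⟩ := hκ
      exact ⟨e', List.mem_cons_of_mem _ he', h⟩)
    rw [Phi_cons, ih hS']
    cases h : e.kd with
    | none =>
      have h1 : lvs (e :: F) = e :: lvs F := by
        unfold lvs
        rw [List.filter_cons_of_pos (by simp [h])]
      have h2 : ∀ κ, part κ (e :: F) = part κ F := by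
        intro κ
        unfold part
        rw [List.filter_cons_of_neg (by simp [h])]
      rw [h1, Phi_cons]
      simp only [h2]
      ring
    | some κ₀ =>
      have h1 : lvs (e :: F) = lvs F := by
        unfold lvs
        rw [List.filter_cons_of_neg (by simp [h])]
      have h2 : ∀ κ, Phi (part κ (e :: F)) x = (if κ = κ₀ then e.cf * |e.a.val x| else 0) + Phi (part κ F) x := by
        intro κ
        unfold part
        by_cases hκ : κ = κ₀
        · subst hκ
          rw [List.filter_cons_of_pos (by simp [h]), if_pos rfl, Phi_cons]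
        · rw [List.filter_cons_of_neg (by simp [h, Ne.symm hκ]), if_neg hκ, zero_add]
      have h3 : κ₀ ∈ S := hS (mem_kinds.2 ⟨e, List.mem_cons_self, h⟩)
      rw [h1]
      simp only [h2]
      rw [Finset.sum_add_distrib, Finset.sum_ite_eq' S κ₀, if_pos h3]
      ring

lemma Phi_split (F : List En) (x : ℕ →₀ ℝ) :
    Phi F x = Phi (lvs F) x + ∑ κ ∈ kinds F, Phi (part κ F) x := Phi_split' F _ subset_rfl x

/-- the letter case of the derived forest -/
lemma der_letter (a : Let) (F : List En) :
    der a.kd F = (part a.kd F).map fun e => ⟨nms (adr e.p) ++ (rs e.p).tail, e.a⟩ := by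
  cases a <;> rfl

lemma kctx_letter (b : ℕ) (a : Let) (h : Rec b [a]) : kctx b a.kd = ctx b [a] := by
  cases a with
  | E j => simp [kctx, Let.kd]
  | C i => simp [kctx, Let.kd]
  | L i =>
    simp only [Rec_L] at h
    simp only [kctx, Let.kd, ctx_L, ctx_nil]
    omega

/-- derived forests at letters -/
lemma der_leg_letter {b n : ℕ} {F : List En} (h : Leg b n F) (a : Let) :
    Leg (kctx b a.kd) (n + a.kd.rk) (der a.kd F) := by
  rw [der_letter]
  have hsub := part_sub a.kd F
  have h1 := h.sub hsub
  -- description of the entries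
  have key : ∀ e ∈ part a.kd F, ∃ q, rs e.p = .lt a :: q ∧ word e.p = a :: word q ∧
      e.p = nms (adr e.p) ++ .lt a :: q := by
    intro e he
    obtain ⟨u, hu⟩ := kd_letter (mem_part.1 he).2
    obtain ⟨q, hq, hq'⟩ := rs_of_word hu
    refine ⟨q, hq, by rw [hu, hq'], ?_⟩
    conv_lhs => rw [← adr_rs e.p]
    rw [hq]
  have hrec : ∀ e ∈ part a.kd F, Rec b [a] := by
    intro e he
    obtain ⟨q, hq, hw, _⟩ := key e he
    have := h1.1.rc e he
    rw [hw, ← List.singleton_append, Rec_append] at this
    exact this.1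
  constructor
  · refine Val_map h1.1 ?_ ?_ ?_ ?_ ?_
    · intro e he
      obtain ⟨q, hq, hw, hp⟩ := key e he
      rw [hq, List.tail_cons]
      have h2 := h1.1.wf e he
      have h3 : WF a.kd.rk q := by
        have := h2.rs
        rw [hq] at this
        simpa using this
      have h4 := WF_nms (adr e.p) a.kd.rk q h3
      rwa [h2.adr] at h4
    · intro e he k hk
      obtain ⟨q, hq, hw, hp⟩ := key e he
      rw [hq, List.tail_cons, List.mem_append] at hk
      refine h1.1.self e he k ?_
      rw [hp, List.mem_append]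
      rcases hk with hk | hk
      · exact Or.inl hk
      · exact Or.inr (List.mem_cons_of_mem _ hk)
    · intro e he
      obtain ⟨q, hq, hw, hp⟩ := key e he
      rw [hq, List.tail_cons, word_append, word_nms, List.nil_append, kctx_letter b a (hrec e he)]
      have := h1.1.rc e he
      rw [hw, ← List.singleton_append, Rec_append] at this
      exact this.2
    · intro e he
      obtain ⟨q, hq, hw, hp⟩ := key e he
      rw [hq, List.tail_cons, word_append, word_nms, List.nil_append, kctx_letter b a (hrec e he)]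
      have := h1.1.ok e he
      rwa [hw, ← List.singleton_append, ctx_append] at this
    · intro e he e' he' hd
      obtain ⟨q, hq, hw, hp⟩ := key e he
      obtain ⟨q', hq', hw', hp'⟩ := key e' he'
      rw [hq, hq', List.tail_cons, List.tail_cons]
      have hl : (adr e.p).length = (adr e'.p).length := by
        rw [(h1.1.wf e he).adr, (h1.1.wf e' he').adr]
      rw [Div_iff hl] at hd
      rcases hd with ⟨h2, h3⟩ | ⟨h2, h3⟩
      · rw [h2, Div_append_left]
        rw [hq, hq', Div_lt_lt] at h3
        exact h3.2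
      · exact h3.append _ _
  · refine TD_map h1.2 ?_
    intro e he e' he' hw
    obtain ⟨q, hq, hw1, hp⟩ := key e he
    obtain ⟨q', hq', hw2, hp'⟩ := key e' he'
    rw [hq, hq', List.tail_cons, List.tail_cons] at hw
    simp only [word_append, word_nms, List.nil_append] at hw
    rw [hw1, hw2, hw]

lemma Phi_part_letter (a : Let) (F : List En) (x : ℕ →₀ ℝ) :
    Phi (part a.kd F) x = 1 / a.kd.wt * Phi (der a.kd F) x := by
  rw [der_letter, Phi_map (c := a.kd.wt)]
  · have := a.kd.wt_pos
    field_simp
  · intro e he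
    obtain ⟨u, hu⟩ := kd_letter (mem_part.1 he).2
    obtain ⟨q, hq, hq'⟩ := rs_of_word hu
    rw [hq, List.tail_cons, word_append, word_nms, List.nil_append]
    unfold En.cf
    rw [hu, cf_cons, hq']
    have := a.kd.wt_pos
    field_simp

/-- derived forests at pieces -/
lemma der_leg_O {b n : ℕ} {F : List En} (h : Leg b n F) (i : ℕ) :
    Leg (kctx b (.O i)) (n + s i) (der (.O i) F) := by
  have h1 := h.sub (part_sub (.O i) F)
  have key : ∀ e ∈ part (.O i) F, ∃ p, e.a = .pc p ∧ p.i = i ∧ word e.p = [] ∧ b ≤ i ∧ PLg p ∧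
      e.p = nms (adr e.p) := by
    intro e he
    obtain ⟨hw, p, hp, hi⟩ := kd_O (mem_part.1 he).2
    refine ⟨p, hp, hi, hw, ?_, h1.1.pcs e he p hp, ?_⟩
    · have := h1.1.ok e he
      rw [hw, hp, ctx_nil] at this
      rw [← hi]
      exact this
    · conv_lhs => rw [← adr_rs e.p, rs_of_nil hw, List.append_nil]
  constructor
  · refine Val_bind (s i) ?_ ?_ ?_ ?_ ?_
    · intro e he
      obtain ⟨p, hp, hi, hw, hb, hpl, hpp⟩ := key e he
      rw [hp, word_nms, ctx_nil]
      have := (ndF_leg hpl).1
      rw [hi] at this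
      have e1 : kctx b (.O i) = i + 1 := by simp only [kctx]; omega
      rw [e1]
      exact this
    · intro e he q hq
      have := WF_nms (adr e.p) _ q hq
      rwa [(h1.1.wf e he).adr] at this
    · intro e he e' he' k hk
      obtain ⟨p, hp, hi, hw, hb, hpl, hpp⟩ := key e he
      rw [hp] at he'
      have h2 := h1.1.self e he k (by rw [hpp]; exact hk)
      have h3 := ndF_pos he'
      have h4 : e.pos = p.c := by unfold En.pos; rw [hp]; rfl
      have h5 : (At.pc p).thePc = p := rfl
      rw [h5] at h3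
      omega
    · intro e he
      simp
    · refine List.Pairwise.imp_of_mem (fun {e₁ e₂} he₁ he₂ hd => ?_) h1.1.div
      obtain ⟨p, hp, hi, hw, hb, hpl, hpp⟩ := key e₁ he₁
      obtain ⟨p', hp', hi', hw', hb', hpl', hpp'⟩ := key e₂ he₂
      intro e he e' he'
      rw [hp] at he
      rw [hp'] at he'
      have h3 := ndF_pos he
      have h3' := ndF_pos he'
      rw [hpp, hpp'] at hd
      refine hd.mono ?_ ?_
      · unfold En.pos; rw [hp]; exact h3
      · unfold En.pos; rw [hp']; exact h3'
  · refine TD_bind ?_ ?_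
    · intro e he
      obtain ⟨p, hp, hi, hw, hb, hpl, hpp⟩ := key e he
      rw [hp]
      exact (ndF_leg hpl).2
    · refine List.Pairwise.imp_of_mem (fun {e₁ e₂} he₁ he₂ hd => ?_) h1.2
      obtain ⟨p, hp, hi, hw, hb, hpl, hpp⟩ := key e₁ he₁
      obtain ⟨p', hp', hi', hw', hb', hpl', hpp'⟩ := key e₂ he₂
      intro e he e' he' hww
      rw [hp] at he
      rw [hp'] at he'
      simp only [word_nms, List.nil_append] at hww
      have hc := hd (by rw [hw, hw'])
      rw [hp, hp'] at hc
      exact ndF_cross hpl hpl' (hi.trans hi'.symm) hc he he' hww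

lemma Phi_part_O {b n : ℕ} {F : List En} (h : Leg b n F) (i : ℕ) (x : ℕ →₀ ℝ) :
    Phi (part (.O i) F) x ≤ 1 / (v i : ℝ) * Phi (der (.O i) F) x := by
  have h1 := h.sub (part_sub (.O i) F)
  unfold der
  rw [Phi_bind]
  simp only [word_nms, cf_nil, one_mul]
  have key : ∀ e ∈ part (.O i) F, e.cf * |e.a.val x| ≤ 1 / (v i : ℝ) * Phi (ndF e.a.thePc) x := by
    intro e he
    obtain ⟨hw, p, hp, hi⟩ := kd_O (mem_part.1 he).2
    obtain ⟨H, hH⟩ := h1.1.pcs e he p hp
    unfold En.cf
    rw [hw, cf_nil, one_mul, hp]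
    have := pc_dom hH x
    rw [hi] at this
    exact this
  unfold Phi
  generalize part (.O i) F = G at key
  induction G with
  | nil => simp
  | cons e G ih =>
    simp only [List.map_cons, List.sum_cons]
    have h2 := key e List.mem_cons_self
    have h3 := ih fun e he => key e (List.mem_cons_of_mem _ he)
    unfold Phi at h2
    rw [mul_add]
    linarith

/-- derived forests -/
lemma der_leg {b n : ℕ} {F : List En} (h : Leg b n F) (κ : Kd) :
    Leg (kctx b κ) (n + κ.rk) (der κ F) := by
  cases κ with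
  | E j => exact der_leg_letter h (.E j)
  | C i => exact der_leg_letter h (.C i)
  | L i => exact der_leg_letter h (.L i)
  | O i => exact der_leg_O h i

lemma Phi_part_le {b n : ℕ} {F : List En} (h : Leg b n F) (κ : Kd) (x : ℕ →₀ ℝ) :
    Phi (part κ F) x ≤ 1 / κ.wt * Phi (der κ F) x := by
  cases κ with
  | E j => exact (Phi_part_letter (.E j) F x).le
  | C i => exact (Phi_part_letter (.C i) F x).le
  | L i => exact (Phi_part_letter (.L i) F x).le
  | O i => exact Phi_part_O h i x

lemma le_kctx (b : ℕ) (κ : Kd) : b ≤ kctx b κ := by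
  cases κ <;> simp [kctx]

/-- entries with different kinds have different addresses -/
lemma adr_ne_of_kd {b n : ℕ} {Q : Pc → Prop} {F : List En} (h : Val Q b n F) {e e' : En} (he : e ∈ F) (he' : e' ∈ F)
    (hk : e.kd ≠ e'.kd) : adr e.p ≠ adr e'.p := by
  intro ha
  have hne : e ≠ e' := fun h => hk (by rw [h])
  have hd := h.dv he he' hne
  have hl : (adr e.p).length = (adr e'.p).length := by rw [ha]
  rw [Div_iff hl] at hd
  rcases hd with ⟨_, h3⟩ | ⟨h2, _⟩
  · rcases rs_cases e.p with h4 | ⟨a, q, h4⟩
    · rw [h4] at h3; simp at h3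
    · rcases rs_cases e'.p with h5 | ⟨a', q', h5⟩
      · rw [h5] at h3; simp at h3
      · rw [h4, h5, Div_lt_lt] at h3
        apply hk
        have e1 : word e.p = a :: word q := by rw [← word_rs, h4]; rfl
        have e2 : word e'.p = a' :: word q' := by rw [← word_rs, h5]; rfl
        rw [kd_of_word e1, kd_of_word e2, h3.1]
  · exact h2 ha

/-- two different entries, one of them with empty word, have different addresses -/
lemma adr_ne_of_nil {b n : ℕ} {Q : Pc → Prop} {F : List En} (h : Val Q b n F) {e e' : En} (he : e ∈ F)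
    (he' : e' ∈ F) (hne : e ≠ e') (hw : word e.p = []) : adr e.p ≠ adr e'.p := by
  intro ha
  have hd := h.dv he he' hne
  have hl : (adr e.p).length = (adr e'.p).length := by rw [ha]
  rw [Div_iff hl] at hd
  rcases hd with ⟨_, h3⟩ | ⟨h2, _⟩
  · rw [rs_of_nil hw] at h3; simp at h3
  · exact h2 ha

/-- families of entries with different addresses -/
lemma adm_of_entries {b n : ℕ} {Q : Pc → Prop} {F : List En} (h : Val Q b n F) (Z : Finset ℕ) (p : ℕ → ℕ)
    (e : ℕ → En) (he : ∀ u ∈ Z, e u ∈ F) (hp : ∀ u ∈ Z, (e u).pos ≤ p u)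
    (hne : ∀ u ∈ Z, ∀ u' ∈ Z, u ≠ u' → adr (e u).p ≠ adr (e u').p) : Adm n Z p := by
  refine ⟨fun u => adr (e u).p, fun u hu => (h.wf _ (he u hu)).adr, ?_, ?_⟩
  · intro u hu k hk
    refine (h.self _ (he u hu) k ?_).trans (hp u hu)
    rw [← adr_rs (e u).p, List.mem_append]
    exact Or.inl ((nm_mem_nms _ _).2 hk)
  · intro u hu u' hu' huu
    have hne' : e u ≠ e u' := fun h => hne u hu u' hu' huu (by rw [h])
    have hd := h.dv (he u hu) (he u' hu') hne'
    have hl : (adr (e u).p).length = (adr (e u').p).length := by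
      rw [(h.wf _ (he u hu)).adr, (h.wf _ (he u' hu')).adr]
    rw [Div_iff hl] at hd
    rcases hd with ⟨h2, _⟩ | ⟨_, h3⟩
    · exact absurd h2 (hne u hu u' hu' huu)
    · exact h3.mono (hp u hu) (hp u' hu')

end Pool.Agent.Helper64.Hit
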