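import Pool.Agent.Helper64.Hit.NodeF

/-!
# Kinds of roots, derived forests, norms: definitions
-/

set_option autoImplicit false

namespace Pool.Agent.Helper64.Hit

/-- kind of the root of an entry -/
def En.kd (e : En) : Option Kd :=
  match word e.p with
  | a :: _ => some a.kd
  | [] => match e.a with
    | .pc p => some (.O p.i)
    | .leaf _ => none

/-- the part of a forest with roots of a given kind -/
def part (κ : Kd) (F : List En) : List En := F.filter fun e => decide (e.kd = some κ)

/-- the leaves at the roots -/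
def lvs (F : List En) : List En := F.filter fun e => decide (e.kd = none)

/-- the kinds of the roots -/
def kinds (F : List En) : Finset Kd := (F.filterMap En.kd).toFinset

/-- new context -/
def kctx (b : ℕ) : Kd → ℕ
  | .E _ => b
  | .C i => max b (i + 1)
  | .L i => max b (i + 1)
  | .O i => max b (i + 1)

/-- the piece of an atom -/
def At.thePc : At → Pc
  | .pc p => p
  | .leaf _ => ⟨0, [], 0, 0⟩

/-- derived forest -/
noncomputable def der : Kd → List En → List En
  | .O i, F => bind (part (.O i) F) (fun e => nms (adr e.p)) (fun e => ndF e.a.thePc)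
  | .E j, F => (part (.E j) F).map fun e => ⟨nms (adr e.p) ++ (rs e.p).tail, e.a⟩
  | .C i, F => (part (.C i) F).map fun e => ⟨nms (adr e.p) ++ (rs e.p).tail, e.a⟩
  | .L i, F => (part (.L i) F).map fun e => ⟨nms (adr e.p) ++ (rs e.p).tail, e.a⟩

/-- `l1` norm -/
noncomputable def l1 (x : ℕ →₀ ℝ) : ℝ := ∑ k ∈ x.support, |x k|

/-- the norm with context `b` -/
noncomputable def Nb (b : ℕ) (x : ℕ →₀ ℝ) : ℝ := sSup {t : ℝ | ∃ F : List En, Leg b 0 F ∧ t = Phi F x}

/-- support in an interval -/
def Sup (x : ℕ →₀ ℝ) (a b : ℕ) : Prop := ∀ k, x k ≠ 0 → a ≤ k ∧ k ≤ b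

end Pool.Agent.Helper64.Hit
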