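import Pool.Agent.Helper64.Hit.Hi5
import Pool.Agent.Helper32.Hit.D
import Pool.Agent.Helper52.Hit.NJoin
import Pool.Agent.Helper64.Hit.H1

/-!
# Assembly
-/

set_option autoImplicit false
open Filter Topology

namespace Pool.Agent.Helper64.Hit

theorem n_join : ∀ M : ℕ, ∃ N0 : ℕ, ∀ x : Fin M → (ℕ →₀ ℝ), (∀ j, ∀ i ∈ (x j).support, N0 ≤ i) →
      ∃ (m : ℕ) (f : Fin m → ((ℕ →₀ ℝ) →ₗ[ℝ] ℝ)), ∀ c : Fin M → ℝ,
        Nb 0 (∑ j, c j • x j) ≤ ∑ i, |f i (∑ j, c j • x j)| ∧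
        ∑ i, |f i (∑ j, c j • x j)| ≤ 320 * Nb 0 (∑ j, c j • x j) :=
  Jn.n_join_of (fun _ h x => le_Nb h x) (fun _ _ h => exists_lt_Nb h) (Nb_add 0) (Nb_smul 0)
    (Nb_coord 0) (fun F h x => by
      have := op_E (j := 0) h (by rw [rn_zero]) x
      rw [w_zero] at this
      exact_mod_cast this)

lemma Nb_cut (x : ℕ →₀ ℝ) (a b : ℕ) : Nb 0 (cut a b x) ≤ Nb 0 x := by
  rcases Nat.eq_zero_or_pos b with rfl | hb
  · have : cut a 0 x = (0 : ℝ) • x := by
      ext k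
      unfold cut
      rw [Finsupp.filter_apply, if_neg (by omega)]
      simp
    rw [this, Nb_smul]
    have := Nb_nonneg 0 x
    simpa using this
  · have : cut a b x = res a (b - 1) x := by
      ext k
      unfold cut
      rw [Finsupp.filter_apply, res_apply]
      by_cases h : a ≤ k ∧ k < b
      · rw [if_pos h, if_pos (by omega)]
      · rw [if_neg h, if_neg (by omega)]
    rw [this]
    exact Nb_res 0 a (b - 1) x

lemma Nb_zero (b : ℕ) : Nb b 0 = 0 := by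
  have := Nb_smul b 0 0
  simpa using this

open Classical in
lemma n_low (n : ℕ) (s : Finset ℕ) (hs : s.card ≤ n) (x : ℕ → (ℕ →₀ ℝ))
    (h1 : ∀ k ∈ s, ∀ i ∈ (x k).support, n ≤ i) (h2 : ∀ k ∈ s, ∀ l ∈ s, k < l → Lt (x k) (x l)) :
    ∑ k ∈ s, Nb 0 (x k) ≤ 320 * Nb 0 (∑ k ∈ s, x k) := by
  -- trees
  have ht : ∀ k, ∃ t : List En, Leg 0 0 t ∧ Nb 0 (x k) ≤ 2 * Phi t (x k) := by
    intro k
    rcases (Nb_nonneg 0 (x k)).eq_or_lt with h | h
    · refine ⟨[], ⟨⟨by simp, by simp, by simp, by simp, by simp, List.Pairwise.nil⟩, List.Pairwise.nil⟩, ?_⟩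
      rw [← h]
      simp
    · obtain ⟨t, ht, h3⟩ := exists_lt_Nb (show Nb 0 (x k) / 2 < Nb 0 (x k) by linarith)
      exact ⟨t, ht, by linarith⟩
  choose t htL htx using ht
  let I := s.filter fun k => x k ≠ 0
  have hI : ∀ k ∈ I, k ∈ s ∧ (x k).support.Nonempty := by
    intro k hk
    rw [Finset.mem_filter] at hk
    exact ⟨hk.1, Finsupp.support_nonempty_iff.2 hk.2⟩
  let q : ℕ → ℕ := fun k => if h : (x k).support.Nonempty then (x k).support.min' h else 0
  let p : ℕ → ℕ := fun k => if h : (x k).support.Nonempty then (x k).support.max' h else 0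
  have hq : ∀ k, ∀ h : (x k).support.Nonempty, q k = (x k).support.min' h := fun k h => dif_pos h
  have hp : ∀ k, ∀ h : (x k).support.Nonempty, p k = (x k).support.max' h := fun k h => dif_pos h
  have hsup : ∀ k ∈ I, Sup (x k) (q k) (p k) := by
    intro k hk i hi
    have hi' : i ∈ (x k).support := Finsupp.mem_support_iff.2 hi
    rw [hq k (hI k hk).2, hp k (hI k hk).2]
    exact ⟨Finset.min'_le _ _ hi', Finset.le_max' _ _ hi'⟩
  have hlt : ∀ u ∈ I, ∀ u' ∈ I, u < u' → p u < q u' := by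
    intro u hu u' hu' huu
    rw [hp u (hI u hu).2, hq u' (hI u' hu').2]
    exact h2 u (hI u hu).1 u' (hI u' hu').1 huu _ (Finset.max'_mem _ _) _ (Finset.min'_mem _ _)
  obtain ⟨T, hT1, _, _, hT4⟩ := merge (b := 0) (j := 0) I (fun k => trF (q k) (p k) (t k)) q p
    (fun u _ => (htL u).trF _ _)
    (fun u _ e he => by obtain ⟨_, _, _, _, h⟩ := mem_trF he; exact h) hlt
    (by
      rw [rn_zero]
      refine Adm.one n ?_ ?_
      · exact (Finset.card_le_card (Finset.filter_subset _ _)).trans (by omega)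
      · intro k hk
        rw [hq k (hI k hk).2]
        exact h1 k (hI k hk).1 _ (Finset.min'_mem _ _))
  have hres : ∀ k ∈ I, res (q k) (p k) (∑ l ∈ s, x l) = x k := by
    intro k hk
    have hk' := hI k hk
    ext i
    rw [res_apply, Finsupp.finset_sum_apply]
    split_ifs with hi
    · rw [Finset.sum_eq_single k]
      · intro l hl hlk
        by_contra hne
        have hl' : i ∈ (x l).support := Finsupp.mem_support_iff.2 hne
        rcases Nat.lt_or_gt_of_ne hlk with h3 | h3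
        · have := h2 l hl k hk'.1 h3 i hl' _ (Finset.min'_mem _ hk'.2)
          rw [hq k hk'.2] at hi
          omega
        · have := h2 k hk'.1 l hl h3 _ (Finset.max'_mem _ hk'.2) i hl'
          rw [hp k hk'.2] at hi
          omega
      · intro h; exact absurd hk'.1 h
    · by_contra hne
      exact hi (hsup k hk i (Ne.symm hne))
  have h3 := le_Nb hT1 (∑ l ∈ s, x l)
  rw [hT4, w_zero] at h3
  have h4 : ∑ k ∈ I, Phi (trF (q k) (p k) (t k)) (∑ l ∈ s, x l) = ∑ k ∈ I, Phi (t k) (x k) := by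
    refine Finset.sum_congr rfl fun k hk => ?_
    rw [Phi_trF, hres k hk]
  rw [h4] at h3
  have h5 : ∑ k ∈ s, Nb 0 (x k) = ∑ k ∈ I, Nb 0 (x k) := by
    symm
    refine Finset.sum_subset (Finset.filter_subset _ _) fun k hk hkI => ?_
    have : x k = 0 := by
      by_contra hne
      exact hkI (Finset.mem_filter.2 ⟨hk, hne⟩)
    rw [this, Nb_zero]
  have h6 : ∑ k ∈ I, Nb 0 (x k) ≤ 2 * ∑ k ∈ I, Phi (t k) (x k) := by
    rw [Finset.mul_sum]
    exact Finset.sum_le_sum fun k _ => htx k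
  have h7 := Nb_nonneg 0 (∑ l ∈ s, x l)
  push_cast at h3
  linarith

theorem n_hi (y z : ℕ → (ℕ →₀ ℝ)) (hy : Blk y) (hz : Blk z) (ε : ℝ) (hε : 0 < ε) :
    ∃ a ∈ Submodule.span ℝ (Set.range y), ∃ b ∈ Submodule.span ℝ (Set.range z),
      Nb 0 (a - b) < ε * Nb 0 (a + b) :=
  block_hi y z ⟨hy.1, hy.2⟩ ⟨hz.1, hz.2⟩ ε hε

/-- the final theorem -/
theorem main : ∃ (X : Type) (_ : NormedAddCommGroup X) (_ : NormedSpace ℝ X), CompleteSpace X ∧
    (∀ U W : Submodule ℝ X, IsClosed (U : Set X) → IsClosed (W : Set X) →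
      ¬ FiniteDimensional ℝ U → ¬ FiniteDimensional ℝ W → Disjoint U W →
      ¬ IsClosed ((U ⊔ W : Submodule ℝ X) : Set X)) ∧
    ∃ e : ℕ → X,
      (∀ x : X, ∃! c : ℕ → ℝ,
        Tendsto (fun N => ∑ n ∈ Finset.range N, c n • e n) atTop (𝓝 x)) ∧
      ∀ Y : Submodule ℝ X, IsClosed (Y : Set X) → ¬ FiniteDimensional ℝ Y →
        ∃ a b : ℕ → ℕ, (∀ k, a k ≤ b k ∧ b k < a (k + 1)) ∧
          ∀ K : ℕ, ¬ ∃ T : Y →L[ℝ] X,
            (∀ y : Y, ‖y‖ ≤ ‖T y‖ ∧ ‖T y‖ ≤ (K : ℝ) * ‖y‖) ∧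
            ∀ y : Y, T y ∈
              (Submodule.span ℝ (e '' {n | n < a K ∨ b K < n})).topologicalClosure :=
  reduction' (fun _ _ _ u δ C hδ hu hform hlow => HH1.l1_extract u δ C hδ hu hform hlow) (Nb 0) 320
    (Nb_add 0) (Nb_smul 0) (Nb_coord 0) Nb_cut n_low n_hi n_join

end Pool.Agent.Helper64.Hit
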