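import Pool.Agent.Helper64.Hit.Dep

/-!
# Estimates on dependent sequences, part 1
-/

set_option autoImplicit false

namespace Pool.Agent.Helper64.Hit

lemma val_zero {y : ℕ →₀ ℝ} {lo hi : ℕ} (hy : Sup y lo hi) {a : At} (h : hi < a.pos) : a.val y = 0 := by
  cases a with
  | leaf k =>
    rw [val_leaf]
    by_contra hne
    have := (hy k hne).2
    have h' : hi < k := h
    omega
  | pc p =>
    have h' : hi < p.c := h
    have : res p.c p.d y = 0 := by
      ext k
      rw [res_apply, Finsupp.coe_zero, Pi.zero_apply]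
      split_ifs with hk
      · by_contra hne
        have := (hy k hne).2
        omega
      · rfl
    rw [val_pc, this, pr_zero_right, mul_zero]

lemma Phi_eq_zero_of {F : List En} {y : ℕ →₀ ℝ} (h : ∀ e ∈ F, e.a.val y = 0) : Phi F y = 0 := by
  induction F with
  | nil => simp
  | cons e F ih =>
    rw [Phi_cons, h e List.mem_cons_self, ih fun e he => h e (List.mem_cons_of_mem _ he)]
    simp

lemma Phi_filt (F : List En) (P : En → Bool) (x : ℕ →₀ ℝ) :
    Phi F x = Phi (F.filter P) x + Phi (F.filter fun e => !P e) x := by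
  induction F with
  | nil => simp
  | cons e F ih =>
    by_cases h : P e = true
    · rw [List.filter_cons_of_pos h, List.filter_cons_of_neg (by simp [h]), Phi_cons, Phi_cons, ih]
      ring
    · rw [List.filter_cons_of_neg h, List.filter_cons_of_pos (by simpa using h), Phi_cons, Phi_cons, ih]
      ring

lemma Phi_sign (F : List En) (l : ℕ) (x : ℕ →₀ ℝ) : Phi F ((-1 : ℝ) ^ l • x) = Phi F x := by
  rw [Phi_smul, abs_pow, abs_neg, abs_one, one_pow, one_mul]

lemma sum_pairs (f : ℕ → ℝ) (e : ℕ) :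
    ∑ l ∈ Finset.range (2 * e), f l = ∑ m ∈ Finset.range e, (f (2 * m) + f (2 * m + 1)) := by
  induction e with
  | zero => simp
  | succ e ih =>
    rw [show 2 * (e + 1) = 2 * e + 1 + 1 by ring, Finset.sum_range_succ, Finset.sum_range_succ, ih,
      Finset.sum_range_succ]
    ring

variable {i : ℕ} {G : ℕ → Node} {y : ℕ → (ℕ →₀ ℝ)}

lemma Dep.hi_lt (hD : Dep i G y) {l l' : ℕ} (h : l < l') : (G l).hi < (G l').lo := by
  induction l', h using Nat.le_induction with
  | base => have := hD.gr l; show (G l).hi < (G (l + 1)).lo; omega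
  | succ l' _ ih =>
    have h1 := hD.gr l'
    have h2 := hD.le l'
    omega

lemma Dep.hi_mono (hD : Dep i G y) {l l' : ℕ} (h : l ≤ l') : (G l).hi ≤ (G l').hi := by
  rcases Nat.lt_or_ge l l' with h1 | h1
  · have := hD.hi_lt h1
    have := hD.le l'
    omega
  · have : l = l' := le_antisymm h h1
    rw [this]

lemma Dep.J_inj (_ : Dep i G y) {l l' : ℕ} (h : sg i (pre G l) = sg i (pre G l')) : l = l' := by
  have := congrArg List.length (sg_inj h)
  rwa [pre_length, pre_length] at this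

lemma Dep.rank (_ : Dep i G y) (l : ℕ) : s i ≤ s (sg i (pre G l) - 1) := by
  have h1 := lt_sg i (pre G l)
  have h2 : rho (2 * i + 1) ≤ rho (2 * (sg i (pre G l) - 1) + 1) := rho_mono (by omega)
  rwa [rho_odd, rho_odd] at h2

/-- coefficients on pairs -/
structure PairAv (i e : ℕ) (G : ℕ → Node) (a : ℕ → ℝ) (ε : ℝ) : Prop where
  nn : ∀ m, 0 ≤ a m
  sum : ∑ m ∈ Finset.range e, a m = 1
  small : ∀ Z ⊆ Finset.range e, Adm (s i - 2) Z (fun m => (G (2 * m + 1)).hi) → ∑ m ∈ Z, a m ≤ ε
  eps : 0 ≤ ε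

variable {e : ℕ} {a : ℕ → ℝ} {ε : ℝ}

lemma PairAv.sum2 (ha : PairAv i e G a ε) : ∑ l ∈ Finset.range (2 * e), a (l / 2) = 2 := by
  rw [sum_pairs]
  have : ∀ m ∈ Finset.range e, a (2 * m / 2) + a ((2 * m + 1) / 2) = 2 * a m := by
    intro m _
    rw [show 2 * m / 2 = m by omega, show (2 * m + 1) / 2 = m by omega]
    ring
  rw [Finset.sum_congr rfl this, ← Finset.mul_sum, ha.sum, mul_one]

/-- the mass of an admissible set with all elements of the same parity -/
lemma PairAv.mass1 (hD : Dep i G y) (ha : PairAv i e G a ε) {m r : ℕ} (hr : r ≤ 1) {Z : Finset ℕ}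
    (hZ : Z ⊆ Finset.range (2 * e)) (hpar : ∀ l ∈ Z, l % 2 = r) (hm : m + 2 ≤ s i)
    (hA : Adm m Z fun l => (G l).hi) : ∑ l ∈ Z, a (l / 2) ≤ ε := by
  classical
  have hinj : Set.InjOn (fun l => l / 2) (Z : Set ℕ) := by
    intro l hl l' hl' h
    have h1 := hpar l hl
    have h2 := hpar l' hl'
    have h3 : l / 2 = l' / 2 := h
    omega
  rw [← Finset.sum_image (f := fun m => a m) (g := fun l => l / 2) hinj]
  refine ha.small _ ?_ ?_
  · intro k hk
    rw [Finset.mem_image] at hk
    obtain ⟨l, hl, rfl⟩ := hk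
    have := Finset.mem_range.1 (hZ hl)
    rw [Finset.mem_range]
    omega
  · refine (Adm.inj (hA.rank (by omega)) (fun m => 2 * m + r) ?_ ?_ ?_)
    · intro k hk
      rw [Finset.mem_image] at hk
      obtain ⟨l, hl, rfl⟩ := hk
      have h1 := hpar l hl
      have : 2 * (l / 2) + r = l := by omega
      rwa [this]
    · intro k _ k' _ h
      have : 2 * k + r = 2 * k' + r := h
      omega
    · intro k hk
      exact hD.hi_mono (by omega)

/-- the mass of an admissible set -/
lemma PairAv.mass (hD : Dep i G y) (ha : PairAv i e G a ε) {m : ℕ} {Z : Finset ℕ}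
    (hZ : Z ⊆ Finset.range (2 * e)) (hm : m + 2 ≤ s i)
    (hA : Adm m Z fun l => (G l).hi) : ∑ l ∈ Z, a (l / 2) ≤ 2 * ε := by
  classical
  rw [← Finset.sum_filter_add_sum_filter_not Z (fun l => l % 2 = 0)]
  have h1 := ha.mass1 hD (r := 0) (by omega) (Z := Z.filter fun l => l % 2 = 0)
    ((Finset.filter_subset _ _).trans hZ) (fun l hl => (Finset.mem_filter.1 hl).2) hm
    (hA.sub (Finset.filter_subset _ _))
  have h2 := ha.mass1 hD (r := 1) le_rfl (Z := Z.filter fun l => ¬ l % 2 = 0)
    ((Finset.filter_subset _ _).trans hZ) (fun l hl => by have := (Finset.mem_filter.1 hl).2; omega) hm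
    (hA.sub (Finset.filter_subset _ _))
  linarith

/-- a sum over `range (2 e)` with an exceptional set -/
lemma PairAv.bound (ha : PairAv i e G a ε) {f : ℕ → ℝ} {Z : Finset ℕ} {c K μ : ℝ}
    (hZ : Z ⊆ Finset.range (2 * e))
    (hc : 0 ≤ c) (hK : 0 ≤ K) (h1 : ∀ l ∈ Finset.range (2 * e), l ∉ Z → f l ≤ c)
    (h2 : ∀ l ∈ Z, f l ≤ K) (hμ : ∑ l ∈ Z, a (l / 2) ≤ μ) :
    ∑ l ∈ Finset.range (2 * e), a (l / 2) * f l ≤ 2 * c + μ * K := by
  classical
  have h3 : ∀ l ∈ Finset.range (2 * e), a (l / 2) * f l ≤ a (l / 2) * c + (if l ∈ Z then a (l / 2) * K else 0) := by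
    intro l hl
    have hn := ha.nn (l / 2)
    by_cases hlZ : l ∈ Z
    · rw [if_pos hlZ]
      have := mul_le_mul_of_nonneg_left (h2 l hlZ) hn
      have := mul_nonneg hn hc
      linarith
    · rw [if_neg hlZ]
      have := mul_le_mul_of_nonneg_left (h1 l hl hlZ) hn
      linarith
  refine (Finset.sum_le_sum h3).trans ?_
  rw [Finset.sum_add_distrib, ← Finset.sum_mul, ha.sum2, Finset.sum_ite_mem,
    Finset.inter_eq_right.2 hZ, ← Finset.sum_mul]
  have := mul_le_mul_of_nonneg_right hμ hK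
  linarith

lemma w_mono {j j' : ℕ} (h : j ≤ j') : w j ≤ w j' := by
  have := om_mono (show 2 * j ≤ 2 * j' by omega)
  rwa [om_even, om_even] at this

/-- high kinds on one vector -/
lemma high_one (hD : Dep i G y) {m l : ℕ} {F : List En} (hF : Leg 0 m F) (hm : m ≤ 2 * s i)
    (hk : ∀ e ∈ F, ∃ κ : Kd, e.kd = some κ ∧ κ.Hi (2 * i + 2))
    (hE : ∀ e ∈ F, e.kd = some (.E (sg i (pre G l))) → e.a.val (y l) = 0) :
    Phi F (y l) ≤ 3 / w (i + 1) + 3 / w (i + 1) * (45 * Gam (i + 1)) := by
  classical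
  set j := sg i (pre G l) with hj
  have hij : i < j := lt_sg i _
  have hsi := hD.rank l
  rw [← hj] at hsi
  have hwj : (w (i + 1) : ℝ) ≤ w j := by exact_mod_cast w_mono (by omega : i + 1 ≤ j)
  have hwp : (0 : ℝ) < w (i + 1) := by
    have := w_pos (i + 1)
    exact_mod_cast (by omega : 0 < w (i + 1))
  let P : En → Bool := fun e => decide (∃ κ : Kd, e.kd = some κ ∧ κ.Hi (2 * j + 1))
  rw [Phi_filt F P]
  have h1 : Phi (F.filter P) (y l) ≤ 3 / w (i + 1) := by
    refine (hD.e3 l m _ (by rw [← hj]; omega) (hF.sub List.filter_sublist) ?_).trans ?_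
    · intro e he
      rw [List.mem_filter] at he
      simpa [P] using he.2
    · rw [← hj]
      gcongr
  have h2 : Phi (F.filter fun e => !P e) (y l) ≤ 3 / w (i + 1) * (45 * Gam (i + 1)) := by
    set F' := F.filter fun e => !P e with hF'
    rw [Phi_filt F' fun e => decide (e.kd = some (.E j))]
    have h3 : Phi (F'.filter fun e => decide (e.kd = some (.E j))) (y l) = 0 := by
      refine Phi_eq_zero_of fun e he => ?_
      rw [List.mem_filter] at he
      have h4 : e ∈ F := by
        rw [hF', List.mem_filter] at he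
        exact he.1.1
      exact hE e h4 (by simpa using he.2)
    rw [h3, zero_add]
    set F'' := F'.filter fun e => !decide (e.kd = some (.E j)) with hF''
    have hsub : F''.Sublist F := List.filter_sublist.trans List.filter_sublist
    have hL : Leg 0 m F'' := hF.sub hsub
    have hmem : ∀ e ∈ F'', ∃ κ : Kd, e.kd = some κ ∧ κ.Hi (2 * i + 2) ∧ ¬ κ.Hi (2 * j) := by
      intro e he
      obtain ⟨κ, hκ, hhi⟩ := hk e (hsub.subset he)
      refine ⟨κ, hκ, hhi, ?_⟩
      rw [hF'', List.mem_filter, hF', List.mem_filter] at he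
      have h5 : ¬ κ.Hi (2 * j + 1) := by
        intro h6
        have : P e = true := by simp only [P, decide_eq_true_eq]; exact ⟨κ, hκ, h6⟩
        simp [this] at he
      have h6 : κ ≠ .E j := by
        rintro rfl
        simp [hκ] at he
      cases κ with
      | E j' =>
        simp only [Kd.Hi] at h5 ⊢
        have : j' ≠ j := fun h => h6 (by rw [h])
        omega
      | C i' => simp only [Kd.Hi] at h5 ⊢; omega
      | L i' => simp only [Kd.Hi] at h5 ⊢; exact not_false
      | O i' => simp only [Kd.Hi] at h5 ⊢; omega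
    have hl : lvs F'' = [] := by
      unfold lvs
      rw [List.filter_eq_nil_iff]
      intro e he
      obtain ⟨κ, hκ, _⟩ := hmem e he
      simp [hκ]
    rw [Phi_split, hl, Phi_nil, zero_add]
    have hK : ∀ κ ∈ kinds F'', κ.Hi (2 * i + 2) ∧ ¬ κ.Hi (2 * j) := by
      intro κ hκ
      obtain ⟨e, he, hke⟩ := mem_kinds.1 hκ
      obtain ⟨κ', hκ', h7⟩ := hmem e he
      rw [hke] at hκ'
      obtain rfl := Option.some.inj hκ'
      exact h7
    have h8 : ∀ κ ∈ kinds F'', Phi (part κ F'') (y l) ≤ 1 / κ.wt * (45 * Gam (i + 1)) := by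
      intro κ hκ
      refine (Phi_part_le hL κ _).trans ?_
      refine mul_le_mul_of_nonneg_left ?_ (one_div_nonneg.2 κ.wt_pos.le)
      refine hD.e2 l _ _ ?_ ((der_leg hL κ).mono (Nat.zero_le _))
      rw [← hj]
      have h9 : κ.rk ≤ rho (2 * j - 1) := rk_le (by
        rw [show 2 * j - 1 + 1 = 2 * j by omega]
        exact (hK κ hκ).2)
      rw [show 2 * j - 1 = 2 * (j - 1) + 1 by omega, rho_odd] at h9
      omega
    refine (Finset.sum_le_sum h8).trans ?_
    rw [← Finset.sum_mul]
    refine mul_le_mul_of_nonneg_right ?_ (by positivity)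
    have := sum_hi (kinds F'') (2 * i + 2) fun κ hκ => (hK κ hκ).1
    rwa [show 2 * i + 2 = 2 * (i + 1) by ring, om_even] at this
  linarith

/-- high kinds against the whole sequence -/
lemma high_all (hD : Dep i G y) (ha : PairAv i e G a ε) {m : ℕ} {F : List En} (hF : Leg 0 m F)
    (hm : m + 2 ≤ s i) (hk : ∀ e ∈ F, ∃ κ : Kd, e.kd = some κ ∧ κ.Hi (2 * i + 2)) :
    ∑ l ∈ Finset.range (2 * e), a (l / 2) * Phi F (y l) ≤
      2 * (3 / w (i + 1) + 3 / w (i + 1) * (45 * Gam (i + 1))) + 2 * ε * (45 * Gam (i + 1)) := by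
  classical
  let Z := (Finset.range (2 * e)).filter fun l =>
    ∃ e' ∈ F, e'.kd = some (.E (sg i (pre G l))) ∧ e'.pos ≤ (G l).hi
  have hZ : Z ⊆ Finset.range (2 * e) := Finset.filter_subset _ _
  have hex : ∀ l ∈ Z, ∃ e' ∈ F, e'.kd = some (.E (sg i (pre G l))) ∧ e'.pos ≤ (G l).hi :=
    fun l hl => (Finset.mem_filter.1 hl).2
  refine ha.bound hZ (by positivity) (by positivity) ?_ ?_ ?_
  · intro l hl hlZ
    refine high_one hD hF (by omega) hk ?_
    intro e' he' hke
    have h1 : ¬ e'.pos ≤ (G l).hi := fun h => hlZ (Finset.mem_filter.2 ⟨hl, e', he', hke, h⟩)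
    exact val_zero (hD.sup l) (not_le.1 h1)
  · intro l _
    exact hD.e2 l m F (by have := hD.rank l; omega) hF
  · refine ha.mass hD hZ hm ?_
    have : Nonempty En := ⟨⟨[], .leaf 0⟩⟩
    choose! f hf using hex
    refine adm_of_entries hF.1 Z _ f (fun l hl => (hf l hl).1) (fun l hl => (hf l hl).2.2) ?_
    intro l hl l' hl' hne
    refine adr_ne_of_kd hF.1 (hf l hl).1 (hf l' hl').1 ?_
    rw [(hf l hl).2.1, (hf l' hl').2.1]
    intro h
    apply hne
    simp only [Option.some.injEq, Kd.E.injEq] at h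
    exact hD.J_inj h

end Pool.Agent.Helper64.Hit
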