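import Pool.Agent.Helper64.Hit.Hi1

/-!
# Estimates on dependent sequences, part 2: special pieces
-/

set_option autoImplicit false

namespace Pool.Agent.Helper64.Hit

lemma res_add_x (c d : ℕ) (x y : ℕ →₀ ℝ) : res c d (x + y) = res c d x + res c d y := by
  ext k
  rw [Finsupp.add_apply, res_apply, res_apply, res_apply, Finsupp.add_apply]
  split_ifs <;> simp

lemma res_smul_x (c d : ℕ) (t : ℝ) (x : ℕ →₀ ℝ) : res c d (t • x) = t • res c d x := by
  ext k
  rw [Finsupp.smul_apply, res_apply, res_apply, Finsupp.smul_apply, smul_eq_mul]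
  split_ifs <;> simp

lemma res_zero_x (c d : ℕ) : res c d 0 = 0 := by
  ext k
  rw [res_apply]
  split_ifs <;> simp

lemma pr_res_sum (f : ℕ →₀ ℚ) (c d : ℕ) {ι : Type} (S : Finset ι) (t : ι → ℝ) (x : ι → (ℕ →₀ ℝ)) :
    pr f (res c d (∑ l ∈ S, t l • x l)) = ∑ l ∈ S, t l * pr f (res c d (x l)) := by
  classical
  induction S using Finset.induction_on with
  | empty => simp [res_zero_x, pr_zero_right]
  | insert l S hl ih =>
    rw [Finset.sum_insert hl, Finset.sum_insert hl, res_add_x, pr_add_right, res_smul_x, pr_smul_right, ih]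

/-- the restriction of a vector which is not touched -/
lemma res_zero_of {y : ℕ →₀ ℝ} {lo hi c d : ℕ} (hy : Sup y lo hi) (h : hi < c ∨ d < lo) : res c d y = 0 := by
  ext k
  rw [res_apply, Finsupp.coe_zero, Pi.zero_apply]
  split_ifs with hk
  · by_contra hne
    have := hy k hne
    omega
  · rfl

lemma res_self {y : ℕ →₀ ℝ} {lo hi c d : ℕ} (hy : Sup y lo hi) (h1 : c ≤ lo) (h2 : hi ≤ d) : res c d y = y := by
  ext k
  rw [res_apply]
  split_ifs with hk
  · rfl
  · by_contra hne
    have := hy k (Ne.symm hne)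
    omega

/-- action of a functional on a vector with disjoint support interval -/
lemma pr_disj {f : ℕ →₀ ℚ} {y : ℕ →₀ ℝ} {l₁ u₁ l₂ u₂ : ℕ} (hf : ∀ k, f k ≠ 0 → l₁ ≤ k ∧ k ≤ u₁)
    (hy : Sup y l₂ u₂) (h : u₁ < l₂ ∨ u₂ < l₁) : pr f y = 0 := by
  rw [pr_eq_sum _ _ _ subset_rfl]
  refine Finset.sum_eq_zero fun k hk => ?_
  have h1 := hf k (by simpa using hk)
  have : y k = 0 := by
    by_contra hne
    have := hy k hne
    omega
  rw [this, mul_zero]

variable {i : ℕ} {G : ℕ → Node} {y : ℕ → (ℕ →₀ ℝ)} {e : ℕ} {a : ℕ → ℝ} {ε : ℝ}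

/-- the pair number `m` is completely matched in the piece -/
def Gd (G : ℕ → Node) (p : Pc) (m : ℕ) : Prop :=
  2 * m + 1 < p.gs.length ∧ p.gs.take (2 * m + 2) = pre G (2 * m + 2) ∧ p.c ≤ (G (2 * m)).lo ∧
    (G (2 * m + 1)).hi ≤ p.d

/-- value of a piece on a vector, up to `v` -/
noncomputable def cv (p : Pc) (x : ℕ →₀ ℝ) : ℝ := pr (sumf p.gs) (res p.c p.d x)

lemma cv_eq (p : Pc) (x : ℕ →₀ ℝ) : cv p x = ∑ k ∈ Finset.range p.gs.length, pr (p.nd k).f (res p.c p.d x) := by
  unfold cv
  rw [sumf_eq]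

lemma Gd_one {p : Pc} {H : ℕ} (hp : PL H p) (hD : Dep i G y) {m l : ℕ} (hg : Gd G p m) (hl : l / 2 = m) :
    cv p (y l) = 1 := by
  obtain ⟨h1, h2, h3, h4⟩ := hg
  have hlen : l < p.gs.length := by omega
  have hnd : p.nd l = G l := by
    rw [Pc.nd_eq p l hlen]
    have h5 : (p.gs.take (2 * m + 2))[l]? = (pre G (2 * m + 2))[l]? := by rw [h2]
    rw [List.getElem?_take, if_pos (by omega)] at h5
    rw [List.getElem?_eq_getElem hlen, List.getElem?_eq_getElem (by rw [pre_length]; omega), pre_getElem] at h5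
    exact Option.some.inj h5
  have hlo : p.c ≤ (G l).lo := by
    rcases Nat.lt_or_ge (2 * m) l with h6 | h6
    · have := hD.hi_lt h6
      have := hD.le (2 * m)
      omega
    · have : l = 2 * m := by omega
      rw [this]; exact h3
  have hhi : (G l).hi ≤ p.d := (hD.hi_mono (show l ≤ 2 * m + 1 by omega)).trans h4
  rw [cv_eq, res_self (hD.sup l) hlo hhi, Finset.sum_eq_single l]
  · rw [hnd]; exact hD.one l
  · intro k hk hkl
    rw [Finset.mem_range] at hk
    have hsup := (Tr_spec (hp.node' hk)).2.2.2.1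
    refine pr_disj hsup (hD.sup l) ?_
    rcases Nat.lt_or_gt_of_ne hkl with h6 | h6
    · left
      have := nd_lt hp h6 hlen
      rwa [hnd] at this
    · right
      have := nd_lt hp h6 hk
      rwa [hnd] at this
  · intro h6
    exact absurd (Finset.mem_range.2 hlen) h6

/-- a node with the letter of the dependent sequence -/
lemma sg_eq {p : Pc} (hi : p.i = i) {k l : ℕ} (hk : k < p.gs.length) (h : p.sg k = sg i (pre G l)) :
    k = l ∧ p.gs.take l = pre G l := by
  unfold Pc.sg at h
  rw [hi] at h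
  have h1 := sg_inj h
  have h2 := congrArg List.length h1
  rw [pre_length, List.length_take] at h2
  have h3 : k = l := by omega
  rw [h3] at h1
  exact ⟨h3, h1⟩

open Classical in
/-- the value of the piece on the alternating average -/
lemma cv_alt {p : Pc} {H : ℕ} (hp : PL H p) (hD : Dep i G y) (ha : PairAv i e G a ε) :
    |cv p (∑ l ∈ Finset.range (2 * e), a (l / 2) • ((-1 : ℝ) ^ l • y l))| ≤
      ∑ l ∈ Finset.range (2 * e), a (l / 2) * (if Gd G p (l / 2) then 0 else |cv p (y l)|) := by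
  have h1 : cv p (∑ l ∈ Finset.range (2 * e), a (l / 2) • ((-1 : ℝ) ^ l • y l)) =
      ∑ m ∈ Finset.range e, a m * (cv p (y (2 * m)) - cv p (y (2 * m + 1))) := by
    unfold cv
    rw [pr_res_sum, sum_pairs]
    refine Finset.sum_congr rfl fun m _ => ?_
    rw [show 2 * m / 2 = m by omega, show (2 * m + 1) / 2 = m by omega, res_smul_x, pr_smul_right, res_smul_x,
      pr_smul_right, pow_succ, pow_mul]
    norm_num
    ring
  rw [h1, sum_pairs]
  refine (Finset.abs_sum_le_sum_abs _ _).trans (Finset.sum_le_sum fun m _ => ?_)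
  rw [show 2 * m / 2 = m by omega, show (2 * m + 1) / 2 = m by omega, abs_mul, abs_of_nonneg (ha.nn m)]
  by_cases hg : Gd G p m
  · rw [if_pos hg, if_pos hg, Gd_one hp hD hg (by omega), Gd_one hp hD hg (by omega)]
    simp
  · rw [if_neg hg, if_neg hg, ← mul_add]
    exact mul_le_mul_of_nonneg_left (abs_sub _ _) (ha.nn m)

/-- nodes with a different letter -/
noncomputable def cvA (J : ℕ) (p : Pc) (x : ℕ →₀ ℝ) : ℝ :=
  ∑ k ∈ (Finset.range p.gs.length).filter (fun k => p.sg k ≠ J), |pr (p.nd k).f (res p.c p.d x)|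

/-- nodes with the same letter -/
noncomputable def cvB (J : ℕ) (p : Pc) (x : ℕ →₀ ℝ) : ℝ :=
  ∑ k ∈ (Finset.range p.gs.length).filter (fun k => ¬ p.sg k ≠ J), |pr (p.nd k).f (res p.c p.d x)|

lemma cv_le (J : ℕ) (p : Pc) (x : ℕ →₀ ℝ) : |cv p x| ≤ cvA J p x + cvB J p x := by
  unfold cvA cvB
  rw [Finset.sum_filter_add_sum_filter_not, cv_eq]
  exact Finset.abs_sum_le_sum_abs _ _

lemma list_sum_filter (n : ℕ) (P : ℕ → Prop) [DecidablePred P] (f : ℕ → ℝ) :
    (((List.range n).filter fun k => decide (P k)).map f).sum = ∑ l ∈ (Finset.range n).filter P, f l := by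
  induction n with
  | zero => simp
  | succ n ih =>
    rw [List.range_succ, List.filter_append, List.map_append, List.sum_append, ih, Finset.range_add_one,
      Finset.filter_insert]
    by_cases h : P n
    · rw [if_pos h, Finset.sum_insert (by simp)]
      simp [h]
      ring
    · rw [if_neg h]
      simp [h]

lemma bind_sublist {α : Type} {F F' : List α} (h : F'.Sublist F) (π : α → List Sym) {A B : α → List En}
    (hAB : ∀ a ∈ F, (A a).Sublist (B a)) : (bind F' π A).Sublist (bind F π B) := by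
  unfold bind
  induction h with
  | slnil => simp
  | cons a _ ih =>
    rw [List.flatMap_cons]
    exact (ih fun b hb => hAB b (List.mem_cons_of_mem _ hb)).trans (List.sublist_append_right _ _)
  | cons_cons a _ ih =>
    rw [List.flatMap_cons, List.flatMap_cons]
    exact ((hAB a List.mem_cons_self).map _).append (ih fun b hb => hAB b (List.mem_cons_of_mem _ hb))

/-- the pieces of a forest at the root -/
lemma pieces_key {b n : ℕ} {F : List En} (hF : Leg b n F) {e' : En} (he : e' ∈ part (.O i) F) :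
    ∃ p, e'.a = .pc p ∧ p.i = i ∧ word e'.p = [] ∧ PLg p := by
  obtain ⟨hw, p, hp, hi⟩ := kd_O (mem_part.1 he).2
  exact ⟨p, hp, hi, hw, hF.1.pcs e' (mem_part.1 he).1 p hp⟩

/-- the sum of all `|node|` is dominated by the forest of nodes -/
lemma sum_cv_le {b n : ℕ} {F : List En} (hF : Leg b n F) (J : ℕ) (x : ℕ →₀ ℝ) :
    ((part (.O i) F).map fun e' => cvA J e'.a.thePc x + cvB J e'.a.thePc x).sum ≤ Phi (der (.O i) F) x := by
  have key : ∀ e' ∈ part (.O i) F, cvA J e'.a.thePc x + cvB J e'.a.thePc x ≤ Phi (ndF e'.a.thePc) x := by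
    intro e' he'
    obtain ⟨p, hp, hi, hw, H, hH⟩ := pieces_key hF he'
    rw [hp]
    show cvA J p x + cvB J p x ≤ Phi (ndF p) x
    unfold cvA cvB ndF
    rw [Finset.sum_filter_add_sum_filter_not, Phi_bind]
    simp only [word_nms, cf_nil, one_mul]
    rw [list_sum_range]
    exact Finset.sum_le_sum fun l hl => ndT_dom hH (Finset.mem_range.1 hl) x
  unfold der
  rw [Phi_bind]
  simp only [word_nms, cf_nil, one_mul]
  exact List.sum_le_sum key

/-- the forest of nodes with letters different from `J` -/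
noncomputable def derN (i J : ℕ) (F : List En) : List En :=
  bind (part (.O i) F) (fun e => nms (adr e.p)) (fun e =>
    bind ((List.range e.a.thePc.gs.length).filter fun k => decide (e.a.thePc.sg k ≠ J))
      (fun l => nms (e.a.thePc.ad l)) (ndT e.a.thePc))

lemma derN_sub (i J : ℕ) (F : List En) : (derN i J F).Sublist (der (.O i) F) := by
  unfold derN der
  refine bind_sublist (List.Sublist.refl _) _ fun e' _ => ?_
  exact bind_sublist List.filter_sublist _ fun _ _ => List.Sublist.refl _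

lemma sum_cvA_le {b n : ℕ} {F : List En} (hF : Leg b n F) (J : ℕ) (x : ℕ →₀ ℝ) :
    ((part (.O i) F).map fun e' => cvA J e'.a.thePc x).sum ≤ Phi (derN i J F) x := by
  unfold derN
  rw [Phi_bind]
  simp only [word_nms, cf_nil, one_mul]
  refine List.sum_le_sum fun e' he' => ?_
  obtain ⟨p, hp, hi, hw, H, hH⟩ := pieces_key hF he'
  rw [hp]
  show cvA J p x ≤ Phi (bind ((List.range p.gs.length).filter fun k => decide (p.sg k ≠ J))
      (fun l => nms (p.ad l)) (ndT p)) x
  unfold cvA
  rw [Phi_bind]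
  simp only [word_nms, cf_nil, one_mul]
  rw [list_sum_filter]
  exact Finset.sum_le_sum fun l hl => ndT_dom hH (Finset.mem_range.1 (Finset.mem_filter.1 hl).1) x

lemma derN_kd {b n : ℕ} {F : List En} (hF : Leg b n F) (J : ℕ) {e' : En} (he : e' ∈ derN i J F) :
    ∃ k, k ≠ J ∧ i < k ∧ e'.kd = some (.E k) := by
  unfold derN at he
  obtain ⟨e₁, he₁, e₂, he₂, rfl⟩ := mem_bind.1 he
  obtain ⟨p, hp, hi, hw, H, hH⟩ := pieces_key hF he₁
  rw [hp] at he₂
  have h0 : (At.pc p).thePc = p := rfl
  rw [h0] at he₂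
  obtain ⟨l, hl, e₃, he₃, rfl⟩ := mem_bind.1 he₂
  rw [List.mem_filter] at hl
  obtain ⟨q, hq⟩ := ndT_word hH (List.mem_range.1 hl.1) he₃
  refine ⟨p.sg l, by simpa using hl.2, ?_, ?_⟩
  · unfold Pc.sg
    rw [hi]
    exact lt_sg _ _
  · have h1 : word ((e₃.pre (nms (p.ad l))).pre (nms (adr e₁.p))).p = .E (p.sg l) :: word q := by
      rw [En.pre_p, En.pre_p, hq]
      simp
    rw [kd_of_word h1]
    rfl

/-- nodes with different letters are small on the vectors of the dependent sequence -/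
lemma sum_cvA_small (hD : Dep i G y) {m l : ℕ} {F : List En} (hF : Leg 0 m F) (hm : m + 2 ≤ s i) :
    ((part (.O i) F).map fun e' => cvA (sg i (pre G l)) e'.a.thePc (y l)).sum ≤
      3 / w (i + 1) + 3 / w (i + 1) * 45 := by
  classical
  set j := sg i (pre G l) with hj
  have hij : i < j := lt_sg i _
  have hsi := hD.rank l
  rw [← hj] at hsi
  have hwj : (w (i + 1) : ℝ) ≤ w j := by exact_mod_cast w_mono (by omega : i + 1 ≤ j)
  have hwp : (0 : ℝ) < w (i + 1) := by
    have := w_pos (i + 1)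
    exact_mod_cast (by omega : 0 < w (i + 1))
  refine (sum_cvA_le hF j (y l)).trans ?_
  have hN0 : Leg (kctx 0 (.O i)) (m + s i) (derN i j F) := (der_leg hF (.O i)).sub (derN_sub i j F)
  have hN : Leg (i + 1) (m + s i) (derN i j F) := by
    have : kctx 0 (.O i) = i + 1 := by simp [kctx]
    rwa [this] at hN0
  let P : En → Bool := fun e => decide (∃ κ : Kd, e.kd = some κ ∧ κ.Hi (2 * j + 1))
  rw [Phi_filt _ P]
  have h1 : Phi ((derN i j F).filter P) (y l) ≤ 3 / w (i + 1) := by
    refine (hD.e3 l (m + s i) _ (by rw [← hj]; omega)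
      ((hN.sub List.filter_sublist).mono (Nat.zero_le _)) ?_).trans ?_
    · intro e he
      rw [List.mem_filter] at he
      simpa [P] using he.2
    · rw [← hj]
      gcongr
  have h2 : Phi ((derN i j F).filter fun e => !P e) (y l) ≤ 3 / w (i + 1) * 45 := by
    set F'' := (derN i j F).filter fun e => !P e with hF''
    have hL : Leg (i + 1) (m + s i) F'' := hN.sub List.filter_sublist
    have hmem : ∀ e ∈ F'', ∃ κ : Kd, e.kd = some κ ∧ κ.Hi (2 * i + 2) ∧ κ.rk ≤ s (j - 1) ∧ kctx (i + 1) κ = i + 1 := by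
      intro e he
      rw [hF'', List.mem_filter] at he
      obtain ⟨k, hk1, hk2, hk3⟩ := derN_kd hF j he.1
      refine ⟨.E k, hk3, ?_, ?_, ?_⟩
      · simp only [Kd.Hi]; omega
      · have h5 : ¬ (Kd.E k).Hi (2 * j + 1) := by
          intro h6
          have : P e = true := by simp only [P, decide_eq_true_eq]; exact ⟨_, hk3, h6⟩
          simp [this] at he
        simp only [Kd.Hi] at h5
        show rn k ≤ s (j - 1)
        have := rho_mono (show 2 * k ≤ 2 * (j - 1) + 1 by omega)
        rwa [rho_even, rho_odd] at this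
      · simp only [kctx]
    have hl : lvs F'' = [] := by
      unfold lvs
      rw [List.filter_eq_nil_iff]
      intro e he
      obtain ⟨κ, hκ, _⟩ := hmem e he
      simp [hκ]
    rw [Phi_split, hl, Phi_nil, zero_add]
    have hK : ∀ κ ∈ kinds F'', κ.Hi (2 * i + 2) ∧ κ.rk ≤ s (j - 1) ∧ kctx (i + 1) κ = i + 1 := by
      intro κ hκ
      obtain ⟨e, he, hke⟩ := mem_kinds.1 hκ
      obtain ⟨κ', hκ', h7⟩ := hmem e he
      rw [hke] at hκ'
      obtain rfl := Option.some.inj hκ'
      exact h7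
    have h8 : ∀ κ ∈ kinds F'', Phi (part κ F'') (y l) ≤ 1 / κ.wt * 45 := by
      intro κ hκ
      refine (Phi_part_le hL κ _).trans ?_
      refine mul_le_mul_of_nonneg_left ?_ (one_div_nonneg.2 κ.wt_pos.le)
      have hd := der_leg hL κ
      rw [(hK κ hκ).2.2] at hd
      refine hD.e1 l _ _ ?_ hd
      rw [← hj]
      have := (hK κ hκ).2.1
      omega
    refine (Finset.sum_le_sum h8).trans ?_
    rw [← Finset.sum_mul]
    refine mul_le_mul_of_nonneg_right ?_ (by norm_num)
    have := sum_hi (kinds F'') (2 * i + 2) fun κ hκ => (hK κ hκ).1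
    rwa [show 2 * i + 2 = 2 * (i + 1) by ring, om_even] at this
  linarith

end Pool.Agent.Helper64.Hit
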