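import Pool.Agent.Helper64.Hit.Hi2

/-!
# Estimates on dependent sequences, part 3
-/

set_option autoImplicit false

namespace Pool.Agent.Helper64.Hit

variable {i : ℕ} {G : ℕ → Node} {y : ℕ → (ℕ →₀ ℝ)} {e : ℕ} {a : ℕ → ℝ} {ε : ℝ}

/-- the piece meets the vector number `l` with the right letter -/
def Mt (G : ℕ → Node) (p : Pc) (l : ℕ) : Prop :=
  l < p.gs.length ∧ p.gs.take l = pre G l ∧ p.c ≤ (G l).hi ∧ (G l).lo ≤ p.d

lemma cvB_zero (hD : Dep i G y) {p : Pc} (hi : p.i = i) {l : ℕ} (h : ¬ Mt G p l) :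
    cvB (sg i (pre G l)) p (y l) = 0 := by
  unfold cvB
  refine Finset.sum_eq_zero fun k hk => ?_
  rw [Finset.mem_filter, Finset.mem_range, not_not] at hk
  obtain ⟨hkl, ht⟩ := sg_eq hi hk.1 hk.2
  subst hkl
  have : res p.c p.d (y k) = 0 := by
    refine res_zero_of (hD.sup k) ?_
    by_contra hc
    push Not at hc
    exact h ⟨hk.1, ht, hc.1, hc.2⟩
  rw [this, pr_zero_right, abs_zero]

open Classical in
/-- first index touched -/
noncomputable def fi (G : ℕ → Node) (p : Pc) : ℕ := if h : ∃ l, p.c ≤ (G l).hi then Nat.find h else 0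

open Classical in
/-- last index -/
noncomputable def la (G : ℕ → Node) (p : Pc) : ℕ :=
  ((Finset.range p.gs.length).filter fun l => p.gs.take l = pre G l ∧ (G l).lo ≤ p.d).sup id

lemma Mt_pair (hD : Dep i G y) {p : Pc} {l : ℕ} (h : Mt G p l) (hg : ¬ Gd G p (l / 2)) :
    l / 2 = fi G p / 2 ∨ l / 2 = la G p / 2 := by
  classical
  by_contra hc
  push Not at hc
  obtain ⟨hc1, hc2⟩ := hc
  obtain ⟨h1, h2, h3, h4⟩ := h
  have hex : ∃ l, p.c ≤ (G l).hi := ⟨l, h3⟩
  have hf1 : p.c ≤ (G (fi G p)).hi := by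
    unfold fi
    rw [dif_pos hex]
    exact Nat.find_spec hex
  have hf2 : fi G p ≤ l := by
    unfold fi
    rw [dif_pos hex]
    exact Nat.find_min' hex h3
  set S := (Finset.range p.gs.length).filter fun l => p.gs.take l = pre G l ∧ (G l).lo ≤ p.d with hS
  have hlS : l ∈ S := by
    rw [hS, Finset.mem_filter, Finset.mem_range]
    exact ⟨h1, h2, h4⟩
  have hl2 : l ≤ la G p := by
    unfold la
    exact Finset.le_sup (f := id) hlS
  have hlaS : la G p ∈ S := by
    unfold la
    obtain ⟨b, hb, hb2⟩ := Finset.exists_mem_eq_sup S ⟨l, hlS⟩ id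
    rw [← hS, hb2]
    exact hb
  rw [hS, Finset.mem_filter, Finset.mem_range] at hlaS
  obtain ⟨h5, h6, h7⟩ := hlaS
  refine hg ⟨by omega, ?_, ?_, ?_⟩
  · have := congrArg (List.take (2 * (l / 2) + 2)) h6
    rw [List.take_take, min_eq_left (by omega), pre_take G (by omega)] at this
    exact this
  · have := hD.hi_lt (show fi G p < 2 * (l / 2) by omega)
    omega
  · have := hD.hi_lt (show 2 * (l / 2) + 1 < la G p by omega)
    omega

/-- mass of a set of indices determined by pieces -/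
lemma mass_t (hD : Dep i G y) (ha : PairAv i e G a ε) {m : ℕ} {F : List En} (hF : Leg 0 m F)
    (hm : m + 2 ≤ s i) (t : En → ℕ) {Z : Finset ℕ} (hZ : Z ⊆ Finset.range (2 * e))
    (h : ∀ l ∈ Z, ∃ e' ∈ part (.O i) F, l / 2 = t e' ∧ e'.pos ≤ (G l).hi) :
    ∑ l ∈ Z, a (l / 2) ≤ 2 * ε := by
  classical
  have key : ∀ r ≤ 1, ∑ l ∈ Z.filter (fun l => l % 2 = r), a (l / 2) ≤ ε := by
    intro r hr
    refine ha.mass1 hD hr ((Finset.filter_subset _ _).trans hZ) (fun l hl => (Finset.mem_filter.1 hl).2) hm ?_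
    have hne : Nonempty En := ⟨⟨[], .leaf 0⟩⟩
    choose! f hf using h
    have hsub : ∀ l ∈ Z.filter (fun l => l % 2 = r), l ∈ Z := fun l hl => (Finset.mem_filter.1 hl).1
    have hmem : ∀ l ∈ Z, f l ∈ F := fun l hl => (mem_part.1 (hf l hl).1).1
    refine adm_of_entries hF.1 _ _ f (fun l hl => hmem l (hsub l hl)) (fun l hl => (hf l (hsub l hl)).2.2) ?_
    intro l hl l' hl' hne'
    have h1 := (Finset.mem_filter.1 hl).2
    have h2 := (Finset.mem_filter.1 hl').2
    have h3 : l / 2 ≠ l' / 2 := by omega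
    refine adr_ne_of_nil hF.1 (hmem l (hsub l hl)) (hmem l' (hsub l' hl')) ?_ ?_
    · intro h4
      apply h3
      rw [(hf l (hsub l hl)).2.1, (hf l' (hsub l' hl')).2.1, h4]
    · exact (kd_O (mem_part.1 (hf l (hsub l hl)).1).2).1
  have h0 := key 0 (by omega)
  have h1 := key 1 le_rfl
  rw [← Finset.sum_filter_add_sum_filter_not Z (fun l => l % 2 = 0)]
  have h2 : Z.filter (fun l => ¬ l % 2 = 0) = Z.filter (fun l => l % 2 = 1) := by
    refine Finset.filter_congr fun l _ => ?_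
    omega
  rw [h2]
  linarith

lemma list_sum_comm {α : Type} (L : List α) (S : Finset ℕ) (c : ℕ → ℝ) (f : α → ℕ → ℝ) :
    (L.map fun b => ∑ l ∈ S, c l * f b l).sum = ∑ l ∈ S, c l * (L.map fun b => f b l).sum := by
  induction L with
  | nil => simp
  | cons b L ih =>
    simp only [List.map_cons, List.sum_cons]
    rw [ih, ← Finset.sum_add_distrib]
    refine Finset.sum_congr rfl fun l _ => ?_
    ring

/-- the alternating average -/
noncomputable def zz (e : ℕ) (a : ℕ → ℝ) (y : ℕ → (ℕ →₀ ℝ)) : ℕ →₀ ℝ :=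
  ∑ l ∈ Finset.range (2 * e), a (l / 2) • ((-1 : ℝ) ^ l • y l)

/-- pieces of index `i` on the alternating average -/
lemma O_est (hD : Dep i G y) (ha : PairAv i e G a ε) {m : ℕ} {F : List En} (hF : Leg 0 m F)
    (hm : m + 2 ≤ s i) : Phi (part (.O i) F) (zz e a y) ≤
      1 / (v i : ℝ) * (2 * (3 / w (i + 1) + 3 / w (i + 1) * 45) + 4 * ε * 45) := by
  classical
  have hv : (0 : ℝ) ≤ 1 / (v i : ℝ) := by positivity
  -- first bound
  let g : En → ℕ → ℝ := fun e' l => cvA (sg i (pre G l)) e'.a.thePc (y l) +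
    (if Gd G e'.a.thePc (l / 2) then 0 else cvB (sg i (pre G l)) e'.a.thePc (y l))
  have h1 : Phi (part (.O i) F) (zz e a y) ≤
      1 / (v i : ℝ) * ((part (.O i) F).map fun e' => ∑ l ∈ Finset.range (2 * e), a (l / 2) * g e' l).sum := by
    have : ∀ e' ∈ part (.O i) F, e'.cf * |e'.a.val (zz e a y)| ≤
        1 / (v i : ℝ) * ∑ l ∈ Finset.range (2 * e), a (l / 2) * g e' l := by
      intro e' he'
      obtain ⟨p, hp, hi, hw, H, hH⟩ := pieces_key hF he'
      unfold En.cf
      rw [hw, cf_nil, one_mul, hp, val_pc, hi, abs_mul, abs_of_nonneg hv]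
      refine mul_le_mul_of_nonneg_left ?_ hv
      refine (cv_alt hH hD ha).trans (Finset.sum_le_sum fun l _ => ?_)
      refine mul_le_mul_of_nonneg_left ?_ (ha.nn _)
      show _ ≤ cvA (sg i (pre G l)) e'.a.thePc (y l) +
        (if Gd G e'.a.thePc (l / 2) then 0 else cvB (sg i (pre G l)) e'.a.thePc (y l))
      rw [hp]
      show _ ≤ cvA (sg i (pre G l)) p (y l) + (if Gd G p (l / 2) then 0 else cvB (sg i (pre G l)) p (y l))
      have hA : 0 ≤ cvA (sg i (pre G l)) p (y l) := Finset.sum_nonneg fun _ _ => abs_nonneg _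
      split_ifs
      · linarith
      · exact cv_le _ _ _
    unfold Phi
    generalize part (.O i) F = L at this
    induction L with
    | nil => simp
    | cons e' L ih =>
      simp only [List.map_cons, List.sum_cons]
      have h2 := this e' List.mem_cons_self
      have h3 := ih fun e'' he'' => this e'' (List.mem_cons_of_mem _ he'')
      rw [mul_add]
      linarith
  refine h1.trans (mul_le_mul_of_nonneg_left ?_ hv)
  rw [list_sum_comm]
  -- the exceptional set
  let Z := (Finset.range (2 * e)).filter fun l =>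
    ∃ e' ∈ part (.O i) F, Mt G e'.a.thePc l ∧ ¬ Gd G e'.a.thePc (l / 2)
  have hZ : Z ⊆ Finset.range (2 * e) := Finset.filter_subset _ _
  have hpos : ∀ e' ∈ part (.O i) F, ∀ l, Mt G e'.a.thePc l → e'.pos ≤ (G l).hi := by
    intro e' he' l hM
    obtain ⟨p, hp, hi, hw, H, hH⟩ := pieces_key hF he'
    rw [hp] at hM
    unfold En.pos
    rw [hp]
    exact hM.2.2.1
  refine ha.bound (μ := 4 * ε) hZ (by positivity) (by norm_num) ?_ ?_ ?_
  · intro l hl hlZ
    have h2 : ∀ e' ∈ part (.O i) F, g e' l ≤ cvA (sg i (pre G l)) e'.a.thePc (y l) := by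
      intro e' he'
      show cvA (sg i (pre G l)) e'.a.thePc (y l) +
        (if Gd G e'.a.thePc (l / 2) then 0 else cvB (sg i (pre G l)) e'.a.thePc (y l)) ≤ _
      split_ifs with hg
      · simp
      · have h3 : ¬ Mt G e'.a.thePc l := fun hM => hlZ (Finset.mem_filter.2 ⟨hl, e', he', hM, hg⟩)
        obtain ⟨p, hp, hi, hw, H, hH⟩ := pieces_key hF he'
        have h4 := cvB_zero hD (p := e'.a.thePc) (by rw [hp]; exact hi) h3
        rw [h4, add_zero]
    exact (List.sum_le_sum h2).trans (sum_cvA_small hD hF hm)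
  · intro l _
    have h2 : ∀ e' ∈ part (.O i) F, g e' l ≤ cvA (sg i (pre G l)) e'.a.thePc (y l) +
        cvB (sg i (pre G l)) e'.a.thePc (y l) := by
      intro e' he'
      show cvA (sg i (pre G l)) e'.a.thePc (y l) +
        (if Gd G e'.a.thePc (l / 2) then 0 else cvB (sg i (pre G l)) e'.a.thePc (y l)) ≤ _
      have hB : 0 ≤ cvB (sg i (pre G l)) e'.a.thePc (y l) := Finset.sum_nonneg fun _ _ => abs_nonneg _
      split_ifs
      · linarith
      · exact le_rfl
    refine (List.sum_le_sum h2).trans ((sum_cv_le hF _ _).trans ?_)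
    have hd := der_leg hF (.O i)
    have hc : kctx 0 (.O i) = i + 1 := by simp [kctx]
    rw [hc] at hd
    refine hD.e1 l _ _ ?_ hd
    have := hD.rank l
    show m + s i ≤ _
    omega
  · -- the mass of the exceptional set
    have hsplit : Z ⊆ (Z.filter fun l => ∃ e' ∈ part (.O i) F, l / 2 = fi G e'.a.thePc / 2 ∧ e'.pos ≤ (G l).hi) ∪
        (Z.filter fun l => ∃ e' ∈ part (.O i) F, l / 2 = la G e'.a.thePc / 2 ∧ e'.pos ≤ (G l).hi) := by
      intro l hl
      obtain ⟨e', he', hM, hg⟩ := (Finset.mem_filter.1 hl).2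
      rcases Mt_pair hD hM hg with h2 | h2
      · exact Finset.mem_union.2 (Or.inl (Finset.mem_filter.2 ⟨hl, e', he', h2, hpos e' he' l hM⟩))
      · exact Finset.mem_union.2 (Or.inr (Finset.mem_filter.2 ⟨hl, e', he', h2, hpos e' he' l hM⟩))
    refine (Finset.sum_le_sum_of_subset_of_nonneg hsplit fun l _ _ => ha.nn _).trans ?_
    have hun : ∀ S T : Finset ℕ, ∑ l ∈ S ∪ T, a (l / 2) ≤ ∑ l ∈ S, a (l / 2) + ∑ l ∈ T, a (l / 2) := by
      intro S T
      rw [← Finset.sum_union_inter]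
      have : 0 ≤ ∑ l ∈ S ∩ T, a (l / 2) := Finset.sum_nonneg fun _ _ => ha.nn _
      linarith
    refine (hun _ _).trans ?_
    have h2 := mass_t hD ha hF hm (fun e' => fi G e'.a.thePc / 2)
      (Z := Z.filter fun l => ∃ e' ∈ part (.O i) F, l / 2 = fi G e'.a.thePc / 2 ∧ e'.pos ≤ (G l).hi)
      ((Finset.filter_subset _ _).trans hZ) (fun l hl => (Finset.mem_filter.1 hl).2)
    have h3 := mass_t hD ha hF hm (fun e' => la G e'.a.thePc / 2)
      (Z := Z.filter fun l => ∃ e' ∈ part (.O i) F, l / 2 = la G e'.a.thePc / 2 ∧ e'.pos ≤ (G l).hi)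
      ((Finset.filter_subset _ _).trans hZ) (fun l hl => (Finset.mem_filter.1 hl).2)
    linarith

end Pool.Agent.Helper64.Hit
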