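import Pool.Agent.Helper64.Hit.Hi3

/-!
# Estimates on dependent sequences, part 4: the alternating average
-/

set_option autoImplicit false

namespace Pool.Agent.Helper64.Hit

variable {i : ℕ} {G : ℕ → Node} {y : ℕ → (ℕ →₀ ℝ)} {e : ℕ} {a : ℕ → ℝ} {ε : ℝ}

lemma Phi_zz_le (ha : PairAv i e G a ε) (F : List En) :
    Phi F (zz e a y) ≤ ∑ l ∈ Finset.range (2 * e), a (l / 2) * Phi F (y l) := by
  unfold zz
  refine (Phi_sum_le F _ (fun l => a (l / 2)) (fun l _ => ha.nn _) fun l => (-1 : ℝ) ^ l • y l).trans ?_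
  simp only [Phi_sign, le_refl]

/-- leaves at the root -/
lemma leaf_est (hD : Dep i G y) (ha : PairAv i e G a ε) {m : ℕ} {F : List En} (hF : Leg 0 m F)
    (hm : m + 2 ≤ s i) : Phi (lvs F) (zz e a y) ≤ 2 * ε * (45 * Gam (i + 1)) := by
  classical
  refine (Phi_zz_le ha _).trans ?_
  let Z := (Finset.range (2 * e)).filter fun l => ∃ e' ∈ lvs F, (G l).lo ≤ e'.pos ∧ e'.pos ≤ (G l).hi
  have hZ : Z ⊆ Finset.range (2 * e) := Finset.filter_subset _ _
  have hex : ∀ l ∈ Z, ∃ e' ∈ lvs F, (G l).lo ≤ e'.pos ∧ e'.pos ≤ (G l).hi :=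
    fun l hl => (Finset.mem_filter.1 hl).2
  have := ha.bound (f := fun l => Phi (lvs F) (y l)) (c := 0) (K := 45 * Gam (i + 1)) (μ := 2 * ε) hZ le_rfl
    (by positivity) ?_ ?_ ?_
  · simpa using this
  · intro l hl hlZ
    refine (Phi_eq_zero_of fun e' he' => ?_).le
    obtain ⟨hw, k, hk⟩ := kd_none (mem_lvs.1 he').2
    rw [hk, val_leaf]
    by_contra hne
    have h1 := hD.sup l k hne
    have h2 : e'.pos = k := by unfold En.pos; rw [hk]; rfl
    exact hlZ (Finset.mem_filter.2 ⟨hl, e', he', by omega, by omega⟩)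
  · intro l _
    exact hD.e2 l m _ (by have := hD.rank l; omega) (hF.sub (lvs_sub F))
  · refine ha.mass hD hZ hm ?_
    have hne : Nonempty En := ⟨⟨[], .leaf 0⟩⟩
    choose! f hf using hex
    have hmem : ∀ l ∈ Z, f l ∈ F := fun l hl => (mem_lvs.1 (hf l hl).1).1
    refine adm_of_entries hF.1 Z _ f hmem (fun l hl => (hf l hl).2.2) ?_
    intro l hl l' hl' hne'
    refine adr_ne_of_nil hF.1 (hmem l hl) (hmem l' hl') ?_ (kd_none (mem_lvs.1 (hf l hl).1).2).1
    intro h
    have h1 := hf l hl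
    have h2 := hf l' hl'
    rw [h] at h1
    rcases Nat.lt_or_gt_of_ne hne' with h3 | h3
    · have := hD.hi_lt h3
      omega
    · have := hD.hi_lt h3
      omega

/-- the error term -/
noncomputable def XX (i : ℕ) (ε : ℝ) : ℝ :=
  (2 * (3 / w (i + 1) + 3 / w (i + 1) * (45 * Gam (i + 1))) + 2 * ε * (45 * Gam (i + 1))) +
    2 * ε * (45 * Gam (i + 1)) + 1 / ((R i : ℝ) * v i) * 90 +
    1 / (v i : ℝ) * (2 * (3 / w (i + 1) + 3 / w (i + 1) * 45) + 4 * ε * 45)

lemma XX_nonneg (i : ℕ) {ε : ℝ} (hε : 0 ≤ ε) : 0 ≤ XX i ε := by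
  unfold XX
  positivity

/-- the main induction -/
theorem hi_step (hD : Dep i G y) (ha : PairAv i e G a ε) : ∀ (k m : ℕ) (F : List En), Leg 0 m F →
    m + rn i * k + 2 ≤ s i → Phi F (zz e a y) ≤ 4 / 3 * XX i ε + 90 * Gam (i + 1) / 4 ^ k := by
  classical
  intro k
  induction k with
  | zero =>
    intro m F hF hm
    refine (Phi_zz_le ha F).trans ?_
    have h1 : ∑ l ∈ Finset.range (2 * e), a (l / 2) * Phi F (y l) ≤
        ∑ l ∈ Finset.range (2 * e), a (l / 2) * (45 * Gam (i + 1)) := by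
      refine Finset.sum_le_sum fun l _ => mul_le_mul_of_nonneg_left ?_ (ha.nn _)
      exact hD.e2 l m F (by have := hD.rank l; omega) hF
    rw [← Finset.sum_mul, ha.sum2] at h1
    have := XX_nonneg i ha.eps
    rw [pow_zero, div_one]
    linarith
  | succ k ih =>
    intro m F hF hm
    have hm2 : m + 2 ≤ s i := by
      have : rn i * (k + 1) = rn i * k + rn i := by ring
      omega
    set A := 4 / 3 * XX i ε with hA
    -- high kinds
    let P : En → Bool := fun e => decide (∃ κ : Kd, e.kd = some κ ∧ κ.Hi (2 * i + 2))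
    rw [Phi_filt F P]
    have h1 : Phi (F.filter P) (zz e a y) ≤
        2 * (3 / w (i + 1) + 3 / w (i + 1) * (45 * Gam (i + 1))) + 2 * ε * (45 * Gam (i + 1)) := by
      refine (Phi_zz_le ha _).trans (high_all hD ha (hF.sub List.filter_sublist) hm2 ?_)
      intro e' he'
      rw [List.mem_filter] at he'
      simpa [P] using he'.2
    set F1 := F.filter fun e => !P e with hF1
    have hL : Leg 0 m F1 := hF.sub List.filter_sublist
    have hK : ∀ κ ∈ kinds F1, ¬ κ.Hi (2 * i + 2) := by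
      intro κ hκ
      obtain ⟨e', he', hke⟩ := mem_kinds.1 hκ
      rw [hF1, List.mem_filter] at he'
      intro h
      have : P e' = true := by simp only [P, decide_eq_true_eq]; exact ⟨κ, hke, h⟩
      simp [this] at he'
    rw [Phi_split F1]
    have h2 := leaf_est hD ha hL hm2
    rw [← Finset.sum_filter_add_sum_filter_not (kinds F1) (fun κ => κ.Hi (2 * i + 1))]
    -- the special kinds
    have h3 : ∑ κ ∈ (kinds F1).filter (fun κ => κ.Hi (2 * i + 1)), Phi (part κ F1) (zz e a y) ≤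
        Phi (part (.C i) F1) (zz e a y) + Phi (part (.O i) F1) (zz e a y) := by
      have hsub : (kinds F1).filter (fun κ => κ.Hi (2 * i + 1)) ⊆ {.C i, .O i} := by
        intro κ hκ
        rw [Finset.mem_filter] at hκ
        have h4 := hK κ hκ.1
        have h5 := hκ.2
        rw [Finset.mem_insert, Finset.mem_singleton]
        cases κ with
        | E j => simp only [Kd.Hi] at h4 h5; omega
        | C j =>
          simp only [Kd.Hi] at h4 h5
          left
          rw [show j = i by omega]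
        | L j => exact absurd h5 (by simp only [Kd.Hi]; exact not_false)
        | O j =>
          simp only [Kd.Hi] at h4 h5
          right
          rw [show j = i by omega]
      refine (Finset.sum_le_sum_of_subset_of_nonneg hsub fun κ _ _ => Phi_nonneg _ _).trans ?_
      rw [Finset.sum_pair (by simp)]
    have h4 : Phi (part (.C i) F1) (zz e a y) ≤ 1 / ((R i : ℝ) * v i) * 90 := by
      refine (Phi_part_le hL (.C i) _).trans ?_
      have hw : (Kd.C i).wt = (R i : ℝ) * v i := rfl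
      rw [hw]
      refine mul_le_mul_of_nonneg_left ?_ (by positivity)
      have hd := der_leg hL (.C i)
      have hc : kctx 0 (.C i) = i + 1 := by simp [kctx]
      rw [hc] at hd
      refine (Phi_zz_le ha _).trans ?_
      have h5 : ∑ l ∈ Finset.range (2 * e), a (l / 2) * Phi (der (.C i) F1) (y l) ≤
          ∑ l ∈ Finset.range (2 * e), a (l / 2) * 45 := by
        refine Finset.sum_le_sum fun l _ => mul_le_mul_of_nonneg_left ?_ (ha.nn _)
        refine hD.e1 l _ _ ?_ hd
        have := hD.rank l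
        show m + s i ≤ _
        omega
      rw [← Finset.sum_mul, ha.sum2] at h5
      linarith
    have h5 := O_est hD ha hL hm2
    -- low kinds
    have h6 : ∑ κ ∈ (kinds F1).filter (fun κ => ¬ κ.Hi (2 * i + 1)), Phi (part κ F1) (zz e a y) ≤
        1 / 4 * (A + 90 * Gam (i + 1) / 4 ^ k) := by
      have hpos : 0 ≤ A + 90 * Gam (i + 1) / 4 ^ k := by
        have := XX_nonneg i ha.eps
        rw [hA]
        positivity
      have h7 : ∀ κ ∈ (kinds F1).filter (fun κ => ¬ κ.Hi (2 * i + 1)), Phi (part κ F1) (zz e a y) ≤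
          1 / κ.wt * (A + 90 * Gam (i + 1) / 4 ^ k) := by
        intro κ hκ
        rw [Finset.mem_filter] at hκ
        refine (Phi_part_le hL κ _).trans ?_
        refine mul_le_mul_of_nonneg_left ?_ (one_div_nonneg.2 κ.wt_pos.le)
        refine ih _ _ ((der_leg hL κ).mono (Nat.zero_le _)) ?_
        have h8 : κ.rk ≤ rho (2 * i) := rk_le hκ.2
        rw [rho_even] at h8
        have : rn i * (k + 1) = rn i * k + rn i := by ring
        omega
      refine (Finset.sum_le_sum h7).trans ?_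
      rw [← Finset.sum_mul]
      exact mul_le_mul_of_nonneg_right (sum_all _) hpos
    have h9 : (90 : ℝ) * Gam (i + 1) / 4 ^ k = 4 * (90 * Gam (i + 1) / 4 ^ (k + 1)) := by
      rw [pow_succ]
      field_simp
    rw [h9] at h6
    have h10 : XX i ε = 3 / 4 * A := by rw [hA]; ring
    have h11 : XX i ε = (2 * (3 / w (i + 1) + 3 / w (i + 1) * (45 * Gam (i + 1))) + 2 * ε * (45 * Gam (i + 1))) +
      2 * ε * (45 * Gam (i + 1)) + 1 / ((R i : ℝ) * v i) * 90 +
      1 / (v i : ℝ) * (2 * (3 / w (i + 1) + 3 / w (i + 1) * 45) + 4 * ε * 45) := rfl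
    linarith

/-- arithmetic: `90 v ^ 3 ≤ 4 ^ v` -/
lemma pow_ge (n : ℕ) (h : 8 ≤ n) : 90 * n ^ 3 ≤ 4 ^ n := by
  induction n, h using Nat.le_induction with
  | base => norm_num
  | succ n hn ih =>
    have h1 : (n + 1) ^ 3 ≤ 4 * n ^ 3 := by nlinarith [sq_nonneg (n : ℤ), Nat.zero_le n, mul_le_mul hn hn (by norm_num) (by omega)]
    calc 90 * (n + 1) ^ 3 ≤ 90 * (4 * n ^ 3) := by gcongr
      _ = 4 * (90 * n ^ 3) := by ring
      _ ≤ 4 * 4 ^ n := by gcongr
      _ = 4 ^ (n + 1) := by ring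

lemma Gam_le_v (i : ℕ) : Gam (i + 1) ≤ v i := by
  rw [v_def]
  have h1 := kap_pos i
  have h2 := R_pos i
  have h3 := Gam_pos (i + 1)
  have h4 := w_pos i
  calc Gam (i + 1) = 1 * 1 ^ 3 * Gam (i + 1) ^ 1 * 1 * 1 := by ring
    _ ≤ 2 ^ (20 + i) * w i ^ 3 * Gam (i + 1) ^ 2 * kap i * R i := by
      gcongr
      · exact Nat.one_le_two_pow
      · omega
      · norm_num
      · omega

lemma R_le_v (i : ℕ) : R i ≤ v i := by
  rw [v_def]
  have h1 := kap_pos i
  have h2 := R_pos i
  have h3 := Gam_pos (i + 1)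
  have h4 := w_pos i
  calc R i = 1 * 1 ^ 3 * 1 ^ 2 * 1 * R i := by ring
    _ ≤ 2 ^ (20 + i) * w i ^ 3 * Gam (i + 1) ^ 2 * kap i * R i := by
      gcongr
      · exact Nat.one_le_two_pow
      · omega
      · omega

/-- the norm of the alternating average -/
theorem hi_norm (hD : Dep i G y) (ha : PairAv i e G a ε) (hε : ε * (1000 * Gam (i + 1) * R i * v i) ≤ 1) :
    Nb 0 (zz e a y) ≤ 200 / ((R i : ℝ) * v i) := by
  have hv : (0 : ℝ) < v i := by have := v_pos i; exact_mod_cast (by omega : 0 < v i)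
  have hR : (0 : ℝ) < R i := by have := R_pos i; exact_mod_cast (by omega : 0 < R i)
  have hG : (1 : ℝ) ≤ Gam (i + 1) := by exact_mod_cast Gam_pos (i + 1)
  have hw : (0 : ℝ) < w (i + 1) := by have := w_pos (i + 1); exact_mod_cast (by omega : 0 < w (i + 1))
  have hRv : 0 < (R i : ℝ) * v i := by positivity
  have hR1 : (1 : ℝ) ≤ R i := by exact_mod_cast R_pos i
  have hv1 : (1 : ℝ) ≤ v i := by have := v_pos i; exact_mod_cast (by omega : 1 ≤ v i)
  refine Nb_le fun F hF => ?_
  have h1 := hi_step hD ha (v i) 0 F hF (by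
    rw [s_def]
    nlinarith [Nat.zero_le (rn i), Nat.zero_le (v i), Nat.zero_le (i * v i), Nat.zero_le i])
  refine h1.trans ?_
  -- the last term
  have h2 : (90 : ℝ) * Gam (i + 1) / 4 ^ v i ≤ 1 / ((R i : ℝ) * v i) := by
    rw [div_le_div_iff₀ (by positivity) hRv, one_mul]
    have h3 : 90 * Gam (i + 1) * (R i * v i) ≤ 4 ^ v i := by
      refine le_trans ?_ (pow_ge (v i) (v_pos i))
      calc 90 * Gam (i + 1) * (R i * v i) ≤ 90 * v i * (v i * v i) := by
            gcongr
            · exact Gam_le_v i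
            · exact R_le_v i
        _ = 90 * v i ^ 3 := by ring
    exact_mod_cast h3
  -- the weight
  have h4 : 1000 * (Gam (i + 1) : ℝ) * (R i * v i) ≤ w (i + 1) := by
    have : 1000 * Gam (i + 1) * (R i * v i) ≤ w (i + 1) := by
      rw [w_succ]
      have h5 := Gam_pos (i + 1)
      have h6 := Gam_pos (i + 2)
      have h7 := two_pow_ge i
      calc 1000 * Gam (i + 1) * (R i * v i) = 1000 * Gam (i + 1) ^ 1 * 1 ^ 2 * R i * v i := by ring
        _ ≤ 2 ^ (20 + i) * Gam (i + 1) ^ 2 * Gam (i + 2) ^ 2 * R i * v i := by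
          gcongr
          · omega
          · norm_num
    exact_mod_cast this
  have h5 : 1 / (w (i + 1) : ℝ) * (1000 * Gam (i + 1)) ≤ 1 / ((R i : ℝ) * v i) := by
    rw [div_mul_eq_mul_div, one_mul, div_le_div_iff₀ hw hRv, one_mul]
    linarith
  have h6 : ε * (1000 * Gam (i + 1)) ≤ 1 / ((R i : ℝ) * v i) := by
    rw [le_div_iff₀ hRv]
    calc ε * (1000 * Gam (i + 1)) * ((R i : ℝ) * v i) = ε * (1000 * Gam (i + 1) * R i * v i) := by ring
      _ ≤ 1 := hε
  have hε0 := ha.eps
  set t := 1 / ((R i : ℝ) * v i) with ht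
  have ht0 : 0 ≤ t := by positivity
  set ω := 1 / (w (i + 1) : ℝ) with hω
  have hω0 : 0 ≤ ω := by positivity
  have e1 : (3 : ℝ) / w (i + 1) = 3 * ω := by rw [hω]; ring
  have e2 : (200 : ℝ) / ((R i : ℝ) * v i) = 200 * t := by rw [ht]; ring
  have hvi : 1 / (v i : ℝ) ≤ 1 := by
    rw [div_le_one hv]
    exact hv1
  have h7 : XX i ε ≤ 92 * t := by
    unfold XX
    rw [e1, ← ht]
    have h8 : 1 / (v i : ℝ) * (2 * (3 * ω + 3 * ω * 45) + 4 * ε * 45) ≤ 2 * (3 * ω + 3 * ω * 45) + 4 * ε * 45 := by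
      have : 0 ≤ 2 * (3 * ω + 3 * ω * 45) + 4 * ε * 45 := by positivity
      calc _ ≤ 1 * (2 * (3 * ω + 3 * ω * 45) + 4 * ε * 45) := mul_le_mul_of_nonneg_right hvi this
        _ = _ := one_mul _
    have h9 : ω ≤ ω * Gam (i + 1) := le_mul_of_one_le_right hω0 hG
    have h10 : ε ≤ ε * Gam (i + 1) := le_mul_of_one_le_right hε0 hG
    nlinarith
  rw [e2]
  linarith

end Pool.Agent.Helper64.Hit
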