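import Pool.Agent.Helper64.Hit.Hi4

/-!
# The block form of being hereditarily indecomposable
-/

set_option autoImplicit false

namespace Pool.Agent.Helper64.Hit

variable {i : ℕ} {G : ℕ → Node} {y : ℕ → (ℕ →₀ ℝ)} {e : ℕ} {a : ℕ → ℝ} {ε : ℝ}

lemma sum_pairs' (f : ℕ → (ℕ →₀ ℝ)) {e : ℕ} :
    ∑ l ∈ Finset.range (2 * e), f l = ∑ m ∈ Finset.range e, (f (2 * m) + f (2 * m + 1)) := by
  induction e with
  | zero => simp
  | succ e ih =>
    rw [show 2 * (e + 1) = 2 * e + 1 + 1 by ring, Finset.sum_range_succ, Finset.sum_range_succ, ih,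
      Finset.sum_range_succ]
    abel

/-- the whole initial segment as a piece -/
def whole (i : ℕ) (G : ℕ → Node) (e : ℕ) : Pc := ⟨i, pre G (2 * e), 0, (G (2 * e)).hi⟩

lemma whole_PLg (hD : Dep i G y) (h1 : 1 ≤ (G 0).lo)
    (hA : Adm (s i - 1) (Finset.range e) fun m => (G (2 * m)).lo) : PLg (whole i G e) := by
  classical
  have hs : 1 ≤ s i := by rw [s_def]; omega
  refine PLg_of ?_ ?_ ?_
  · constructor
    · intro g hg
      unfold whole pre at hg
      obtain ⟨l, _, rfl⟩ := List.mem_map.1 hg
      exact hD.le l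
    · unfold whole pre
      rw [List.pairwise_map]
      exact List.pairwise_lt_range.imp fun {l l'} h => hD.hi_lt h
  · have h2 : Adm (s i - 1 + 1) (Finset.range (2 * e)) (fun l => (G l).lo) := by
      refine Adm.comp hA (fun l => l / 2) ?_ ?_ ?_
      · intro l hl
        rw [Finset.mem_range] at hl ⊢
        omega
      · intro l _
        rcases Nat.lt_or_ge (2 * (l / 2)) l with h3 | h3
        · have := hD.hi_lt h3
          have := hD.le (2 * (l / 2))
          omega
        · have : 2 * (l / 2) = l := by omega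
          simp only [this, le_refl]
      · intro m _
        refine Adm.one 1 ?_ ?_
        · have hsub : (Finset.range (2 * e)).filter (fun l => l / 2 = m) ⊆ {2 * m, 2 * m + 1} := by
            intro l hl
            rw [Finset.mem_filter] at hl
            rw [Finset.mem_insert, Finset.mem_singleton]
            omega
          exact (Finset.card_le_card hsub).trans Finset.card_le_two
        · intro l _
          rcases Nat.eq_zero_or_pos l with h3 | h3
          · rw [h3]; exact h1
          · have := hD.hi_lt h3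
            omega
    rw [Nat.sub_add_cancel hs] at h2
    show Adm (s i) (Finset.range (pre G (2 * e)).length) _
    rw [pre_length]
    refine h2.mono fun l hl => ?_
    rw [Finset.mem_range] at hl
    show (G l).lo ≤ ((pre G (2 * e)).map Node.lo).getD l 0
    rw [List.getD_eq_getElem _ _ (by rw [List.length_map, pre_length]; exact hl), List.getElem_map, pre_getElem]
  · intro l hl
    have hl' : l < 2 * e := by
      have : l < (pre G (2 * e)).length := hl
      rwa [pre_length] at this
    show NLg (i + 1) (sg i ((pre G (2 * e)).take l)) (pre G (2 * e))[l]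
    rw [pre_take G hl'.le, pre_getElem]
    exact hD.leg l

lemma whole_Gd (hD : Dep i G y) {m : ℕ} (hm : m < e) : Gd G (whole i G e) m := by
  refine ⟨?_, ?_, Nat.zero_le _, ?_⟩
  · show 2 * m + 1 < (pre G (2 * e)).length
    rw [pre_length]
    omega
  · show (pre G (2 * e)).take (2 * m + 2) = _
    exact pre_take G (by omega)
  · exact hD.hi_mono (by omega)

/-- lower bound -/
lemma low_norm (hD : Dep i G y) (ha : PairAv i e G a ε) (h1 : 1 ≤ (G 0).lo)
    (hA : Adm (s i - 1) (Finset.range e) fun m => (G (2 * m)).lo) :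
    2 / (v i : ℝ) ≤ Nb 0 (∑ l ∈ Finset.range (2 * e), a (l / 2) • y l) := by
  have hp := whole_PLg (e := e) hD h1 hA
  have hL : Leg 0 0 [⟨[], .pc (whole i G e)⟩] := by
    refine ⟨⟨?_, ?_, ?_, ?_, ?_, List.pairwise_singleton _ _⟩, List.pairwise_singleton _ _⟩
    · intro e' he'
      rw [List.mem_singleton] at he'
      subst he'
      simp
    · intro e' he' k hk
      rw [List.mem_singleton] at he'
      subst he'
      simp at hk
    · intro e' he'
      rw [List.mem_singleton] at he'
      subst he'
      simp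
    · intro e' he'
      rw [List.mem_singleton] at he'
      subst he'
      exact Nat.zero_le _
    · intro e' he' p' hp'
      rw [List.mem_singleton] at he'
      subst he'
      simp only [At.pc.injEq] at hp'
      rw [← hp']
      exact hp
  refine le_trans ?_ (le_Nb hL _)
  have hv : (0 : ℝ) ≤ 1 / (v i : ℝ) := by positivity
  obtain ⟨H, hH⟩ := hp
  have hcv : cv (whole i G e) (∑ l ∈ Finset.range (2 * e), a (l / 2) • y l) = 2 := by
    unfold cv
    rw [pr_res_sum]
    have : ∀ l ∈ Finset.range (2 * e), a (l / 2) * pr (sumf (whole i G e).gs)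
        (res (whole i G e).c (whole i G e).d (y l)) = a (l / 2) := by
      intro l hl
      rw [Finset.mem_range] at hl
      have h3 := Gd_one hH hD (whole_Gd hD (show l / 2 < e by omega)) rfl
      unfold cv at h3
      rw [h3, mul_one]
    rw [Finset.sum_congr rfl this, ha.sum2]
  rw [Phi_cons, Phi_nil, add_zero]
  have h4 : (At.pc (whole i G e)).val (∑ l ∈ Finset.range (2 * e), a (l / 2) • y l) =
      1 / (v i : ℝ) * cv (whole i G e) (∑ l ∈ Finset.range (2 * e), a (l / 2) • y l) := rfl
  have h5 : (⟨[], .pc (whole i G e)⟩ : En).cf = 1 := by unfold En.cf; simp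
  rw [h5, one_mul]
  show 2 / (v i : ℝ) ≤ |(At.pc (whole i G e)).val _|
  rw [h4, hcv, abs_of_nonneg (by positivity)]
  apply le_of_eq
  ring

theorem block_hi (x z : ℕ → (ℕ →₀ ℝ)) (hx : Suc x) (hz : Suc z) (ε : ℝ) (hε : 0 < ε) :
    ∃ a ∈ Submodule.span ℝ (Set.range x), ∃ b ∈ Submodule.span ℝ (Set.range z),
      Nb 0 (a - b) < ε * Nb 0 (a + b) := by
  classical
  obtain ⟨i, hi⟩ := exists_nat_gt (100 / ε)
  have hv : (0 : ℝ) < v i := by have := v_pos i; exact_mod_cast (by omega : 0 < v i)
  have hR : (0 : ℝ) < R i := by have := R_pos i; exact_mod_cast (by omega : 0 < R i)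
  set N0 := 2000 * Gam (i + 1) * R i * v i with hN0
  obtain ⟨G, y, hD, hlo, hyx, hyz⟩ := exists_dep i N0 x z hx hz
  have hN1 : 1 ≤ N0 := by
    have h1 := Gam_pos (i + 1)
    have h2 := R_pos i
    have h3 := v_pos i
    exact Nat.one_le_iff_ne_zero.2 (by positivity)
  have hlo1 : 1 ≤ (G 0).lo := hN1.trans hlo
  have hloR : (0 : ℝ) < (G 0).lo := by exact_mod_cast hlo1
  obtain ⟨e, he, a, ha0, haz, has, hAdm, hsm⟩ := exists_avg (fun m => (G (2 * m)).lo)
    (fun m => (G (2 * m + 1)).hi)
    (fun m => by
      have := hD.hi_lt (show 2 * m < 2 * m + 1 by omega)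
      have := hD.le (2 * m)
      have := hD.le (2 * m + 1)
      show (G (2 * m)).lo ≤ (G (2 * m + 1)).hi
      omega)
    (fun m => hD.gr (2 * m + 1)) hlo1 (s i - 1) 0
  have hs4 : 4 ≤ s i := by rw [s_def]; omega
  rw [← Finset.range_eq_Ico] at has hAdm hsm
  have hPA : PairAv i e G a (2 / ((G 0).lo : ℝ)) := by
    refine ⟨ha0, has, fun Z hZ hAZ => ?_, by positivity⟩
    exact hsm (s i - 2) (by omega) Z hZ hAZ
  have hlow := low_norm hD hPA hlo1 hAdm
  have hup := hi_norm hD hPA (by
    have h1 : (N0 : ℝ) ≤ (G 0).lo := by exact_mod_cast hlo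
    have h2 : (N0 : ℝ) = 2000 * Gam (i + 1) * R i * v i := by rw [hN0]; push_cast; ring
    rw [div_mul_eq_mul_div, div_le_one hloR]
    linarith)
  refine ⟨∑ m ∈ Finset.range e, a m • y (2 * m), ?_, ∑ m ∈ Finset.range e, a m • y (2 * m + 1), ?_, ?_⟩
  · exact Submodule.sum_mem _ fun m _ => Submodule.smul_mem _ _ (hyx _ (by omega))
  · exact Submodule.sum_mem _ fun m _ => Submodule.smul_mem _ _ (hyz _ (by omega))
  · have hsum := sum_pairs' (e := e)
    have h1 : ∑ m ∈ Finset.range e, a m • y (2 * m) + ∑ m ∈ Finset.range e, a m • y (2 * m + 1) =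
        ∑ l ∈ Finset.range (2 * e), a (l / 2) • y l := by
      rw [hsum, ← Finset.sum_add_distrib]
      refine Finset.sum_congr rfl fun m _ => ?_
      rw [show 2 * m / 2 = m by omega, show (2 * m + 1) / 2 = m by omega]
    have h2 : ∑ m ∈ Finset.range e, a m • y (2 * m) - ∑ m ∈ Finset.range e, a m • y (2 * m + 1) = zz e a y := by
      unfold zz
      rw [hsum, ← Finset.sum_sub_distrib]
      refine Finset.sum_congr rfl fun m _ => ?_
      rw [show 2 * m / 2 = m by omega, show (2 * m + 1) / 2 = m by omega, pow_succ, pow_mul]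
      simp [sub_eq_add_neg]
    rw [h1, h2]
    refine lt_of_le_of_lt hup ?_
    have h3 : 200 / ((R i : ℝ) * v i) = 100 / R i * (2 / v i) := by
      field_simp
      norm_num
    have h4 : 100 / (R i : ℝ) < ε := by
      rw [div_lt_iff₀ hR]
      rw [div_lt_iff₀ hε] at hi
      have : (R i : ℝ) = i + 1 := by unfold R; push_cast; ring
      rw [this]
      nlinarith
    rw [h3]
    calc 100 / (R i : ℝ) * (2 / v i) < ε * (2 / v i) := mul_lt_mul_of_pos_right h4 (by positivity)
      _ ≤ ε * _ := mul_le_mul_of_nonneg_left hlow hε.le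

end Pool.Agent.Helper64.Hit
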