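import Pool.Agent.Helper64.Hit.Der

/-!
# Module K: sums over kinds
-/

set_option autoImplicit false

namespace Pool.Agent.Helper64.Hit

namespace ModK

/-- the level of a kind -/
def lev : Kd → ℕ
  | .E j => 2 * j
  | .C i => 2 * i + 1
  | .L i => 2 * i
  | .O i => 2 * i + 1

/-- the kind is of type `O` -/
def isO : Kd → Bool
  | .O _ => true
  | _ => false

/-- the kind is of type `L` -/
def isL : Kd → Bool
  | .L _ => true
  | _ => false

lemma om_pos' (t : ℕ) : (0 : ℝ) < om t := by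
  have := om_pos t
  exact_mod_cast (by omega : 0 < om t)

lemma om_succ' (t : ℕ) : 1048576 * (om t : ℝ) ≤ om (t + 1) := by exact_mod_cast om_succ t

lemma sum_range (T M : ℕ) : ∑ i ∈ Finset.range M, 1 / (om (T + i) : ℝ) +
    (1001 / 1000) / (om (T + M) : ℝ) ≤ (1001 / 1000) / (om T : ℝ) := by
  induction M with
  | zero => simp
  | succ M ih =>
    rw [Finset.sum_range_succ]
    have h1 := om_pos' (T + M)
    have h2 := om_succ' (T + M)
    have h3 : (1001 / 1000) / (om (T + (M + 1)) : ℝ) ≤ (1 / 1000) * (1 / (om (T + M) : ℝ)) := by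
      have h4 : (1001 / 1000) / (om (T + (M + 1)) : ℝ) ≤
          (1001 / 1000) / (1048576 * (om (T + M) : ℝ)) := by
        apply div_le_div_of_nonneg_left (by norm_num) (by positivity)
        exact h2
      refine h4.trans ?_
      rw [div_le_iff₀ (by positivity)]
      have h6 : (1 / 1000) * (1 / (om (T + M) : ℝ)) * (1048576 * (om (T + M) : ℝ)) =
          1048576 / 1000 := by
        field_simp
      rw [h6]
      norm_num
    have h5 : (1001 / 1000) / (om (T + M) : ℝ) = 1 / (om (T + M) : ℝ) +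
        (1 / 1000) * (1 / (om (T + M) : ℝ)) := by
      field_simp
      norm_num
    rw [h5] at ih
    linarith

lemma sum_set (S : Finset ℕ) (T : ℕ) (h : ∀ t ∈ S, T ≤ t) :
    ∑ t ∈ S, 1 / (om t : ℝ) ≤ (1001 / 1000) / (om T : ℝ) := by
  have h1 : S ⊆ Finset.Ico T (T + (S.sup id + 1)) := by
    intro t ht
    rw [Finset.mem_Ico]
    have h2 : t ≤ S.sup id := Finset.le_sup (f := id) ht
    exact ⟨h t ht, by omega⟩
  have h2 : ∑ t ∈ S, 1 / (om t : ℝ) ≤ ∑ t ∈ Finset.Ico T (T + (S.sup id + 1)), 1 / (om t : ℝ) :=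
    Finset.sum_le_sum_of_subset_of_nonneg h1 fun t _ _ => (one_div_pos.2 (om_pos' t)).le
  rw [Finset.sum_Ico_eq_sum_range, Nat.add_sub_cancel_left] at h2
  have h3 := sum_range T (S.sup id + 1)
  have h4 : 0 ≤ (1001 / 1000) / (om (T + (S.sup id + 1)) : ℝ) := by
    have := om_pos' (T + (S.sup id + 1))
    positivity
  linarith

lemma sum_inj (S : Finset Kd) (f : Kd → ℕ) (hf : Set.InjOn f S) (T : ℕ) (h : ∀ κ ∈ S, T ≤ f κ) :
    ∑ κ ∈ S, 1 / (om (f κ) : ℝ) ≤ (1001 / 1000) / (om T : ℝ) := by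
  have h1 : ∑ t ∈ S.image f, 1 / (om t : ℝ) = ∑ κ ∈ S, 1 / (om (f κ) : ℝ) :=
    Finset.sum_image hf
  rw [← h1]
  apply sum_set
  intro t ht
  obtain ⟨κ, hκ, rfl⟩ := Finset.mem_image.1 ht
  exact h κ hκ

lemma wt_ge (κ : Kd) (h : isL κ = false) : 1 / κ.wt ≤ 1 / (om (lev κ) : ℝ) := by
  have h0 := om_pos' (lev κ)
  apply one_div_le_one_div_of_le h0
  rcases κ with j | i | i | i
  · rw [lev, om_even]; exact le_rfl
  · rw [lev, om_odd]
    change (v i : ℝ) ≤ (R i : ℝ) * v i
    have h1 : (1 : ℝ) ≤ R i := by exact_mod_cast R_pos i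
    have h2 : (0 : ℝ) ≤ v i := Nat.cast_nonneg _
    nlinarith
  · exact absurd h (by simp [isL])
  · rw [lev, om_odd]; exact le_rfl

lemma wt_L (κ : Kd) (h : isL κ = true) : 1 / κ.wt ≤ (1 / 1000) * (1 / (om (lev κ) : ℝ)) := by
  rcases κ with j | i | i | i
  · exact absurd h (by simp [isL])
  · exact absurd h (by simp [isL])
  · rw [lev, om_even]
    change 1 / ((v i : ℝ) / kap i) ≤ _
    have h1 : (2 ^ (20 + i) * w i : ℝ) ≤ v i := by exact_mod_cast v_ge' i
    have h2 : (0 : ℝ) < w i := by exact_mod_cast (by have := w_pos i; omega : 0 < w i)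
    have h3 : (kap i : ℝ) = 2 ^ (i + 5) := by unfold kap; push_cast; ring
    have h4 : (0 : ℝ) < v i := lt_of_lt_of_le (by positivity) h1
    rw [one_div_div, h3, div_le_iff₀ h4]
    have h5 : (2 : ℝ) ^ (20 + i) = 2 ^ (i + 5) * 32768 := by
      rw [show 20 + i = (i + 5) + 15 by ring, pow_add]; norm_num
    have h6 : (1 / 1000) * (1 / (w i : ℝ)) * (2 ^ (20 + i) * w i) = 2 ^ (i + 5) * (32768 / 1000) := by
      rw [h5]; field_simp
    have h7 : (1 / 1000) * (1 / (w i : ℝ)) * (2 ^ (20 + i) * w i) ≤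
        (1 / 1000) * (1 / (w i : ℝ)) * v i := mul_le_mul_of_nonneg_left h1 (by positivity)
    have h8 : (0 : ℝ) < 2 ^ (i + 5) := by positivity
    nlinarith
  · exact absurd h (by simp [isL])

lemma inj1 : Set.InjOn lev {κ | isL κ = false ∧ isO κ = false} := by
  intro κ hκ κ' hκ' h
  rcases κ with j | i | i | i <;> rcases κ' with j' | i' | i' | i' <;>
    simp [isL, isO, lev] at hκ hκ' h ⊢ <;> omega

lemma inj2 : Set.InjOn lev {κ | isO κ = true} := by
  intro κ hκ κ' hκ' h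
  rcases κ with j | i | i | i <;> rcases κ' with j' | i' | i' | i' <;>
    simp [isO, lev] at hκ hκ' h ⊢ <;> omega

lemma inj3 : Set.InjOn lev {κ | isL κ = true} := by
  intro κ hκ κ' hκ' h
  rcases κ with j | i | i | i <;> rcases κ' with j' | i' | i' | i' <;>
    simp [isL, lev] at hκ hκ' h ⊢ <;> omega

end ModK

open ModK

lemma sum_all (S : Finset Kd) : ∑ κ ∈ S, 1 / κ.wt ≤ 1 / 4 := by
  rw [← Finset.sum_filter_add_sum_filter_not S (fun κ => isL κ = true)]
  rw [← Finset.sum_filter_add_sum_filter_not (S.filter fun κ => ¬ isL κ = true)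
    (fun κ => isO κ = true)]
  have h8 : (8 : ℝ) ≤ om 0 := by exact_mod_cast om_pos 0
  have h9 : (1048576 * 8 : ℝ) ≤ om 1 := by
    have := om_succ' 0
    rw [Nat.zero_add] at this
    linarith
  have k0 : (1001 / 1000) / (om 0 : ℝ) ≤ (1001 / 1000) / 8 :=
    div_le_div_of_nonneg_left (by norm_num) (by norm_num) h8
  have k1 : (1001 / 1000) / (om 1 : ℝ) ≤ (1001 / 1000) / (1048576 * 8) :=
    div_le_div_of_nonneg_left (by norm_num) (by norm_num) h9
  have a1 : ∑ κ ∈ S.filter (fun κ => isL κ = true), 1 / κ.wt ≤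
      (1 / 1000) * ((1001 / 1000) / (om 0 : ℝ)) := by
    calc ∑ κ ∈ S.filter (fun κ => isL κ = true), 1 / κ.wt
        ≤ ∑ κ ∈ S.filter (fun κ => isL κ = true), (1 / 1000) * (1 / (om (lev κ) : ℝ)) :=
          Finset.sum_le_sum fun κ hκ => wt_L κ (Finset.mem_filter.1 hκ).2
      _ = (1 / 1000) * ∑ κ ∈ S.filter (fun κ => isL κ = true), (1 / (om (lev κ) : ℝ)) := by
          rw [Finset.mul_sum]
      _ ≤ _ := by
          apply mul_le_mul_of_nonneg_left _ (by norm_num)
          exact sum_inj _ lev (inj3.mono fun κ hκ => by simpa using (Finset.mem_filter.1 hκ).2) 0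
            fun κ _ => Nat.zero_le _
  have a2 : ∑ κ ∈ (S.filter fun κ => ¬ isL κ = true).filter (fun κ => isO κ = true), 1 / κ.wt ≤
      (1001 / 1000) / (om 1 : ℝ) := by
    refine (Finset.sum_le_sum fun κ hκ => wt_ge κ ?_).trans
      (sum_inj _ lev (inj2.mono fun κ hκ => ?_) 1 ?_)
    · simpa using (Finset.mem_filter.1 (Finset.mem_filter.1 hκ).1).2
    · simpa using (Finset.mem_filter.1 hκ).2
    · intro κ hκ
      have := (Finset.mem_filter.1 hκ).2
      rcases κ with j | i | i | i <;> simp [isO] at this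
      simp [lev]
  have a3 : ∑ κ ∈ (S.filter fun κ => ¬ isL κ = true).filter (fun κ => ¬ isO κ = true), 1 / κ.wt ≤
      (1001 / 1000) / (om 0 : ℝ) := by
    refine (Finset.sum_le_sum fun κ hκ => wt_ge κ ?_).trans
      (sum_inj _ lev (inj1.mono fun κ hκ => ?_) 0 fun κ _ => Nat.zero_le _)
    · simpa using (Finset.mem_filter.1 (Finset.mem_filter.1 hκ).1).2
    · have h1 := (Finset.mem_filter.1 hκ).2
      have h2 := (Finset.mem_filter.1 (Finset.mem_filter.1 hκ).1).2
      exact ⟨by simpa using h2, by simpa using h1⟩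
  have := add_le_add a1 (add_le_add a2 a3)
  refine this.trans ?_
  norm_num at k0 k1 ⊢
  linarith

lemma sum_hi (S : Finset Kd) (T : ℕ) (h : ∀ κ ∈ S, κ.Hi T) :
    ∑ κ ∈ S, 1 / κ.wt ≤ 3 / (om T : ℝ) := by
  have hL : ∀ κ ∈ S, isL κ = false := by
    intro κ hκ
    have := h κ hκ
    rcases κ with j | i | i | i <;> simp [isL]
    simp [Kd.Hi] at this
  have hT : ∀ κ ∈ S, T ≤ lev κ := by
    intro κ hκ
    have := h κ hκ
    rcases κ with j | i | i | i <;> simp [Kd.Hi] at this <;> simpa [lev] using this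
  rw [← Finset.sum_filter_add_sum_filter_not S (fun κ => isO κ = true)]
  have a2 : ∑ κ ∈ S.filter (fun κ => isO κ = true), 1 / κ.wt ≤ (1001 / 1000) / (om T : ℝ) := by
    refine (Finset.sum_le_sum fun κ hκ => wt_ge κ (hL κ (Finset.mem_filter.1 hκ).1)).trans
      (sum_inj _ lev (inj2.mono fun κ hκ => ?_) T fun κ hκ => hT κ (Finset.mem_filter.1 hκ).1)
    simpa using (Finset.mem_filter.1 hκ).2
  have a3 : ∑ κ ∈ S.filter (fun κ => ¬ isO κ = true), 1 / κ.wt ≤ (1001 / 1000) / (om T : ℝ) := by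
    refine (Finset.sum_le_sum fun κ hκ => wt_ge κ (hL κ (Finset.mem_filter.1 hκ).1)).trans
      (sum_inj _ lev (inj1.mono fun κ hκ => ?_) T fun κ hκ => hT κ (Finset.mem_filter.1 hκ).1)
    exact ⟨hL κ (Finset.mem_filter.1 hκ).1, by simpa using (Finset.mem_filter.1 hκ).2⟩
  have h0 := om_pos' T
  refine (add_le_add a2 a3).trans ?_
  rw [← add_div]
  exact div_le_div_of_nonneg_right (by norm_num) h0.le

/-- rank of a kind below a level -/
lemma rk_le {κ : Kd} {T : ℕ} (h : ¬ κ.Hi (T + 1)) : κ.rk ≤ rho T := by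
  rcases κ with j | i | i | i
  · simp only [Kd.Hi, Kd.rk] at h ⊢
    rw [← rho_even]
    exact rho_mono (by omega)
  · simp only [Kd.Hi, Kd.rk] at h ⊢
    rw [← rho_odd]
    exact rho_mono (by omega)
  · exact Nat.zero_le _
  · simp only [Kd.Hi, Kd.rk] at h ⊢
    rw [← rho_odd]
    exact rho_mono (by omega)

end Pool.Agent.Helper64.Hit
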