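import Pool.Agent.Helper64.Hit.K

/-!
# Module N: the norms
-/

set_option autoImplicit false

namespace Pool.Agent.Helper64.Hit

/-! Module K statement used here -/


/-! ## Module N: the norms -/

/-- heights of the pieces of a forest -/
def HtLe (H : ℕ) (F : List En) : Prop := ∀ e ∈ F, ∀ p, e.a = .pc p → PL H p

lemma HtLe.sub {H : ℕ} {F G : List En} (h : HtLe H F) (hs : G.Sublist F) : HtLe H G :=
  fun e he => h e (hs.subset he)

lemma lvs_single {b n : ℕ} {F : List En} (h : Leg b n F) (k : ℕ) :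
    Phi (lvs F) (Finsupp.single k 1) ≤ 1 := by
  have h1 := h.sub (lvs_sub F)
  have key : ∀ e ∈ lvs F, word e.p = [] ∧ ∃ j, e.a = .leaf j := fun e he => kd_none (mem_lvs.1 he).2
  have htd := h1.2
  generalize lvs F = G at key htd
  clear h1 h
  have aux : ∀ G : List En, (∀ e ∈ G, word e.p = [] ∧ ∃ j, e.a = .leaf j) →
      (∀ e ∈ G, e.a ≠ .leaf k) → Phi G (Finsupp.single k 1) = 0 := by
    intro G
    induction G with
    | nil => intro _ _; simp
    | cons e G ih =>
      intro h1 h2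
      rw [Phi_cons, ih (fun e he => h1 e (List.mem_cons_of_mem _ he))
        (fun e he => h2 e (List.mem_cons_of_mem _ he))]
      obtain ⟨_, j, hj⟩ := h1 e List.mem_cons_self
      have hne : j ≠ k := by
        rintro rfl
        exact h2 e List.mem_cons_self hj
      rw [hj, val_leaf, Finsupp.single_eq_of_ne hne]
      simp
  induction G with
  | nil => simp
  | cons e G ih =>
    rw [Phi_cons]
    obtain ⟨hw, j, hj⟩ := key e List.mem_cons_self
    have htd' := List.pairwise_cons.1 htd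
    by_cases hjk : j = k
    · subst hjk
      rw [aux G (fun e he => key e (List.mem_cons_of_mem _ he)) ?_]
      · unfold En.cf
        rw [hw, hj, val_leaf]
        simp
      · intro e' he' h2
        obtain ⟨hw', _⟩ := key e' (List.mem_cons_of_mem _ he')
        have := htd'.1 e' he' (by rw [hw, hw'])
        rw [hj, h2] at this
        exact this rfl
    · rw [hj, val_leaf, Finsupp.single_eq_of_ne hjk]
      have := ih (fun e he => key e (List.mem_cons_of_mem _ he)) htd'.2
      simpa using this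

lemma ndF_zero {p : Pc} (hp : PL 0 p) : ndF p = [] := by
  have h1 : p.gs.length = 0 := by
    by_contra hne
    exact absurd (hp.node (Nat.pos_of_ne_zero hne)) (LegN_zero _ _ _)
  unfold ndF
  rw [h1]
  rfl

lemma der_O_zero {F : List En} {i : ℕ} (h : HtLe 0 F) : der (.O i) F = [] := by
  unfold der
  rw [List.eq_nil_iff_forall_not_mem]
  intro e he
  obtain ⟨a, ha, e', he', _⟩ := mem_bind.1 he
  obtain ⟨h1, h2⟩ := mem_part.1 ha
  obtain ⟨_, p, hp, _⟩ := kd_O h2
  rw [hp] at he'
  have : (At.pc p).thePc = p := rfl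
  rw [this, ndF_zero (h a h1 p hp)] at he'
  simp at he'

lemma der_O_ht {F : List En} {i H : ℕ} (h : HtLe (H + 1) F) : HtLe H (der (.O i) F) := by
  intro e he q hq
  unfold der at he
  obtain ⟨a, ha, e', he', rfl⟩ := mem_bind.1 he
  obtain ⟨h1, h2⟩ := mem_part.1 ha
  obtain ⟨_, p, hp, _⟩ := kd_O h2
  rw [hp] at he'
  have : (At.pc p).thePc = p := rfl
  rw [this] at he'
  have h3 := (ndF_val (h a h1 p hp)).pcs e' he' q (by simpa using hq)
  simpa using h3

lemma der_letter_ht {F : List En} {H : ℕ} (a : Let) (h : HtLe H F) : HtLe H (der a.kd F) := by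
  rw [der_letter]
  intro e he q hq
  rw [List.mem_map] at he
  obtain ⟨e', he', rfl⟩ := he
  exact h e' (mem_part.1 he').1 q hq

lemma der_letter_word {F : List En} {L : ℕ} (a : Let) (h : ∀ e ∈ F, (word e.p).length ≤ L + 1) :
    ∀ e ∈ der a.kd F, (word e.p).length ≤ L := by
  rw [der_letter]
  intro e he
  rw [List.mem_map] at he
  obtain ⟨e', he', rfl⟩ := he
  obtain ⟨h1, h2⟩ := mem_part.1 he'
  obtain ⟨u, hu⟩ := kd_letter h2
  obtain ⟨q, hq, hq'⟩ := rs_of_word hu
  have h3 := h e' h1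
  rw [hu] at h3
  simp only [hq, List.tail_cons, word_append, word_nms, List.nil_append, hq', List.length_cons] at h3 ⊢
  omega

lemma exists_word_bound (F : List En) : ∃ L, ∀ e ∈ F, (word e.p).length ≤ L := by
  induction F with
  | nil => exact ⟨0, by simp⟩
  | cons e F ih =>
    obtain ⟨L, hL⟩ := ih
    refine ⟨max L (word e.p).length, fun e' he' => ?_⟩
    rcases List.mem_cons.1 he' with rfl | h
    · exact le_max_right _ _
    · exact (hL e' h).trans (le_max_left _ _)

lemma Phi_single_step {b n : ℕ} {F : List En} (h : Leg b n F) (k : ℕ)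
    (hk : ∀ κ ∈ kinds F, Phi (der κ F) (Finsupp.single k 1) ≤ 2) :
    Phi F (Finsupp.single k 1) ≤ 2 := by
  rw [Phi_split]
  have h1 := lvs_single h k
  have h2 : ∑ κ ∈ kinds F, Phi (part κ F) (Finsupp.single k 1) ≤ ∑ κ ∈ kinds F, (1 / κ.wt) * 2 := by
    refine Finset.sum_le_sum fun κ hκ => ?_
    refine (Phi_part_le h κ _).trans ?_
    exact mul_le_mul_of_nonneg_left (hk κ hκ) (one_div_nonneg.2 κ.wt_pos.le)
  rw [← Finset.sum_mul] at h2
  have h3 := sum_all (kinds F)
  linarith

lemma Phi_single_aux (k : ℕ) : ∀ (H L : ℕ) (b n : ℕ) (F : List En), Leg b n F → HtLe H F →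
    (∀ e ∈ F, (word e.p).length ≤ L) → Phi F (Finsupp.single k 1) ≤ 2 := by
  intro H
  induction H with
  | zero =>
    intro L
    induction L with
    | zero =>
      intro b n F hF hH hL
      refine Phi_single_step hF k fun κ hκ => ?_
      obtain ⟨e, he, hek⟩ := mem_kinds.1 hκ
      have hno : ∀ a : Let, κ ≠ a.kd := by
        rintro a rfl
        obtain ⟨u, hu⟩ := kd_letter hek
        have := hL e he
        rw [hu] at this
        simp at this
      cases κ with
      | E j => exact absurd rfl (hno (.E j))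
      | C i => exact absurd rfl (hno (.C i))
      | L i => exact absurd rfl (hno (.L i))
      | O i => rw [der_O_zero hH]; simp
    | succ L ih =>
      intro b n F hF hH hL
      refine Phi_single_step hF k fun κ hκ => ?_
      have hlet : ∀ a : Let, Phi (der a.kd F) (Finsupp.single k 1) ≤ 2 := fun a =>
        ih _ _ _ (der_leg hF a.kd) (der_letter_ht a hH) (der_letter_word a hL)
      cases κ with
      | E j => exact hlet (.E j)
      | C i => exact hlet (.C i)
      | L i => exact hlet (.L i)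
      | O i => rw [der_O_zero hH]; simp
  | succ H ihH =>
    intro L
    have hO : ∀ (b n i : ℕ) (F : List En), Leg b n F → HtLe (H + 1) F →
        Phi (der (.O i) F) (Finsupp.single k 1) ≤ 2 := by
      intro b n i F hF hH
      obtain ⟨L', hL'⟩ := exists_word_bound (der (.O i) F)
      exact ihH L' _ _ _ (der_leg hF (.O i)) (der_O_ht hH) hL'
    induction L with
    | zero =>
      intro b n F hF hH hL
      refine Phi_single_step hF k fun κ hκ => ?_
      obtain ⟨e, he, hek⟩ := mem_kinds.1 hκ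
      have hno : ∀ a : Let, κ ≠ a.kd := by
        rintro a rfl
        obtain ⟨u, hu⟩ := kd_letter hek
        have := hL e he
        rw [hu] at this
        simp at this
      cases κ with
      | E j => exact absurd rfl (hno (.E j))
      | C i => exact absurd rfl (hno (.C i))
      | L i => exact absurd rfl (hno (.L i))
      | O i => exact hO b n i F hF hH
    | succ L ih =>
      intro b n F hF hH hL
      refine Phi_single_step hF k fun κ hκ => ?_
      have hlet : ∀ a : Let, Phi (der a.kd F) (Finsupp.single k 1) ≤ 2 := fun a =>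
        ih _ _ _ (der_leg hF a.kd) (der_letter_ht a hH) (der_letter_word a hL)
      cases κ with
      | E j => exact hlet (.E j)
      | C i => exact hlet (.C i)
      | L i => exact hlet (.L i)
      | O i => exact hO b n i F hF hH

lemma Phi_single_le {b n : ℕ} {F : List En} (h : Leg b n F) (k : ℕ) :
    Phi F (Finsupp.single k 1) ≤ 2 := by
  obtain ⟨H, hH⟩ := exists_height h.1
  obtain ⟨L, hL⟩ := exists_word_bound F
  exact Phi_single_aux k H L b n F h hH.pcs hL

lemma Phi_le_l1 {b n : ℕ} {F : List En} (h : Leg b n F) (x : ℕ →₀ ℝ) : Phi F x ≤ 2 * l1 x := by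
  have h1 : x = ∑ k ∈ x.support, (1 : ℝ) • (x k • Finsupp.single k (1 : ℝ)) := by
    conv_lhs => rw [← Finsupp.sum_single x]
    unfold Finsupp.sum
    refine Finset.sum_congr rfl fun k _ => ?_
    rw [one_smul, Finsupp.smul_single, smul_eq_mul, mul_one]
  conv_lhs => rw [h1]
  refine (Phi_sum_le F x.support (fun _ => 1) (fun _ _ => zero_le_one) _).trans ?_
  unfold l1
  rw [Finset.mul_sum]
  refine Finset.sum_le_sum fun k _ => ?_
  rw [Phi_smul, one_mul, mul_comm 2]
  exact mul_le_mul_of_nonneg_left (Phi_single_le h k) (abs_nonneg _)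

lemma Leg_nil (b : ℕ) : Leg b 0 [] :=
  ⟨⟨by simp, by simp, by simp, by simp, by simp, List.Pairwise.nil⟩, List.Pairwise.nil⟩

lemma Nb_set_bdd (b : ℕ) (x : ℕ →₀ ℝ) : BddAbove {t : ℝ | ∃ F : List En, Leg b 0 F ∧ t = Phi F x} := by
  refine ⟨2 * l1 x, ?_⟩
  rintro t ⟨F, hF, rfl⟩
  exact Phi_le_l1 hF x

lemma Nb_set_nonempty (b : ℕ) (x : ℕ →₀ ℝ) : {t : ℝ | ∃ F : List En, Leg b 0 F ∧ t = Phi F x}.Nonempty :=
  ⟨_, [], Leg_nil b, rfl⟩

lemma le_Nb {b : ℕ} {F : List En} (h : Leg b 0 F) (x : ℕ →₀ ℝ) : Phi F x ≤ Nb b x :=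
  le_csSup (Nb_set_bdd b x) ⟨F, h, rfl⟩

lemma Nb_le {b : ℕ} {x : ℕ →₀ ℝ} {C : ℝ} (h : ∀ F, Leg b 0 F → Phi F x ≤ C) : Nb b x ≤ C := by
  refine csSup_le (Nb_set_nonempty b x) ?_
  rintro t ⟨F, hF, rfl⟩
  exact h F hF

lemma exists_lt_Nb {b : ℕ} {x : ℕ →₀ ℝ} {c : ℝ} (h : c < Nb b x) : ∃ F, Leg b 0 F ∧ c < Phi F x := by
  obtain ⟨t, ⟨F, hF, rfl⟩, ht⟩ := exists_lt_of_lt_csSup (Nb_set_nonempty b x) h
  exact ⟨F, hF, ht⟩

lemma Nb_nonneg (b : ℕ) (x : ℕ →₀ ℝ) : 0 ≤ Nb b x := by
  have := le_Nb (Leg_nil b) x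
  simpa using this

lemma Nb_add (b : ℕ) (x y : ℕ →₀ ℝ) : Nb b (x + y) ≤ Nb b x + Nb b y :=
  Nb_le fun F hF => (Phi_add_le F x y).trans (add_le_add (le_Nb hF x) (le_Nb hF y))

lemma Nb_smul_le (b : ℕ) (a : ℝ) (x : ℕ →₀ ℝ) : Nb b (a • x) ≤ |a| * Nb b x :=
  Nb_le fun F hF => by
    rw [Phi_smul]
    exact mul_le_mul_of_nonneg_left (le_Nb hF x) (abs_nonneg _)

lemma Nb_smul (b : ℕ) (a : ℝ) (x : ℕ →₀ ℝ) : Nb b (a • x) = |a| * Nb b x := by
  refine le_antisymm (Nb_smul_le b a x) ?_
  by_cases ha : a = 0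
  · subst ha
    rw [abs_zero, zero_mul]
    exact Nb_nonneg _ _
  · have h1 := Nb_smul_le b a⁻¹ (a • x)
    rw [smul_smul, inv_mul_cancel₀ ha, one_smul, abs_inv] at h1
    have h2 : 0 < |a| := abs_pos.2 ha
    calc |a| * Nb b x ≤ |a| * (|a|⁻¹ * Nb b (a • x)) := mul_le_mul_of_nonneg_left h1 h2.le
      _ = Nb b (a • x) := by rw [← mul_assoc, mul_inv_cancel₀ h2.ne', one_mul]

lemma Leg_leaf (b k : ℕ) : Leg b 0 [⟨[], .leaf k⟩] := by
  refine ⟨⟨?_, ?_, ?_, ?_, ?_, List.pairwise_singleton _ _⟩, List.pairwise_singleton _ _⟩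
  · intro e he
    rw [List.mem_singleton] at he
    subst he
    simp
  · intro e he
    rw [List.mem_singleton] at he
    subst he
    simp
  · intro e he
    rw [List.mem_singleton] at he
    subst he
    simp
  · intro e he
    rw [List.mem_singleton] at he
    subst he
    trivial
  · intro e he p hp
    rw [List.mem_singleton] at he
    subst he
    simp at hp

lemma Nb_coord (b : ℕ) (x : ℕ →₀ ℝ) (k : ℕ) : |x k| ≤ Nb b x := by
  have := le_Nb (Leg_leaf b k) x
  rw [Phi_cons, Phi_nil, add_zero, val_leaf] at this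
  unfold En.cf at this
  simpa using this

lemma Nb_res (b : ℕ) (l u : ℕ) (x : ℕ →₀ ℝ) : Nb b (res l u x) ≤ Nb b x :=
  Nb_le fun F hF => by
    rw [← Phi_trF]
    exact le_Nb (hF.trF l u) x

lemma Nb_anti {b b' : ℕ} (h : b ≤ b') (x : ℕ →₀ ℝ) : Nb b' x ≤ Nb b x :=
  Nb_le fun _ hF => le_Nb (hF.mono h) x

lemma Nb_l1 (b : ℕ) (x : ℕ →₀ ℝ) : Nb b x ≤ 2 * l1 x := Nb_le fun _ hF => Phi_le_l1 hF x

end Pool.Agent.Helper64.Hit
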