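import Pool.Agent.Helper64.Hit.Bind

/-!
# The forest of the nodes of a piece
-/

set_option autoImplicit false

namespace Pool.Agent.Helper64.Hit

open Classical in
/-- a canonical tree of a node -/
noncomputable def Tr (b j : ℕ) (nd : Node) : List En :=
  if h : ∃ h, LegN (h + 1) b j nd then ((LegN_succ _ _ _ _).1 (Nat.find_spec h)).choose else []

lemma Tr_spec {h b j : ℕ} {nd : Node} (hn : LegN (h + 1) b j nd) :
    Val (PL h) b 0 (Tr b j nd) ∧ TD (Tr b j nd) ∧
      (∀ e ∈ Tr b j nd, ∃ q, e.p = .lt (.E j) :: q) ∧ (∀ k, nd.f k ≠ 0 → nd.lo ≤ k ∧ k ≤ nd.hi) ∧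
      ∀ x, |pr nd.f x| ≤ Phi (Tr b j nd) x := by
  classical
  have hex : ∃ h, LegN (h + 1) b j nd := ⟨h, hn⟩
  have key := ((LegN_succ _ _ _ _).1 (Nat.find_spec hex)).choose_spec
  have hle : Nat.find hex ≤ h := Nat.find_min' hex hn
  have e1 : Tr b j nd = ((LegN_succ _ _ _ _).1 (Nat.find_spec hex)).choose := by
    unfold Tr
    rw [dif_pos hex]
  rw [e1]
  exact ⟨key.1.imp fun p hp => PL_mono hle hp, key.2⟩

/-- the nodes of a piece with a default value -/
def Pc.nd (p : Pc) (l : ℕ) : Node := p.gs.getD l ⟨0, 0, 0⟩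

lemma Pc.nd_eq (p : Pc) (l : ℕ) (h : l < p.gs.length) : p.nd l = p.gs[l] := by
  unfold Pc.nd
  rw [List.getD_eq_getElem _ _ h]

/-- the letter of the node number `l` -/
noncomputable def Pc.sg (p : Pc) (l : ℕ) : ℕ := Hit.sg p.i (p.gs.take l)

/-- the (truncated) tree of a node of a piece -/
noncomputable def ndT (p : Pc) (l : ℕ) : List En :=
  trF (max (p.nd l).lo p.c) (min (p.nd l).hi p.d) (Tr (p.i + 1) (p.sg l) (p.nd l))

open Classical in
/-- addresses of the nodes of a piece -/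
noncomputable def Pc.ad (p : Pc) : ℕ → List ℕ :=
  if h : Adm (s p.i) (Finset.range p.gs.length) (fun l => (p.nd l).lo) then h.choose else fun _ => []

/-- the forest of nodes of a piece -/
noncomputable def ndF (p : Pc) : List En :=
  bind (List.range p.gs.length) (fun l => nms (p.ad l)) (ndT p)

lemma PL.succ {h : ℕ} {p : Pc} (hp : PL h p) : Succ p.gs := hp.1

lemma PL.adm {h : ℕ} {p : Pc} (hp : PL h p) :
    Adm (s p.i) (Finset.range p.gs.length) (fun l => (p.nd l).lo) := by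
  have := hp.2.1
  have e : (fun l => (p.gs.map Node.lo).getD l 0) = fun l => (p.nd l).lo := by
    funext l
    unfold Pc.nd
    rw [List.getD_eq_getElem?_getD, List.getD_eq_getElem?_getD, List.getElem?_map]
    cases p.gs[l]? <;> rfl
  rwa [e] at this

lemma PL.adw {h : ℕ} {p : Pc} (hp : PL h p) :
    AdmWith (s p.i) (Finset.range p.gs.length) (fun l => (p.nd l).lo) p.ad := by
  have h1 := hp.adm
  unfold Pc.ad
  rw [dif_pos h1]
  exact h1.choose_spec

lemma PL.node {h : ℕ} {p : Pc} (hp : PL h p) {l : ℕ} (hl : l < p.gs.length) :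
    LegN h (p.i + 1) (p.sg l) (p.nd l) := by
  rw [Pc.nd_eq p l hl]
  exact hp.2.2 l hl

/-- nodes with a tree -/
lemma PL.node' {h : ℕ} {p : Pc} (hp : PL h p) {l : ℕ} (hl : l < p.gs.length) :
    LegN (h - 1 + 1) (p.i + 1) (p.sg l) (p.nd l) := by
  have h1 := hp.node hl
  cases h with
  | zero => exact absurd h1 (LegN_zero _ _ _)
  | succ h => simpa using h1

lemma mem_ndT {p : Pc} {l : ℕ} {e : En} (he : e ∈ ndT p l) :
    e.a.In (max (p.nd l).lo p.c) (min (p.nd l).hi p.d) := by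
  obtain ⟨e', he', h1, h2, h3⟩ := mem_trF he
  exact h3

lemma ndT_word {h : ℕ} {p : Pc} (hp : PL h p) {l : ℕ} (hl : l < p.gs.length) {e : En} (he : e ∈ ndT p l) :
    ∃ q, e.p = .lt (.E (p.sg l)) :: q := by
  obtain ⟨e', he', h1, h2, h3⟩ := mem_trF he
  rw [h1]
  exact (Tr_spec (hp.node' hl)).2.2.1 e' he'

lemma ndT_val {h : ℕ} {p : Pc} (hp : PL h p) {l : ℕ} (hl : l < p.gs.length) :
    Val (PL (h - 1)) (p.i + 1) 0 (ndT p l) :=
  (Tr_spec (hp.node' hl)).1.trF (inv_PL _) _ _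

lemma ndT_td {h : ℕ} {p : Pc} (hp : PL h p) {l : ℕ} (hl : l < p.gs.length) : TD (ndT p l) :=
  (Tr_spec (hp.node' hl)).2.1.trF _ _

/-- domination of one node -/
lemma ndT_dom {h : ℕ} {p : Pc} (hp : PL h p) {l : ℕ} (hl : l < p.gs.length) (x : ℕ →₀ ℝ) :
    |pr (p.nd l).f (res p.c p.d x)| ≤ Phi (ndT p l) x := by
  have h1 := Tr_spec (hp.node' hl)
  unfold ndT
  rw [Phi_trF]
  have e1 : pr (p.nd l).f (res p.c p.d x) =
      pr (p.nd l).f (res (max (p.nd l).lo p.c) (min (p.nd l).hi p.d) x) := by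
    rw [pr_eq_sum _ _ _ subset_rfl, pr_eq_sum _ _ _ subset_rfl]
    refine Finset.sum_congr rfl fun k hk => ?_
    have h2 := h1.2.2.2.1 k (by simpa using hk)
    rw [res_apply, res_apply]
    by_cases hk2 : p.c ≤ k ∧ k ≤ p.d
    · rw [if_pos hk2, if_pos (by omega)]
    · rw [if_neg hk2, if_neg (by omega)]
  rw [e1]
  exact h1.2.2.2.2 _

lemma list_sum_range (n : ℕ) (f : ℕ → ℝ) : ((List.range n).map f).sum = ∑ l ∈ Finset.range n, f l := by
  induction n with
  | zero => simp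
  | succ n ih => rw [List.range_succ, List.map_append, List.sum_append, ih, Finset.sum_range_succ]; simp

lemma sumf_eq (p : Pc) (x : ℕ →₀ ℝ) :
    pr (sumf p.gs) x = ∑ l ∈ Finset.range p.gs.length, pr (p.nd l).f x := by
  rw [pr_sumf]
  have e : p.gs.map (fun g => pr g.f x) = (List.range p.gs.length).map fun l => pr (p.nd l).f x := by
    refine List.ext_getElem (by simp) fun l h1 h2 => ?_
    simp only [List.length_map] at h1
    simp only [List.getElem_map, List.getElem_range]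
    rw [Pc.nd_eq p l h1]
  rw [e, list_sum_range]

/-- domination of a piece by its nodes -/
lemma pc_dom {h : ℕ} {p : Pc} (hp : PL h p) (x : ℕ →₀ ℝ) :
    |(At.pc p).val x| ≤ 1 / (v p.i : ℝ) * Phi (ndF p) x := by
  have hv : (0 : ℝ) ≤ 1 / (v p.i : ℝ) := by positivity
  rw [val_pc, abs_mul, abs_of_nonneg hv]
  refine mul_le_mul_of_nonneg_left ?_ hv
  rw [sumf_eq]
  unfold ndF
  rw [Phi_bind]
  simp only [word_nms, cf_nil, one_mul]
  rw [list_sum_range]
  refine (Finset.abs_sum_le_sum_abs _ _).trans (Finset.sum_le_sum fun l hl => ?_)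
  exact ndT_dom hp (Finset.mem_range.1 hl) x

/-- nodes of the same piece are disjoint -/
lemma nd_lt {h : ℕ} {p : Pc} (hp : PL h p) {l l' : ℕ} (hll : l < l') (hl : l' < p.gs.length) :
    (p.nd l).hi < (p.nd l').lo := by
  rw [Pc.nd_eq p l (by omega), Pc.nd_eq p l' hl]
  have := hp.succ.2
  rw [List.pairwise_iff_getElem] at this
  exact this l l' (by omega) hl hll

lemma nd_le {h : ℕ} {p : Pc} (hp : PL h p) {l : ℕ} (hl : l < p.gs.length) :
    (p.nd l).lo ≤ (p.nd l).hi := by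
  rw [Pc.nd_eq p l hl]
  exact hp.succ.1 _ (List.getElem_mem hl)

lemma mem_ndF {p : Pc} {e : En} (he : e ∈ ndF p) :
    ∃ l < p.gs.length, ∃ e' ∈ ndT p l, e = e'.pre (nms (p.ad l)) := by
  obtain ⟨l, hl, e', he', rfl⟩ := mem_bind.1 he
  exact ⟨l, List.mem_range.1 hl, e', he', rfl⟩

lemma ndT_pos {p : Pc} {l : ℕ} {e : En} (he : e ∈ ndT p l) : max (p.nd l).lo p.c ≤ e.pos :=
  (mem_ndT he).pos

lemma ndF_pos {p : Pc} {e : En} (he : e ∈ ndF p) : p.c ≤ e.pos := by
  obtain ⟨l, hl, e', he', rfl⟩ := mem_ndF he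
  have := ndT_pos he'
  rw [En.pre_pos]
  omega

/-- cross compatibility of nodes -/
lemma ndT_cross {h h' : ℕ} {p p' : Pc} (hp : PL h p) (hp' : PL h' p') (hi : p.i = p'.i)
    (hc : Cp (.pc p) (.pc p')) {l l' : ℕ} (hl : l < p.gs.length) (hl' : l' < p'.gs.length)
    {e e' : En} (he : e ∈ ndT p l) (he' : e' ∈ ndT p' l') (hw : word e.p = word e'.p) : Cp e.a e'.a := by
  obtain ⟨q, hq⟩ := ndT_word hp hl he
  obtain ⟨q', hq'⟩ := ndT_word hp' hl' he'
  rw [hq, hq'] at hw
  simp only [word_lt, List.cons.injEq, Let.E.injEq] at hw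
  have h1 : p.gs.take l = p'.gs.take l' := by
    have := hw.1
    unfold Pc.sg at this
    rw [hi] at this
    exact sg_inj this
  have h2 : l = l' := by
    have := congrArg List.length h1
    rw [List.length_take, List.length_take] at this
    omega
  subst h2
  refine Cp.of_disj (mem_ndT he) (mem_ndT he') fun k hk => ?_
  refine hc hi l hl hl' h1 k ?_
  rw [← Pc.nd_eq p l hl, ← Pc.nd_eq p' l hl']
  omega

/-- the forest of nodes is valid -/
lemma ndF_val {h : ℕ} {p : Pc} (hp : PL h p) : Val (PL (h - 1)) (p.i + 1) (s p.i) (ndF p) := by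
  have hA := hp.adw
  refine Val_bind 0 ?_ ?_ ?_ ?_ ?_
  · intro l hl
    rw [word_nms, ctx_nil]
    exact ndT_val hp (List.mem_range.1 hl)
  · intro l hl q hq
    have := WF_nms (p.ad l) 0 q hq
    rwa [Nat.add_zero, hA.1 l (by simpa using hl)] at this
  · intro l hl e he k hk
    rw [nm_mem_nms] at hk
    have h1 : k ≤ (p.nd l).lo := hA.2.1 l (by simpa using hl) k hk
    have h2 := ndT_pos he
    omega
  · intro l _
    simp
  · refine List.Pairwise.imp_of_mem (fun {l l'} hl hl' hll e he e' he' => ?_) (List.nodup_range (n := p.gs.length))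
    have h1 := hA.2.2 l (by simpa using hl) l' (by simpa using hl') hll
    have h2 := ndT_pos he
    have h3 := ndT_pos he'
    have h4 : max (p.nd l).lo p.c ≤ e.pos := h2
    have h5 : max (p.nd l').lo p.c ≤ e'.pos := h3
    exact h1.mono (show (p.nd l).lo ≤ e.pos by omega) (show (p.nd l').lo ≤ e'.pos by omega)

lemma ndF_td {h : ℕ} {p : Pc} (hp : PL h p) : TD (ndF p) := by
  refine TD_bind (fun l hl => ndT_td hp (List.mem_range.1 hl)) ?_
  refine List.Pairwise.imp_of_mem (fun {l l'} hl hl' hll e he e' he' => ?_) (List.nodup_range (n := p.gs.length))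
  intro hw
  rw [List.mem_range] at hl hl'
  have h1 := mem_ndT he
  have h2 := mem_ndT he'
  refine Cp.of_disj h1 h2 fun k hk => ?_
  rcases Nat.lt_or_gt_of_ne hll with h3 | h3
  · have := nd_lt hp h3 hl'
    omega
  · have := nd_lt hp h3 hl
    omega

lemma ndF_leg {p : Pc} (hp : PLg p) : Leg (p.i + 1) (s p.i) (ndF p) := by
  obtain ⟨h, hp⟩ := hp
  exact ⟨(ndF_val hp).imp fun q hq => ⟨_, hq⟩, ndF_td hp⟩

lemma ndF_cross {p p' : Pc} (hp : PLg p) (hp' : PLg p') (hi : p.i = p'.i)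
    (hc : Cp (.pc p) (.pc p')) {e e' : En} (he : e ∈ ndF p) (he' : e' ∈ ndF p')
    (hw : word e.p = word e'.p) : Cp e.a e'.a := by
  obtain ⟨h, hp⟩ := hp
  obtain ⟨h', hp'⟩ := hp'
  obtain ⟨l, hl, e₁, he₁, rfl⟩ := mem_ndF he
  obtain ⟨l', hl', e₂, he₂, rfl⟩ := mem_ndF he'
  simp only [En.pre_p, word_append, word_nms, List.nil_append] at hw
  exact ndT_cross (e := e₁) (e' := e₂) hp hp' hi hc hl hl' he₁ he₂ hw

end Pool.Agent.Helper64.Hit
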