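import Pool.Agent.Helper64.Hit.N

/-!
# Module O: operations
-/

set_option autoImplicit false

namespace Pool.Agent.Helper64.Hit



/-- the path with another address of the same divergence -/
def readr (B : List ℕ) (p : List Sym) : List Sym := nms B ++ rs p

lemma word_readr (B : List ℕ) (p : List Sym) : word (readr B p) = word p := by
  unfold readr
  rw [word_append, word_nms, List.nil_append, word_rs]

lemma mem_of_mem_rs {p : List Sym} {x : Sym} (h : x ∈ rs p) : x ∈ p := by
  rw [← adr_rs p, List.mem_append]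
  exact Or.inr h

/-- changing the addresses of a forest -/
lemma Leg_readr {b n n' : ℕ} {F : List En} (h : Leg b n F) (β : List ℕ → List ℕ)
    (hlen : ∀ e ∈ F, (β (adr e.p)).length = n')
    (hself : ∀ e ∈ F, ∀ k ∈ β (adr e.p), k ≤ e.pos)
    (hdiv : ∀ e ∈ F, ∀ e' ∈ F, adr e.p ≠ adr e'.p → Div e.pos e'.pos (nms (adr e.p)) (nms (adr e'.p)) →
      Div e.pos e'.pos (nms (β (adr e.p))) (nms (β (adr e'.p)))) :
    Leg b n' (F.map fun e => ⟨readr (β (adr e.p)) e.p, e.a⟩) := by
  constructor
  · refine Val_map h.1 ?_ ?_ ?_ ?_ ?_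
    · intro e he
      have := WF_nms (β (adr e.p)) 0 (rs e.p) (h.1.wf e he).rs
      rwa [hlen e he, Nat.add_zero] at this
    · intro e he k hk
      unfold readr at hk
      rw [List.mem_append] at hk
      rcases hk with hk | hk
      · exact hself e he k ((nm_mem_nms _ _).1 hk)
      · exact h.1.self e he k (mem_of_mem_rs hk)
    · intro e he
      rw [word_readr]
      exact h.1.rc e he
    · intro e he
      rw [word_readr]
      exact h.1.ok e he
    · intro e he e' he' hd
      have hl : (adr e.p).length = (adr e'.p).length := by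
        rw [(h.1.wf e he).adr, (h.1.wf e' he').adr]
      rw [Div_iff hl] at hd
      unfold readr
      rcases hd with ⟨h2, h3⟩ | ⟨h2, h3⟩
      · rw [h2, Div_append_left]
        exact h3
      · exact (hdiv e he e' he' h2 h3).append _ _
  · refine TD_map h.2 ?_
    intro e he e' he' hw
    rwa [word_readr, word_readr] at hw

lemma Phi_readr (F : List En) (β : List ℕ → List ℕ) (x : ℕ →₀ ℝ) :
    Phi (F.map fun e => ⟨readr (β (adr e.p)) e.p, e.a⟩) x = Phi F x := by
  rw [Phi_map (c := 1), one_mul]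
  intro e _
  rw [word_readr, one_mul]
  rfl

/-- a forest of rank `rn j` under the letter `E j` -/
lemma op_E' {b j : ℕ} {F : List En} (h : Leg b (rn j) F) (x : ℕ →₀ ℝ) :
    Phi F x ≤ w j * Nb b x := by
  have hw : (0 : ℝ) < w j := by exact_mod_cast (by have := w_pos j; omega : 0 < w j)
  have h1 : Leg b 0 (F.map (En.pre [.lt (.E j)])) := by
    refine Leg_letter (n := rn j) rfl (by simp) ?_
    simpa using h
  have h2 := le_Nb h1 x
  rw [Phi_map_pre] at h2
  have h3 : cf (word [Sym.lt (.E j)]) = 1 / (w j : ℝ) := by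
    rw [word_lt, word_nil, cf_cons, cf_nil, mul_one]
    rfl
  rw [h3, one_div, inv_mul_le_iff₀ hw] at h2
  exact h2

/-- a forest of small rank under the letter `E j` -/
lemma op_E {b n j : ℕ} {F : List En} (h : Leg b n F) (hn : n ≤ rn j) (x : ℕ →₀ ℝ) :
    Phi F x ≤ w j * Nb b x := by
  rw [← Phi_readr F (fun A => A ++ List.replicate (rn j - n) 0) x]
  refine op_E' (Leg_readr h (fun A => A ++ List.replicate (rn j - n) 0) ?_ ?_ ?_) x
  · intro e he
    rw [List.length_append, List.length_replicate, (h.1.wf e he).adr]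
    omega
  · intro e he k hk
    rw [List.mem_append] at hk
    rcases hk with hk | hk
    · refine h.1.self e he k ?_
      rw [← adr_rs e.p, List.mem_append]
      exact Or.inl ((nm_mem_nms _ _).2 hk)
    · rw [List.eq_of_mem_replicate hk]
      exact Nat.zero_le _
  · intro e he e' he' _ hd
    rw [nms_append, nms_append]
    exact hd.append _ _

/-- class sums: few roots -/
lemma class_sum {b n N : ℕ} {F : List En} (h : Leg b n F) (hN : ∀ e ∈ F, N ≤ e.pos)
    (hc : (F.map fun e => adr e.p).toFinset.card ≤ N + 1) (x : ℕ →₀ ℝ) : Phi F x ≤ 8 * Nb b x := by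
  obtain ⟨ι, hi1, hi2⟩ : ∃ ι : List ℕ → ℕ, (∀ e ∈ F, ι (adr e.p) ≤ N) ∧
      ∀ e ∈ F, ∀ e' ∈ F, ι (adr e.p) = ι (adr e'.p) → adr e.p = adr e'.p := by
    classical
    generalize hS : (F.map fun e => adr e.p).toFinset = S at hc
    have hm : ∀ e ∈ F, adr e.p ∈ S := by
      intro e he
      rw [← hS, List.mem_toFinset, List.mem_map]
      exact ⟨e, he, rfl⟩
    refine ⟨fun a => if ha : a ∈ S then (S.equivFin ⟨a, ha⟩).val else 0, ?_, ?_⟩
    · intro e he
      simp only [dif_pos (hm e he)]
      have := (S.equivFin ⟨_, hm e he⟩).isLt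
      omega
    · intro e he e' he' hee
      simp only [dif_pos (hm e he), dif_pos (hm e' he')] at hee
      have := S.equivFin.injective (Fin.ext hee)
      exact congrArg Subtype.val this
  rw [← Phi_readr F (fun A => [ι A]) x]
  have h8 : (w 0 : ℝ) = 8 := by rw [w_zero]; norm_num
  have := op_E' (j := 0) (F := F.map fun e => ⟨readr [ι (adr e.p)] e.p, e.a⟩) (b := b) ?_ x
  · rwa [h8] at this
  rw [rn_zero]
  refine Leg_readr h (fun A => [ι A]) ?_ ?_ ?_
  · intro e he
    rfl
  · intro e he k hk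
    rw [List.mem_singleton] at hk
    rw [hk]
    exact (hi1 e he).trans (hN e he)
  · intro e he e' he' hne _
    rw [nms_cons, nms_cons, Div_nm_nm, if_neg]
    · exact ⟨(hi1 e he).trans (hN e' he'), (hi1 e' he').trans (hN e he)⟩
    · intro h3
      exact hne (hi2 e he e' he' h3)

/-- joining trees on successive intervals -/
lemma merge {b j : ℕ} (I : Finset ℕ) (t : ℕ → List En) (q p : ℕ → ℕ) (ht : ∀ u ∈ I, Leg b 0 (t u))
    (hin : ∀ u ∈ I, ∀ e ∈ t u, e.a.In (q u) (p u)) (hlt : ∀ u ∈ I, ∀ u' ∈ I, u < u' → p u < q u')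
    (hA : Adm (rn j) I q) :
    ∃ T : List En, Leg b 0 T ∧ (∀ e ∈ T, ∃ r, e.p = .lt (.E j) :: r) ∧
      (∀ e ∈ T, ∃ u ∈ I, e.a.In (q u) (p u)) ∧
      ∀ x, Phi T x = 1 / (w j : ℝ) * ∑ u ∈ I, Phi (t u) x := by
  obtain ⟨A, hA1, hA2, hA3⟩ := hA
  have hI : ∀ u, u ∈ I.toList ↔ u ∈ I := fun u => Finset.mem_toList
  have hpos : ∀ u ∈ I, ∀ e ∈ t u, q u ≤ e.pos := fun u hu e he => (hin u hu e he).pos
  have hcp : ∀ u ∈ I, ∀ u' ∈ I, u ≠ u' → ∀ e ∈ t u, ∀ e' ∈ t u', Cp e.a e'.a := by
    intro u hu u' hu' hne e he e' he'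
    refine Cp.of_disj (hin u hu e he) (hin u' hu' e' he') ?_
    intro k hk
    rcases lt_or_gt_of_ne hne with h | h
    · have := hlt u hu u' hu' h
      omega
    · have := hlt u' hu' u hu h
      omega
  have hG : Leg b (rn j) (bind I.toList (fun u => nms (A u)) t) := by
    constructor
    · refine Val_bind 0 ?_ ?_ ?_ ?_ ?_
      · intro u hu
        rw [word_nms, ctx_nil]
        exact (ht u ((hI u).1 hu)).1
      · intro u hu r hr
        have := WF_nms (A u) 0 r hr
        rwa [hA1 u ((hI u).1 hu), Nat.add_zero] at this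
      · intro u hu e he k hk
        exact (hA2 u ((hI u).1 hu) k ((nm_mem_nms _ _).1 hk)).trans (hpos u ((hI u).1 hu) e he)
      · intro u _
        simp
      · refine List.Pairwise.imp_of_mem (fun {u u'} hu hu' hne => ?_) (Finset.nodup_toList I)
        intro e he e' he'
        exact (hA3 u ((hI u).1 hu) u' ((hI u').1 hu') hne).mono (hpos u ((hI u).1 hu) e he)
          (hpos u' ((hI u').1 hu') e' he')
    · refine TD_bind ?_ ?_
      · intro u hu
        exact (ht u ((hI u).1 hu)).2
      · refine List.Pairwise.imp_of_mem (fun {u u'} hu hu' hne => ?_) (Finset.nodup_toList I)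
        intro e he e' he' _
        exact hcp u ((hI u).1 hu) u' ((hI u').1 hu') hne e he e' he'
  refine ⟨(bind I.toList (fun u => nms (A u)) t).map (En.pre [.lt (.E j)]), ?_, ?_, ?_, ?_⟩
  · refine Leg_letter (n := rn j) rfl (by simp) ?_
    simpa using hG
  · intro e he
    obtain ⟨e', _, rfl⟩ := List.mem_map.1 he
    exact ⟨e'.p, rfl⟩
  · intro e he
    obtain ⟨e', he', rfl⟩ := List.mem_map.1 he
    obtain ⟨u, hu, e'', he'', rfl⟩ := mem_bind.1 he'
    exact ⟨u, (hI u).1 hu, hin u ((hI u).1 hu) e'' he''⟩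
  · intro x
    rw [Phi_map_pre, Phi_bind]
    have h3 : cf (word [Sym.lt (.E j)]) = 1 / (w j : ℝ) := by
      rw [word_lt, word_nil, cf_cons, cf_nil, mul_one]
      rfl
    rw [h3]
    congr 1
    simp only [word_nms, cf_nil, one_mul]
    exact Finset.sum_map_toList I fun u => Phi (t u) x

end Pool.Agent.Helper64.Hit
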