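import Mathlib

/-!
# Parameters of the construction
-/

set_option autoImplicit false

namespace Pool.Agent.Helper64.Hit

/-- coefficients of the loose letters -/
def kap (i : ℕ) : ℕ := 2 ^ (i + 5)

/-- ratio between the closed letter and the special piece -/
def R (i : ℕ) : ℕ := i + 1

/-- loss of conversion -/
def Gam : ℕ → ℕ
  | 0 => 1
  | j + 1 => Gam j * (3 * kap j * R j)

/-- weight of special pieces from the weight `w_j` -/
def vf (j w : ℕ) : ℕ := 2 ^ (20 + j) * w ^ 3 * Gam (j + 1) ^ 2 * kap j * R j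

/-- rank of special pieces -/
def sf (j w n : ℕ) : ℕ := (n + j + 1) * (vf j w + 4) + 4

/-- next weight -/
def wf' (j w : ℕ) : ℕ := 2 ^ (20 + j) * Gam (j + 1) ^ 2 * Gam (j + 2) ^ 2 * R j * vf j w

/-- next rank -/
def nf' (j w n : ℕ) : ℕ := (sf j w n + j + 2) * (wf' j w + 8)

/-- the pair (weight, rank) -/
def st : ℕ → ℕ × ℕ
  | 0 => (8, 1)
  | j + 1 => (wf' j (st j).1, nf' j (st j).1 (st j).2)

/-- weights of the main letters -/
def w (j : ℕ) : ℕ := (st j).1

/-- ranks of the main letters -/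
def rn (j : ℕ) : ℕ := (st j).2

/-- weights of special pieces -/
def v (j : ℕ) : ℕ := vf j (w j)

/-- ranks of special pieces -/
def s (j : ℕ) : ℕ := sf j (w j) (rn j)

lemma w_zero : w 0 = 8 := rfl
lemma rn_zero : rn 0 = 1 := rfl
lemma w_succ (j : ℕ) : w (j + 1) = 2 ^ (20 + j) * Gam (j + 1) ^ 2 * Gam (j + 2) ^ 2 * R j * v j := rfl
lemma rn_succ (j : ℕ) : rn (j + 1) = (s j + j + 2) * (w (j + 1) + 8) := rfl
lemma v_def (j : ℕ) : v j = 2 ^ (20 + j) * w j ^ 3 * Gam (j + 1) ^ 2 * kap j * R j := rfl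
lemma s_def (j : ℕ) : s j = (rn j + j + 1) * (v j + 4) + 4 := rfl
lemma Gam_zero : Gam 0 = 1 := rfl
lemma Gam_succ (j : ℕ) : Gam (j + 1) = Gam j * (3 * kap j * R j) := rfl

attribute [irreducible] w rn v s Gam

lemma kap_pos (i : ℕ) : 32 ≤ kap i := by
  unfold kap
  calc 32 = 2 ^ 5 := by norm_num
    _ ≤ 2 ^ (i + 5) := Nat.pow_le_pow_right (by norm_num) (by omega)

lemma R_pos (i : ℕ) : 1 ≤ R i := by unfold R; omega

lemma Gam_pos (j : ℕ) : 1 ≤ Gam j := by
  induction j with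
  | zero => rw [Gam_zero]
  | succ j ih =>
    rw [Gam_succ]
    have h1 := kap_pos j
    have h2 := R_pos j
    exact Nat.one_le_iff_ne_zero.2 (by positivity)

lemma Gam_mono_succ (j : ℕ) : Gam j ≤ Gam (j + 1) := by
  rw [Gam_succ]
  have h1 := kap_pos j
  have h2 := R_pos j
  have : 1 ≤ 3 * kap j * R j := Nat.one_le_iff_ne_zero.2 (by positivity)
  exact Nat.le_mul_of_pos_right _ this

lemma Gam_mono {i j : ℕ} (h : i ≤ j) : Gam i ≤ Gam j := monotone_nat_of_le_succ Gam_mono_succ h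

lemma v_ge (j : ℕ) (hw : 1 ≤ w j) : 2 ^ (20 + j) * w j ≤ v j := by
  rw [v_def]
  have h1 := kap_pos j
  have h2 := R_pos j
  have h3 := Gam_pos (j + 1)
  calc 2 ^ (20 + j) * w j = 2 ^ (20 + j) * w j * 1 * 1 * 1 * 1 := by ring
    _ ≤ 2 ^ (20 + j) * w j * w j ^ 2 * Gam (j + 1) ^ 2 * kap j * R j := by
      gcongr
      · exact Nat.one_le_pow _ _ hw
      · exact Nat.one_le_pow _ _ h3
      · omega
    _ = _ := by ring

lemma w_ge (j : ℕ) : 2 ^ (20 + j) * v j ≤ w (j + 1) := by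
  rw [w_succ]
  have h2 := R_pos j
  have h3 := Gam_pos (j + 1)
  have h4 := Gam_pos (j + 2)
  calc 2 ^ (20 + j) * v j = 2 ^ (20 + j) * 1 * 1 * 1 * v j := by ring
    _ ≤ 2 ^ (20 + j) * Gam (j + 1) ^ 2 * Gam (j + 2) ^ 2 * R j * v j := by
      gcongr
      · exact Nat.one_le_pow _ _ h3
      · exact Nat.one_le_pow _ _ h4

lemma w_pos (j : ℕ) : 8 ≤ w j := by
  induction j with
  | zero => rw [w_zero]
  | succ j ih =>
    have h1 := w_ge j
    have h2 := v_ge j (by omega)
    have h3 : 1 ≤ 2 ^ (20 + j) := Nat.one_le_two_pow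
    nlinarith

lemma v_ge' (j : ℕ) : 2 ^ (20 + j) * w j ≤ v j := v_ge j (by have := w_pos j; omega)

lemma two_pow_ge (j : ℕ) : 1048576 ≤ 2 ^ (20 + j) := by
  calc 1048576 = 2 ^ 20 := by norm_num
    _ ≤ 2 ^ (20 + j) := Nat.pow_le_pow_right (by norm_num) (by omega)

lemma v_pos (j : ℕ) : 8 ≤ v j := by
  have h1 := v_ge' j
  have h2 := w_pos j
  have h3 := two_pow_ge j
  nlinarith

/-- weights by level -/
def om (t : ℕ) : ℕ := if t % 2 = 0 then w (t / 2) else v (t / 2)

/-- ranks by level -/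
def rho (t : ℕ) : ℕ := if t % 2 = 0 then rn (t / 2) else s (t / 2)

lemma om_even (j : ℕ) : om (2 * j) = w j := by
  unfold om
  rw [if_pos (by omega), show 2 * j / 2 = j by omega]

lemma om_odd (j : ℕ) : om (2 * j + 1) = v j := by
  unfold om
  rw [if_neg (by omega), show (2 * j + 1) / 2 = j by omega]

lemma rho_even (j : ℕ) : rho (2 * j) = rn j := by
  unfold rho
  rw [if_pos (by omega), show 2 * j / 2 = j by omega]

lemma rho_odd (j : ℕ) : rho (2 * j + 1) = s j := by
  unfold rho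
  rw [if_neg (by omega), show (2 * j + 1) / 2 = j by omega]

lemma om_succ (t : ℕ) : 1048576 * om t ≤ om (t + 1) := by
  rcases Nat.even_or_odd' t with ⟨j, rfl | rfl⟩
  · rw [om_even, om_odd]
    refine le_trans ?_ (v_ge' j)
    exact Nat.mul_le_mul_right _ (two_pow_ge j)
  · rw [om_odd, show 2 * j + 1 + 1 = 2 * (j + 1) by ring, om_even]
    refine le_trans ?_ (w_ge j)
    exact Nat.mul_le_mul_right _ (two_pow_ge j)

lemma om_pos (t : ℕ) : 8 ≤ om t := by
  rcases Nat.even_or_odd' t with ⟨j, rfl | rfl⟩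
  · rw [om_even]; exact w_pos j
  · rw [om_odd]; exact v_pos j

lemma om_mono {t u : ℕ} (h : t ≤ u) : om t ≤ om u :=
  monotone_nat_of_le_succ (fun t => by have := om_succ t; omega) h

lemma om_add (t i : ℕ) : 1048576 ^ i * om t ≤ om (t + i) := by
  induction i with
  | zero => simp
  | succ i ih =>
    have := om_succ (t + i)
    calc 1048576 ^ (i + 1) * om t = 1048576 * (1048576 ^ i * om t) := by ring
      _ ≤ 1048576 * om (t + i) := Nat.mul_le_mul_left _ ih
      _ ≤ _ := this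

lemma rho_succ (t : ℕ) : rho t ≤ rho (t + 1) := by
  rcases Nat.even_or_odd' t with ⟨j, rfl | rfl⟩
  · rw [rho_even, rho_odd, s_def]
    nlinarith [Nat.zero_le (rn j), Nat.zero_le (v j), Nat.zero_le (rn j * v j), Nat.zero_le (j * v j)]
  · rw [rho_odd, show 2 * j + 1 + 1 = 2 * (j + 1) by ring, rho_even, rn_succ]
    nlinarith [Nat.zero_le (s j), Nat.zero_le (w (j + 1)), Nat.zero_le (s j * w (j + 1)), Nat.zero_le (j * w (j + 1))]

lemma rho_mono {t u : ℕ} (h : t ≤ u) : rho t ≤ rho u := monotone_nat_of_le_succ rho_succ h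

lemma rho_pos (t : ℕ) : 1 ≤ rho t := by
  refine le_trans ?_ (rho_mono (Nat.zero_le t))
  have := rho_even 0
  rw [Nat.mul_zero] at this
  rw [this, rn_zero]

lemma le_om (t : ℕ) : t ≤ om t := by
  induction t with
  | zero => exact Nat.zero_le _
  | succ t ih =>
    have h1 := om_succ t
    have h2 := om_pos t
    omega

end Pool.Agent.Helper64.Hit
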