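import Pool.Agent.Helper64.Hit.Defs

/-!
# Restrictions of atoms and forests
-/

set_option autoImplicit false

namespace Pool.Agent.Helper64.Hit

/-- `a'` is a restriction of `a` -/
def At.Sb : At → At → Prop
  | .leaf k', .leaf k => k' = k
  | .pc p', .pc p => p'.i = p.i ∧ p'.gs = p.gs ∧ p.c ≤ p'.c ∧ p'.d ≤ p.d
  | _, _ => False

lemma At.Sb.refl (a : At) : a.Sb a := by
  cases a with
  | leaf k => exact rfl
  | pc p => exact ⟨rfl, rfl, le_rfl, le_rfl⟩

lemma At.Sb.pos {a' a : At} (h : a'.Sb a) : a.pos ≤ a'.pos := by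
  cases a' with
  | leaf k' => cases a with
    | leaf k => exact le_of_eq (Eq.symm h)
    | pc p => exact absurd h id
  | pc p' => cases a with
    | leaf k => exact absurd h id
    | pc p => exact h.2.2.1

lemma At.Sb.ok {a' a : At} (h : a'.Sb a) {b : ℕ} (ha : a.Ok b) : a'.Ok b := by
  cases a' with
  | leaf k' => trivial
  | pc p' => cases a with
    | leaf k => exact absurd h id
    | pc p =>
      show b ≤ p'.i
      rw [h.1]
      exact ha

lemma At.Sb.cp {a' a b' b : At} (ha : a'.Sb a) (hb : b'.Sb b) (h : Cp a b) : Cp a' b' := by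
  cases a' with
  | leaf k' => cases a with
    | pc p => exact absurd ha id
    | leaf k => cases b' with
      | pc p => trivial
      | leaf l' => cases b with
        | pc p => exact absurd hb id
        | leaf l =>
          have e1 : k' = k := ha
          have e2 : l' = l := hb
          subst e1; subst e2
          exact h
  | pc p' => cases a with
    | leaf k => exact absurd ha id
    | pc p => cases b' with
      | leaf l' => trivial
      | pc q' => cases b with
        | leaf l => exact absurd hb id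
        | pc q =>
          obtain ⟨i1, g1, c1, d1⟩ := ha
          obtain ⟨i2, g2, c2, d2⟩ := hb
          cases p' with
          | mk pi pg pc' pd =>
          cases q' with
          | mk qi qg qc qd =>
          simp only at i1 g1 c1 d1 i2 g2 c2 d2
          subst i1; subst g1; subst i2; subst g2
          intro hi l h1 h2 he k hk
          exact h hi l h1 h2 he k (by
            simp only at hk
            omega)

lemma PV_congr {Q : ℕ → ℕ → Node → Prop} {p p' : Pc} (hi : p'.i = p.i) (hg : p'.gs = p.gs) (h : PV Q p) :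
    PV Q p' := by
  cases p' with
  | mk pi pg pc' pd =>
  simp only at hi hg
  subst hi; subst hg
  exact h

/-- restriction of an atom to an interval -/
def At.tr (a b : ℕ) : At → Option At
  | .leaf k => if a ≤ k ∧ k ≤ b then some (.leaf k) else none
  | .pc p => if max p.c a ≤ min p.d b then
      some (.pc { i := p.i, gs := p.gs, c := max p.c a, d := min p.d b }) else none

lemma val_leaf (k : ℕ) (x : ℕ →₀ ℝ) : (At.leaf k).val x = x k := rfl

lemma val_pc (p : Pc) (x : ℕ →₀ ℝ) :
    (At.pc p).val x = (1 / (v p.i : ℝ)) * pr (sumf p.gs) (res p.c p.d x) := rfl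

lemma tr_leaf (a b k : ℕ) : (At.leaf k).tr a b = if a ≤ k ∧ k ≤ b then some (.leaf k) else none := rfl

lemma tr_pc (a b : ℕ) (p : Pc) : (At.pc p).tr a b = if max p.c a ≤ min p.d b then
      some (.pc { i := p.i, gs := p.gs, c := max p.c a, d := min p.d b }) else none := rfl

lemma tr_sb {a b : ℕ} {x x' : At} (h : x.tr a b = some x') : x'.Sb x := by
  cases x with
  | leaf k =>
    rw [tr_leaf] at h
    split_ifs at h
    obtain rfl := Option.some.inj h
    exact At.Sb.refl _
  | pc p =>
    rw [tr_pc] at h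
    split_ifs at h
    obtain rfl := Option.some.inj h
    exact ⟨rfl, rfl, le_max_left _ _, min_le_left _ _⟩

lemma tr_in {a b : ℕ} {x x' : At} (h : x.tr a b = some x') : x'.In a b := by
  cases x with
  | leaf k =>
    rw [tr_leaf] at h
    split_ifs at h with hk
    obtain rfl := Option.some.inj h
    exact hk
  | pc p =>
    rw [tr_pc] at h
    split_ifs at h
    obtain rfl := Option.some.inj h
    exact ⟨le_max_right _ _, min_le_right _ _⟩

lemma res_res (a b c d : ℕ) (x : ℕ →₀ ℝ) : res c d (res a b x) = res (max c a) (min d b) x := by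
  ext k
  simp only [res_apply]
  by_cases h1 : c ≤ k ∧ k ≤ d
  · by_cases h2 : a ≤ k ∧ k ≤ b
    · rw [if_pos h1, if_pos h2, if_pos (by omega)]
    · rw [if_pos h1, if_neg h2, if_neg (by omega)]
  · rw [if_neg h1, if_neg (by omega)]

lemma res_eq_zero {c d : ℕ} (h : ¬ c ≤ d) (x : ℕ →₀ ℝ) : res c d x = 0 := by
  ext k
  rw [res_apply, if_neg (by omega)]
  rfl

lemma tr_val {a b : ℕ} {y y' : At} (h : y.tr a b = some y') (x : ℕ →₀ ℝ) :
    y'.val x = y.val (res a b x) := by
  cases y with
  | leaf k =>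
    rw [tr_leaf] at h
    split_ifs at h with hk
    obtain rfl := Option.some.inj h
    rw [val_leaf, val_leaf, res_apply, if_pos hk]
  | pc p =>
    rw [tr_pc] at h
    split_ifs at h
    obtain rfl := Option.some.inj h
    rw [val_pc, val_pc, res_res]

lemma tr_none {a b : ℕ} {y : At} (h : y.tr a b = none) (x : ℕ →₀ ℝ) : y.val (res a b x) = 0 := by
  cases y with
  | leaf k =>
    rw [tr_leaf] at h
    split_ifs at h with hk
    rw [val_leaf, res_apply, if_neg hk]
  | pc p =>
    rw [tr_pc] at h
    split_ifs at h with hk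
    rw [val_pc, res_res, res_eq_zero hk, pr_zero_right, mul_zero]

/-- restriction of an entry -/
def En.tr (a b : ℕ) (e : En) : Option En := (e.a.tr a b).map fun x => ⟨e.p, x⟩

/-- restriction of a forest -/
def trF (a b : ℕ) (F : List En) : List En := F.filterMap (En.tr a b)

lemma En.tr_some {a b : ℕ} {e e' : En} (h : e.tr a b = some e') : e'.p = e.p ∧ e.a.tr a b = some e'.a := by
  unfold En.tr at h
  rw [Option.map_eq_some_iff] at h
  obtain ⟨x, hx, rfl⟩ := h
  exact ⟨rfl, hx⟩

lemma mem_trF {a b : ℕ} {F : List En} {e' : En} (h : e' ∈ trF a b F) :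
    ∃ e ∈ F, e'.p = e.p ∧ e'.a.Sb e.a ∧ e'.a.In a b := by
  unfold trF at h
  rw [List.mem_filterMap] at h
  obtain ⟨e, he, h⟩ := h
  obtain ⟨h1, h2⟩ := En.tr_some h
  exact ⟨e, he, h1, tr_sb h2, tr_in h2⟩

lemma Phi_trF (a b : ℕ) (F : List En) (x : ℕ →₀ ℝ) : Phi (trF a b F) x = Phi F (res a b x) := by
  induction F with
  | nil => simp [trF]
  | cons e F ih =>
    unfold trF at ih ⊢
    cases h : e.tr a b with
    | none =>
      rw [List.filterMap_cons_none h, ih, Phi_cons]
      unfold En.tr at h
      rw [Option.map_eq_none_iff] at h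
      rw [tr_none h, abs_zero, mul_zero, zero_add]
    | some e' =>
      rw [List.filterMap_cons_some h, Phi_cons, Phi_cons, ih]
      obtain ⟨h1, h2⟩ := En.tr_some h
      rw [tr_val h2]
      unfold En.cf
      rw [h1]

/-- a property of pieces which only depends on the index and the sequence -/
def Inv (Q : Pc → Prop) : Prop := ∀ p p' : Pc, p'.i = p.i → p'.gs = p.gs → Q p → Q p'

lemma inv_PL (h : ℕ) : Inv (PL h) := fun _ _ h1 h2 h3 => PV_congr h1 h2 h3

lemma inv_PLg : Inv PLg := fun _ _ h1 h2 ⟨h, h3⟩ => ⟨h, PV_congr h1 h2 h3⟩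

lemma Val.trF {Q : Pc → Prop} (hQ : Inv Q) {b n : ℕ} {F : List En} (h : Val Q b n F) (l u : ℕ) :
    Val Q b n (trF l u F) where
  wf e' he' := by
    obtain ⟨e, he, h1, h2, h3⟩ := mem_trF he'
    rw [h1]
    exact h.wf e he
  self e' he' k hk := by
    obtain ⟨e, he, h1, h2, h3⟩ := mem_trF he'
    rw [h1] at hk
    exact (h.self e he k hk).trans h2.pos
  rc e' he' := by
    obtain ⟨e, he, h1, h2, h3⟩ := mem_trF he'
    rw [h1]
    exact h.rc e he
  ok e' he' := by
    obtain ⟨e, he, h1, h2, h3⟩ := mem_trF he'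
    rw [h1]
    exact h2.ok (h.ok e he)
  pcs e' he' p' hp' := by
    obtain ⟨e, he, h1, h2, h3⟩ := mem_trF he'
    rw [hp'] at h2
    cases ha : e.a with
    | leaf k =>
      rw [ha] at h2
      exact absurd h2 id
    | pc p =>
      rw [ha] at h2
      exact hQ p p' h2.1 h2.2.1 (h.pcs e he p ha)
  div := by
    unfold Hit.trF
    rw [List.pairwise_filterMap]
    refine h.div.imp fun {e₁ e₂} hd e₁' h1 e₂' h2 => ?_
    obtain ⟨a1, a2⟩ := En.tr_some h1
    obtain ⟨b1, b2⟩ := En.tr_some h2
    rw [a1, b1]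
    exact hd.mono (tr_sb a2).pos (tr_sb b2).pos

lemma TD.trF {F : List En} (h : TD F) (l u : ℕ) : TD (trF l u F) := by
  unfold Hit.trF TD
  rw [List.pairwise_filterMap]
  refine h.imp fun {e₁ e₂} hd e₁' h1 e₂' h2 hw => ?_
  obtain ⟨a1, a2⟩ := En.tr_some h1
  obtain ⟨b1, b2⟩ := En.tr_some h2
  rw [a1, b1] at hw
  exact (tr_sb a2).cp (tr_sb b2) (hd hw)

lemma Leg.trF {b n : ℕ} {F : List En} (h : Leg b n F) (l u : ℕ) : Leg b n (trF l u F) :=
  ⟨h.1.trF inv_PLg l u, h.2.trF l u⟩

lemma At.In.pos {a b : ℕ} {x : At} (h : x.In a b) : a ≤ x.pos := by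
  cases x with
  | leaf k => exact h.1
  | pc p => exact h.1

/-- sublists -/
lemma Val.sub {Q : Pc → Prop} {b n : ℕ} {F G : List En} (h : Val Q b n F) (hs : G.Sublist F) : Val Q b n G :=
  ⟨fun e he => h.wf e (hs.subset he), fun e he => h.self e (hs.subset he), fun e he => h.rc e (hs.subset he),
    fun e he => h.ok e (hs.subset he), fun e he => h.pcs e (hs.subset he), h.div.sublist hs⟩

lemma TD.sub {F G : List En} (h : TD F) (hs : G.Sublist F) : TD G := List.Pairwise.sublist hs h

lemma Leg.sub {b n : ℕ} {F G : List En} (h : Leg b n F) (hs : G.Sublist F) : Leg b n G :=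
  ⟨h.1.sub hs, h.2.sub hs⟩

lemma Phi_nonneg (F : List En) (x : ℕ →₀ ℝ) : 0 ≤ Phi F x := by
  unfold Phi
  refine List.sum_nonneg fun y hy => ?_
  rw [List.mem_map] at hy
  obtain ⟨e, _, rfl⟩ := hy
  exact mul_nonneg e.cf_pos.le (abs_nonneg _)

lemma At.val_add (a : At) (x y : ℕ →₀ ℝ) : a.val (x + y) = a.val x + a.val y := by
  cases a with
  | leaf k => rfl
  | pc p =>
    rw [val_pc, val_pc, val_pc]
    have : res p.c p.d (x + y) = res p.c p.d x + res p.c p.d y := by
      ext k
      rw [Finsupp.add_apply, res_apply, res_apply, res_apply, Finsupp.add_apply]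
      split_ifs <;> simp
    rw [this, pr_add_right, mul_add]

lemma At.val_smul (a : At) (t : ℝ) (x : ℕ →₀ ℝ) : a.val (t • x) = t * a.val x := by
  cases a with
  | leaf k => rfl
  | pc p =>
    rw [val_pc, val_pc]
    have : res p.c p.d (t • x) = t • res p.c p.d x := by
      ext k
      rw [Finsupp.smul_apply, res_apply, res_apply, Finsupp.smul_apply, smul_eq_mul]
      split_ifs <;> simp
    rw [this, pr_smul_right]
    ring

lemma Phi_add_le (F : List En) (x y : ℕ →₀ ℝ) : Phi F (x + y) ≤ Phi F x + Phi F y := by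
  induction F with
  | nil => simp
  | cons e F ih =>
    simp only [Phi_cons]
    rw [At.val_add]
    have h1 := abs_add_le (e.a.val x) (e.a.val y)
    have h2 := mul_le_mul_of_nonneg_left h1 e.cf_pos.le
    linarith

lemma Phi_smul (F : List En) (t : ℝ) (x : ℕ →₀ ℝ) : Phi F (t • x) = |t| * Phi F x := by
  induction F with
  | nil => simp
  | cons e F ih =>
    simp only [Phi_cons]
    rw [At.val_smul, abs_mul, ih]
    ring

lemma Phi_zero (F : List En) : Phi F 0 = 0 := by
  have := Phi_smul F 0 0
  simpa using this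

lemma Phi_sum_le (F : List En) {ι : Type} (S : Finset ι) (a : ι → ℝ) (ha : ∀ i ∈ S, 0 ≤ a i)
    (x : ι → (ℕ →₀ ℝ)) : Phi F (∑ i ∈ S, a i • x i) ≤ ∑ i ∈ S, a i * Phi F (x i) := by
  classical
  induction S using Finset.induction_on with
  | empty => simp [Phi_zero]
  | insert i S hi ih =>
    rw [Finset.sum_insert hi, Finset.sum_insert hi]
    refine (Phi_add_le _ _ _).trans ?_
    rw [Phi_smul, abs_of_nonneg (ha i (Finset.mem_insert_self _ _))]
    have := ih fun j hj => ha j (Finset.mem_insert_of_mem hj)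
    linarith

lemma Phi_sub_le {F G : List En} (hs : G.Sublist F) (x : ℕ →₀ ℝ) : Phi G x ≤ Phi F x := by
  induction hs with
  | slnil => simp
  | cons e _ ih =>
    rw [Phi_cons]
    have := mul_nonneg e.cf_pos.le (abs_nonneg (e.a.val x))
    linarith
  | cons_cons e _ ih =>
    rw [Phi_cons, Phi_cons]
    linarith

end Pool.Agent.Helper64.Hit
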